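import Pool.Agent.HAS.T.TDefs

/-!
# HAS-AlgP: the Newton tensor in adapted coordinates (pure linear algebra)
-/

set_option autoImplicit false

namespace Pool.Agent.HAS.T

open MeasureTheory Metric Set Filter Topology
open Pool.Agent.Helper85.Herm Pool.Agent.Helper85.Cap Pool.Agent.HVM

private theorem exists_bas {y : ℂ} (hy : ‖y‖ = 1) : ∃ b : OrthonormalBasis (Fin 4) ℝ C2,
    b 0 = mk 1 0 ∧ b 1 = mk Complex.I 0 ∧ b 2 = mk 0 y ∧ b 3 = mk 0 (Complex.I * y) := by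
  have hy2 : y.re * y.re + y.im * y.im = 1 := by
    have h1 := Complex.sq_norm y
    rw [hy, Complex.normSq_apply] at h1
    linarith
  let v : Fin 4 → C2 := ![mk 1 0, mk Complex.I 0, mk 0 y, mk 0 (Complex.I * y)]
  have hon : Orthonormal ℝ v := by
    rw [orthonormal_iff_ite]
    intro i j
    have key : ∀ a c a' c' : ℂ, inner ℝ (mk a c) (mk a' c') =
        a.re * a'.re + a.im * a'.im + (c.re * c'.re + c.im * c'.im) := by
      intro a c a' c'
      rw [inner_mk, inner_c, inner_c]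
    fin_cases i <;> fin_cases j <;> (refine (key _ _ _ _).trans ?_; simp) <;> linarith
  have hcard : Fintype.card (Fin 4) = Module.finrank ℝ C2 := by simp
  let b0 := basisOfOrthonormalOfCardEqFinrank hon hcard
  have hb0 : (b0 : Fin 4 → C2) = v := coe_basisOfOrthonormalOfCardEqFinrank hon hcard
  let b : OrthonormalBasis (Fin 4) ℝ C2 := b0.toOrthonormalBasis (by rw [hb0]; exact hon)
  have hb : ∀ i, b i = v i := by
    intro i
    have : (b : Fin 4 → C2) = b0 := Module.Basis.coe_toOrthonormalBasis _ _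
    rw [this, hb0]
  exact ⟨b, hb 0, hb 1, hb 2, hb 3⟩

/-- all entries of `M` in the adapted basis -/
private theorem entries {M : C2 →L[ℝ] C2} {v y : ℂ} (hy : ‖y‖ = 1) (hM : PK M (mk v y)) :
    ∃ b : OrthonormalBasis (Fin 4) ℝ C2,
      b 0 = mk 1 0 ∧ b 1 = mk Complex.I 0 ∧ b 2 = mk 0 y ∧ b 3 = mk 0 (Complex.I * y) ∧
      (∀ i j, inner ℝ (b i) (M (b j)) = inner ℝ (b j) (M (b i))) ∧
      inner ℝ (b 0) (M (b 0)) = a11 M ∧ inner ℝ (b 0) (M (b 1)) = a12 M ∧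
      inner ℝ (b 1) (M (b 1)) = a22 M ∧ inner ℝ (b 3) (M (b 3)) = kk M y ∧
      inner ℝ (b 0) (M (b 3)) = (bb M y).re ∧ inner ℝ (b 1) (M (b 3)) = (bb M y).im ∧
      inner ℝ (b 0) (M (b 2)) = -(v.re * a11 M + v.im * a12 M) ∧
      inner ℝ (b 1) (M (b 2)) = -(v.re * a12 M + v.im * a22 M) ∧
      inner ℝ (b 2) (M (b 2)) = v.re ^ 2 * a11 M + 2 * v.re * v.im * a12 M + v.im ^ 2 * a22 M ∧
      inner ℝ (b 2) (M (b 3)) = -(v.re * (bb M y).re + v.im * (bb M y).im) := by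
  obtain ⟨b, h0, h1, h2, h3⟩ := exists_bas hy
  have hsym : ∀ i j, inner ℝ (b i) (M (b j)) = inner ℝ (b j) (M (b i)) := by
    intro i j
    rw [← hM.symm, real_inner_comm]
  have e00 : inner ℝ (b 0) (M (b 0)) = a11 M := by
    rw [h0, real_inner_comm]; rfl
  have e01 : inner ℝ (b 0) (M (b 1)) = a12 M := by
    rw [hsym, h0, h1, real_inner_comm]; rfl
  have e11 : inner ℝ (b 1) (M (b 1)) = a22 M := by
    rw [h1, real_inner_comm]; rfl
  have e33 : inner ℝ (b 3) (M (b 3)) = kk M y := by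
    rw [h3, real_inner_comm]; rfl
  have e03 : inner ℝ (b 0) (M (b 3)) = (bb M y).re := by
    rw [h0, h3, real_inner_comm, inner_mk_right, inner_c, inner_c]
    unfold bb
    simp
  have e13 : inner ℝ (b 1) (M (b 3)) = (bb M y).im := by
    rw [h1, h3, real_inner_comm, inner_mk_right, inner_c, inner_c]
    unfold bb
    simp
  have hMf : M (b 2) = -(v.re • M (b 0) + v.im • M (b 1)) := by
    have hw : mk v y = v.re • b 0 + v.im • b 1 + b 2 := by
      rw [h0, h1, h2, mk_smul, mk_smul, mk_add, mk_add]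
      congr 1
      · apply Complex.ext <;> simp
      · simp
    have h4 := hM.ker
    rw [hw, map_add, map_add, map_smul, map_smul] at h4
    exact (neg_eq_of_add_eq_zero_right h4).symm
  have f : ∀ i, inner ℝ (b i) (M (b 2)) =
      -(v.re * inner ℝ (b i) (M (b 0)) + v.im * inner ℝ (b i) (M (b 1))) := by
    intro i
    rw [hMf, inner_neg_right, inner_add_right, inner_smul_right, inner_smul_right]
  refine ⟨b, h0, h1, h2, h3, hsym, e00, e01, e11, e33, e03, e13, ?_, ?_, ?_, ?_⟩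
  · rw [f, e00, e01]
  · rw [f, hsym 1 0, e01, e11]
  · rw [f, hsym 2 0, hsym 2 1, f, f, e00, e01, hsym 1 0, e01, e11]
    ring
  · rw [hsym 2 3, f, hsym 3 0, hsym 3 1, e03, e13]

private theorem NT_inner {M : C2 →L[ℝ] C2} (hs : ∀ a b, inner ℝ (M a) b = inner ℝ a (M b))
    (x : C2) : inner ℝ (NT M x) x =
      s2 M * inner ℝ x x - s1 M * inner ℝ x (M x) + inner ℝ (M x) (M x) := by
  have h1 : NT M x = s2 M • x - s1 M • M x + M (M x) := rfl
  rw [h1, inner_add_left, inner_sub_left, inner_smul_left, inner_smul_left, hs (M x) x,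
    RCLike.conj_to_real, RCLike.conj_to_real, hs x x]

/-- `s1` and `s2` of `M` in terms of the entries in an orthonormal basis -/
private theorem s12 {M : C2 →L[ℝ] C2} (hs : ∀ a b, inner ℝ (M a) b = inner ℝ a (M b))
    (b : OrthonormalBasis (Fin 4) ℝ C2) :
    s1 M = inner ℝ (b 0) (M (b 0)) + inner ℝ (b 1) (M (b 1)) + inner ℝ (b 2) (M (b 2)) +
      inner ℝ (b 3) (M (b 3)) ∧
    s1 (M ∘L M) = inner ℝ (M (b 0)) (M (b 0)) + inner ℝ (M (b 1)) (M (b 1)) +
      inner ℝ (M (b 2)) (M (b 2)) + inner ℝ (M (b 3)) (M (b 3)) := by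
  have hMM : ∀ i, inner ℝ (b i) ((M ∘L M) (b i)) = inner ℝ (M (b i)) (M (b i)) := by
    intro i
    show inner ℝ (b i) (M (M (b i))) = _
    rw [← hs]
  refine ⟨AlgB.s1_eq b M, ?_⟩
  rw [AlgB.s1_eq b (M ∘L M), hMM, hMM, hMM, hMM]

theorem alg_33 {M : C2 →L[ℝ] C2} {v y : ℂ} (hy : ‖y‖ = 1) (hM : PK M (mk v y)) :
    inner ℝ (NT M (mk 0 (Complex.I * y))) (mk 0 (Complex.I * y)) =
      ‖mk v y‖ ^ 2 * (a11 M * a22 M - a12 M ^ 2) := by
  obtain ⟨b, h0, h1, h2, h3, hsym, e00, e01, e11, e33, e03, e13, e02, e12, e22, e23⟩ :=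
    entries hy hM
  have hv : ‖mk v y‖ ^ 2 = v.re ^ 2 + v.im ^ 2 + 1 := by
    rw [norm_mk_sq, hy, Complex.sq_norm, Complex.normSq_apply]
    ring
  obtain ⟨t1, t2⟩ := s12 hM.symm b
  rw [← h3, NT_inner hM.symm, s2, t1, t2,
    AlgB.inner_sum b (M (b 0)) (M (b 0)), AlgB.inner_sum b (M (b 1)) (M (b 1)),
    AlgB.inner_sum b (M (b 2)) (M (b 2)), AlgB.inner_sum b (M (b 3)) (M (b 3)), hv,
    hsym 1 0, hsym 2 0, hsym 3 0, hsym 2 1, hsym 3 1, hsym 3 2, e00, e01, e02, e03, e11, e12, e13,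
    e22, e23, e33, real_inner_self_eq_norm_sq, b.norm_eq_one]
  ring

theorem alg_P {M : C2 →L[ℝ] C2} {v y : ℂ} (hy : ‖y‖ = 1) (hM : PK M (mk v y)) :
    inner ℝ (NT M (Iq (mk v y))) (Iq (mk v y)) + inner ℝ (NT M (Kq (mk v y))) (Kq (mk v y)) =
      ‖mk v y‖ ^ 2 * (kk M y * (a11 M + a22 M) - ‖bb M y‖ ^ 2 -
        2 * (v.im * (a22 M * (bb M y).re - a12 M * (bb M y).im) -
          v.re * (a11 M * (bb M y).im - a12 M * (bb M y).re)) +
        (a11 M * a22 M - a12 M ^ 2) * ‖v‖ ^ 2) := by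
  obtain ⟨b, h0, h1, h2, h3, hsym, e00, e01, e11, e33, e03, e13, e02, e12, e22, e23⟩ :=
    entries hy hM
  have hv : ‖mk v y‖ ^ 2 = v.re ^ 2 + v.im ^ 2 + 1 := by
    rw [norm_mk_sq, hy, Complex.sq_norm, Complex.normSq_apply]
    ring
  have hJn : inner ℝ (J (mk v y)) (J (mk v y)) = ‖mk v y‖ ^ 2 := by
    rw [J_mk, real_inner_self_eq_norm_sq, norm_mk_sq, norm_mk_sq, norm_I_mul, norm_I_mul]
  have hJ : J (mk v y) = (-v.im) • b 0 + v.re • b 1 + b 3 := by
    rw [h0, h1, h3, J_mk, mk_smul, mk_smul, mk_add, mk_add]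
    congr 1
    · apply Complex.ext <;> simp
    · simp
  have hq := NT_quat hM
  rw [NT_inner hM.symm (J (mk v y)), hJn] at hq
  have hMJ : M (J (mk v y)) = (-v.im) • M (b 0) + v.re • M (b 1) + M (b 3) := by
    rw [hJ, map_add, map_add, map_smul, map_smul]
  have c : ∀ i, inner ℝ (b i) (M (J (mk v y))) = -v.im * inner ℝ (b i) (M (b 0)) +
      v.re * inner ℝ (b i) (M (b 1)) + inner ℝ (b i) (M (b 3)) := by
    intro i
    rw [hMJ, inner_add_right, inner_add_right, inner_smul_right, inner_smul_right]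
  have d1 : inner ℝ (J (mk v y)) (M (J (mk v y))) = -v.im * inner ℝ (b 0) (M (J (mk v y))) +
      v.re * inner ℝ (b 1) (M (J (mk v y))) + inner ℝ (b 3) (M (J (mk v y))) := by
    rw [show inner ℝ (J (mk v y)) (M (J (mk v y))) =
      inner ℝ ((-v.im) • b 0 + v.re • b 1 + b 3) (M (J (mk v y))) by rw [← hJ],
      inner_add_left, inner_add_left, inner_smul_left, inner_smul_left, RCLike.conj_to_real,
      RCLike.conj_to_real]
  have d2 := AlgB.inner_sum b (M (J (mk v y))) (M (J (mk v y)))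
  obtain ⟨t1, t2⟩ := s12 hM.symm b
  rw [c, c, c, c] at d2
  rw [c, c, c] at d1
  rw [hsym 1 0, hsym 2 0, hsym 3 0, hsym 2 1, hsym 3 1, e00, e01, e02, e03, e11, e12, e13,
    e23, e33] at d2
  rw [hsym 1 0, hsym 3 0, hsym 3 1, e00, e01, e03, e11, e13, e33] at d1
  rw [d1, d2, t1, e00, e11, e22, e33, hv] at hq
  have hb2 : ‖bb M y‖ ^ 2 = (bb M y).re ^ 2 + (bb M y).im ^ 2 := by
    rw [Complex.sq_norm, Complex.normSq_apply]
    ring
  have hv2 : ‖v‖ ^ 2 = v.re ^ 2 + v.im ^ 2 := by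
    rw [Complex.sq_norm, Complex.normSq_apply]
    ring
  rw [hv, hb2, hv2]
  linear_combination hq

end Pool.Agent.HAS.T
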