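import Pool.Agent.HAS.T.TDefs

/-!
# HAS-AlgT: pointwise inequalities for the Newton tensor (pure linear algebra)
-/

set_option autoImplicit false

namespace Pool.Agent.HAS.T

open MeasureTheory Metric Set Filter Topology
open Pool.Agent.Helper85.Herm Pool.Agent.Helper85.Cap Pool.Agent.HVM

private theorem at_quad {T : C2 →L[ℝ] C2} (hsym : ∀ a b, inner ℝ (T a) b = inner ℝ a (T b))
    (a b : ℝ) (x y : C2) : inner ℝ (T (a • x + b • y)) (a • x + b • y) =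
      a ^ 2 * inner ℝ (T x) x + 2 * a * b * inner ℝ (T x) y + b ^ 2 * inner ℝ (T y) y := by
  have h1 : (inner ℝ (T y) x : ℝ) = inner ℝ (T x) y := by
    rw [hsym y x, real_inner_comm]
  simp only [map_add, map_smul, inner_add_left, inner_add_right, real_inner_smul_left,
    real_inner_smul_right]
  rw [h1]
  ring

private theorem at_sq (v : ℂ) : ‖v‖ ^ 2 = v.re ^ 2 + v.im ^ 2 := by
  rw [← Complex.normSq_eq_norm_sq, Complex.normSq_apply]
  ring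

theorem T_J {T : C2 →L[ℝ] C2} (hsym : ∀ a b, inner ℝ (T a) b = inner ℝ a (T b))
    (hpsd : ∀ a, 0 ≤ inner ℝ (T a) a) {v y : ℂ} (hv : v ≠ 0) (hy : y ≠ 0) :
    inner ℝ (T (J (mk v y))) (J (mk v y)) ≤ ‖mk v y‖ ^ 2 *
      (inner ℝ (T (mk (Complex.I * v) 0)) (mk (Complex.I * v) 0) / ‖v‖ ^ 2 +
        inner ℝ (T (mk 0 (Complex.I * y))) (mk 0 (Complex.I * y)) / ‖y‖ ^ 2) := by
  have hp : 0 < ‖v‖ ^ 2 := by have := norm_pos_iff.2 hv; positivity
  have hr : 0 < ‖y‖ ^ 2 := by have := norm_pos_iff.2 hy; positivity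
  have hJ : J (mk v y) = (1 : ℝ) • mk (Complex.I * v) 0 + (1 : ℝ) • mk 0 (Complex.I * y) := by
    rw [J_mk, one_smul, one_smul, mk_add, add_zero, zero_add]
  rw [hJ, at_quad hsym, norm_mk_sq]
  have h1 := hpsd ((‖y‖ ^ 2) • mk (Complex.I * v) 0 + (-‖v‖ ^ 2) • mk 0 (Complex.I * y))
  rw [at_quad hsym] at h1
  generalize (inner ℝ (T (mk (Complex.I * v) 0)) (mk (Complex.I * v) 0) : ℝ) = A at h1 ⊢
  generalize (inner ℝ (T (mk 0 (Complex.I * y))) (mk 0 (Complex.I * y)) : ℝ) = B at h1 ⊢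
  generalize (inner ℝ (T (mk (Complex.I * v) 0)) (mk 0 (Complex.I * y)) : ℝ) = D at h1 ⊢
  generalize ‖v‖ ^ 2 = p at hp h1 ⊢
  generalize ‖y‖ ^ 2 = r at hr h1 ⊢
  have h2 : (p + r) * (A / p + B / r) - (A + 2 * D + B) =
      (r ^ 2 * A - 2 * r * p * D + p ^ 2 * B) / (p * r) := by
    field_simp
    ring
  have h3 : 0 ≤ (r ^ 2 * A - 2 * r * p * D + p ^ 2 * B) / (p * r) := by
    apply div_nonneg _ (by positivity)
    nlinarith
  linarith

theorem T_nu {T : C2 →L[ℝ] C2} (hsym : ∀ a b, inner ℝ (T a) b = inner ℝ a (T b))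
    (hpsd : ∀ a, 0 ≤ inner ℝ (T a) a) (v y : ℂ) :
    inner ℝ (T (mk ((‖y‖ ^ 2 : ℝ) • v) (-((‖v‖ ^ 2 : ℝ) • y))))
        (mk ((‖y‖ ^ 2 : ℝ) • v) (-((‖v‖ ^ 2 : ℝ) • y))) ≤
      ‖v‖ ^ 2 * ‖y‖ ^ 2 * (inner ℝ (T (Iq (mk v y))) (Iq (mk v y)) +
        inner ℝ (T (Kq (mk v y))) (Kq (mk v y))) := by
  have hν : mk ((‖y‖ ^ 2 : ℝ) • v) (-((‖v‖ ^ 2 : ℝ) • y)) =
      (-(v.re * y.re - v.im * y.im)) • Iq (mk v y) +
        (-(v.re * y.im + v.im * y.re)) • Kq (mk v y) := by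
    rw [Iq_mk, Kq_mk, mk_smul, mk_smul, mk_add, at_sq, at_sq]
    congr 1 <;> apply Complex.ext <;>
      simp only [Complex.smul_re, Complex.smul_im, Complex.add_re, Complex.add_im, Complex.neg_re,
        Complex.neg_im, Complex.mul_re, Complex.mul_im, Complex.conj_re, Complex.conj_im,
        Complex.I_re, Complex.I_im, smul_eq_mul] <;> ring
  rw [hν, at_quad hsym]
  have h1 := hpsd ((v.re * y.im + v.im * y.re) • Iq (mk v y) +
    (-(v.re * y.re - v.im * y.im)) • Kq (mk v y))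
  rw [at_quad hsym] at h1
  rw [at_sq, at_sq]
  generalize (inner ℝ (T (Iq (mk v y))) (Iq (mk v y)) : ℝ) = A at h1 ⊢
  generalize (inner ℝ (T (Kq (mk v y))) (Kq (mk v y)) : ℝ) = B at h1 ⊢
  generalize (inner ℝ (T (Iq (mk v y))) (Kq (mk v y)) : ℝ) = D at h1 ⊢
  nlinarith

private theorem at_tr (T : C2 →L[ℝ] C2) (v y : ℂ) :
    ‖y‖ ^ 2 * (inner ℝ (T (mk v 0)) (mk v 0) + inner ℝ (T (mk (Complex.I * v) 0)) (mk (Complex.I * v) 0)) +
      ‖v‖ ^ 2 * (inner ℝ (T (mk 0 y)) (mk 0 y) + inner ℝ (T (mk 0 (Complex.I * y))) (mk 0 (Complex.I * y))) =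
      ‖v‖ ^ 2 * ‖y‖ ^ 2 * s1 T := by
  let b : OrthonormalBasis (Fin 4) ℝ C2 := EuclideanSpace.basisFun (Fin 4) ℝ
  have hb : ∀ (i : Fin 4) (x : C2), inner ℝ (b i) x = x i := by
    intro i x
    have h := (b.repr_apply_apply x i).symm
    rw [h]
    rfl
  have hT : ∀ x : C2, T x = x 0 • T (b 0) + x 1 • T (b 1) + x 2 • T (b 2) + x 3 • T (b 3) := by
    intro x
    have h := AlgB.expand b x
    simp only [hb] at h
    conv_lhs => rw [h]
    simp only [map_add, map_smul]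
  have hTi : ∀ x y : C2, inner ℝ (T x) y = x 0 * inner ℝ (T (b 0)) y + x 1 * inner ℝ (T (b 1)) y +
      x 2 * inner ℝ (T (b 2)) y + x 3 * inner ℝ (T (b 3)) y := by
    intro x y
    conv_lhs => rw [hT x]
    simp only [inner_add_left, inner_smul_left, conj_trivial]
  have hm : ∀ a c : ℂ, mk a c 0 = a.re ∧ mk a c 1 = a.im ∧ mk a c 2 = c.re ∧ mk a c 3 = c.im :=
    fun a c => ⟨rfl, rfl, rfl, rfl⟩
  rw [AlgB.s1_eq b, hb, hb, hb, hb, hTi (mk v 0), hTi (mk (Complex.I * v) 0), hTi (mk 0 y),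
    hTi (mk 0 (Complex.I * y)), at_sq, at_sq]
  simp only [AlgB.inner_four, (hm _ _).1, (hm _ _).2.1, (hm _ _).2.2.1, (hm _ _).2.2.2,
    Complex.mul_re, Complex.mul_im, Complex.I_re, Complex.I_im, Complex.zero_re, Complex.zero_im]
  ring

theorem T_trace {T : C2 →L[ℝ] C2} (hsym : ∀ a b, inner ℝ (T a) b = inner ℝ a (T b))
    (hpsd : ∀ a, 0 ≤ inner ℝ (T a) a) {v y : ℂ} (hv : v ≠ 0) (hy : y ≠ 0) (s : ℝ)
    (hw : T (mk v y) = s • mk v y) (htr : s1 T = 2 * s) :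
    inner ℝ (T (mk (Complex.I * v) 0)) (mk (Complex.I * v) 0) / ‖v‖ ^ 2 +
      inner ℝ (T (mk 0 (Complex.I * y))) (mk 0 (Complex.I * y)) / ‖y‖ ^ 2 ≤ s := by
  have hp : 0 < ‖v‖ ^ 2 := by have := norm_pos_iff.2 hv; positivity
  have hr : 0 < ‖y‖ ^ 2 := by have := norm_pos_iff.2 hy; positivity
  have h0 := at_tr T v y
  have hs : mk v y = mk v 0 + mk 0 y := by rw [mk_add, add_zero, zero_add]
  have e1 : (inner ℝ (T (mk v 0)) (mk v 0) : ℝ) + inner ℝ (T (mk v 0)) (mk 0 y) = s * ‖v‖ ^ 2 := by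
    have h1 : (inner ℝ (T (mk v y)) (mk v 0) : ℝ) = s * ‖v‖ ^ 2 := by
      rw [hw, real_inner_smul_left, inner_mk, inner_zero_right, add_zero,
        real_inner_self_eq_norm_sq]
    rw [← inner_add_right, ← hs, ← h1, real_inner_comm, hsym, real_inner_comm, hsym]
  have e2 : (inner ℝ (T (mk v 0)) (mk 0 y) : ℝ) + inner ℝ (T (mk 0 y)) (mk 0 y) = s * ‖y‖ ^ 2 := by
    have h1 : (inner ℝ (T (mk v y)) (mk 0 y) : ℝ) = s * ‖y‖ ^ 2 := by
      rw [hw, real_inner_smul_left, inner_mk, inner_zero_right, zero_add,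
        real_inner_self_eq_norm_sq]
    rw [← inner_add_left, ← map_add, ← hs, h1]
  have h1 := hpsd ((‖y‖ ^ 2) • mk v 0 + (-‖v‖ ^ 2) • mk 0 y)
  rw [at_quad hsym] at h1
  rw [htr] at h0
  generalize (inner ℝ (T (mk (Complex.I * v) 0)) (mk (Complex.I * v) 0) : ℝ) = A at h0 h1 ⊢
  generalize (inner ℝ (T (mk 0 (Complex.I * y))) (mk 0 (Complex.I * y)) : ℝ) = B at h0 h1 ⊢
  generalize (inner ℝ (T (mk v 0)) (mk v 0) : ℝ) = A' at h0 h1 e1 ⊢
  generalize (inner ℝ (T (mk 0 y)) (mk 0 y) : ℝ) = B' at h0 h1 e2 ⊢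
  generalize (inner ℝ (T (mk v 0)) (mk 0 y) : ℝ) = D at h1 e1 e2 ⊢
  generalize ‖v‖ ^ 2 = p at *
  generalize ‖y‖ ^ 2 = r at *
  have hA' : A' = s * p - D := by linarith
  have hB' : B' = s * r - D := by linarith
  subst hA' hB'
  have h2 : 0 ≤ (p + r) * (s * p * r - D * (p + r)) := by nlinarith
  have h3 : 0 ≤ s * p * r - D * (p + r) := nonneg_of_mul_nonneg_right h2 (by positivity)
  rw [div_add_div _ _ hp.ne' hr.ne', div_le_iff₀ (by positivity)]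
  nlinarith

/-- the trace of the Newton tensor -/
theorem s1_NT {M : C2 →L[ℝ] C2} {w : C2} (h : PK M w) : s1 (NT M) = 2 * s2 M := by
  obtain ⟨b, l, _, _, _, _, _, hs2, _, hN0, hN1, hN2, hN3⟩ := exists_eig h
  rw [AlgB.s1_eq b, hN0, hN1, hN2, hN3]
  simp only [inner_smul_right, real_inner_self_eq_norm_sq, b.norm_eq_one]
  rw [hs2]
  ring

end Pool.Agent.HAS.T
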