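import Pool.Agent.HAS.T.TDefs

/-!
# HAS-Par: integrals over `θ` of functions of `(z, θ)`: continuity and differentiability
-/

set_option autoImplicit false

namespace Pool.Agent.HAS.T

open MeasureTheory Metric Set Filter Topology
open Pool.Agent.Helper85.Herm Pool.Agent.Helper85.Cap Pool.Agent.HVM

variable {E : Type} [NormedAddCommGroup E] [NormedSpace ℝ E] [CompleteSpace E]

private theorem par_slice {F : Type} [NormedAddCommGroup F] {Ω : Set ℂ} {Ψ : ℂ × ℝ → F}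
    (hΨ : ContinuousOn Ψ (Ω ×ˢ (univ : Set ℝ))) {x : ℂ} (hx : x ∈ Ω) :
    Continuous fun θ : ℝ => Ψ (x, θ) := by
  rw [← continuousOn_univ]
  exact hΨ.comp (by fun_prop) fun θ _ => mk_mem_prod hx (mem_univ θ)

private theorem par_bound {F : Type} [NormedAddCommGroup F] {Ω : Set ℂ} (hΩ : IsOpen Ω)
    {Ψ : ℂ × ℝ → F} (hΨ : ContinuousOn Ψ (Ω ×ˢ (univ : Set ℝ))) (a b : ℝ) {z : ℂ} (hz : z ∈ Ω) :
    ∃ ε > 0, closedBall z ε ⊆ Ω ∧ ∃ C, ∀ x ∈ closedBall z ε, ∀ θ ∈ uIcc a b, ‖Ψ (x, θ)‖ ≤ C := by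
  obtain ⟨ε, hε, hB⟩ := Metric.nhds_basis_closedBall.mem_iff.1 (hΩ.mem_nhds hz)
  refine ⟨ε, hε, hB, ?_⟩
  have hK : IsCompact (closedBall z ε ×ˢ uIcc a b) :=
    (isCompact_closedBall z ε).prod isCompact_uIcc
  obtain ⟨C, hC⟩ := hK.exists_bound_of_continuousOn
    (hΨ.mono (prod_mono hB (subset_univ _)))
  exact ⟨C, fun x hx θ hθ => hC (x, θ) (mk_mem_prod hx hθ)⟩

private theorem par_smul {F : Type} [NormedAddCommGroup F] [NormedSpace ℝ F] {Ω : Set ℂ}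
    {Ψ : ℂ × ℝ → F} (hΨ : ContinuousOn Ψ (Ω ×ˢ (univ : Set ℝ))) {w : ℝ → ℝ} (hw : Continuous w) :
    ContinuousOn (fun p : ℂ × ℝ => w p.2 • Ψ p) (Ω ×ˢ (univ : Set ℝ)) :=
  ((hw.comp continuous_snd).continuousOn).smul hΨ

theorem par_continuousOn {Ω : Set ℂ} (hΩ : IsOpen Ω) {Φ : ℂ × ℝ → E}
    (hΦ : ContinuousOn Φ (Ω ×ˢ (univ : Set ℝ))) (w : ℝ → ℝ) (hw : Continuous w) (a b : ℝ) :
    ContinuousOn (fun z => ∫ θ in a..b, w θ • Φ (z, θ)) Ω := by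
  intro z hz
  refine ContinuousAt.continuousWithinAt ?_
  have hS := par_smul hΦ hw
  obtain ⟨ε, hε, hB, C, hC⟩ := par_bound hΩ hS a b hz
  have hn : closedBall z ε ∈ 𝓝 z := closedBall_mem_nhds z hε
  refine intervalIntegral.continuousAt_of_dominated_interval (bound := fun _ => C) ?_ ?_
    intervalIntegrable_const ?_
  · filter_upwards [hn] with x hx
    exact (par_slice hS (hB hx)).aestronglyMeasurable
  · filter_upwards [hn] with x hx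
    refine Filter.Eventually.of_forall fun θ hθ => ?_
    exact hC x hx θ (uIoc_subset_uIcc hθ)
  · refine Filter.Eventually.of_forall fun θ _ => ?_
    have h1 : ContinuousOn (fun x : ℂ => w θ • Φ (x, θ)) Ω :=
      hS.comp (f := fun x : ℂ => (x, θ)) (by fun_prop) fun x hx => mk_mem_prod hx (mem_univ θ)
    exact h1.continuousAt (hΩ.mem_nhds hz)

private theorem par_fd {Ω : Set ℂ} (hΩ : IsOpen Ω) {Φ : ℂ × ℝ → E}
    (hΦ : ContDiffOn ℝ 1 Φ (Ω ×ˢ (univ : Set ℝ))) :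
    ContinuousOn (fun p => (fderiv ℝ Φ p).comp (ContinuousLinearMap.inl ℝ ℂ ℝ))
      (Ω ×ˢ (univ : Set ℝ)) := by
  have h1 : ContinuousOn (fderiv ℝ Φ) (Ω ×ˢ (univ : Set ℝ)) :=
    hΦ.continuousOn_fderiv_of_isOpen (hΩ.prod isOpen_univ) le_rfl
  exact h1.clm_comp continuousOn_const

theorem par_hasFDerivAt {Ω : Set ℂ} (hΩ : IsOpen Ω) {Φ : ℂ × ℝ → E}
    (hΦ : ContDiffOn ℝ 1 Φ (Ω ×ˢ (univ : Set ℝ))) (w : ℝ → ℝ) (hw : Continuous w) (a b : ℝ) {z : ℂ}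
    (hz : z ∈ Ω) :
    HasFDerivAt (fun z => ∫ θ in a..b, w θ • Φ (z, θ))
      (∫ θ in a..b, w θ • (fderiv ℝ Φ (z, θ)).comp (ContinuousLinearMap.inl ℝ ℂ ℝ)) z := by
  have hF := par_fd hΩ hΦ
  have hS := par_smul hΦ.continuousOn hw
  have hS' := par_smul hF hw
  obtain ⟨ε, hε, hB, C, hC⟩ := par_bound hΩ hS' a b hz
  have hn : closedBall z ε ∈ 𝓝 z := closedBall_mem_nhds z hε
  refine intervalIntegral.hasFDerivAt_integral_of_dominated_of_fderiv_le (𝕜 := ℝ)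
    (F := fun z θ => w θ • Φ (z, θ))
    (F' := fun z θ => w θ • (fderiv ℝ Φ (z, θ)).comp (ContinuousLinearMap.inl ℝ ℂ ℝ))
    (bound := fun _ => C) hn ?_ ?_ ?_ ?_ intervalIntegrable_const ?_
  · filter_upwards [hn] with x hx
    exact (par_slice hS (hB hx)).aestronglyMeasurable
  · exact (par_slice hS hz).intervalIntegrable a b
  · exact (par_slice hS' hz).aestronglyMeasurable
  · refine Filter.Eventually.of_forall fun θ hθ x hx => ?_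
    exact hC x hx θ (uIoc_subset_uIcc hθ)
  · refine Filter.Eventually.of_forall fun θ _ x hx => ?_
    have h1 : HasFDerivAt Φ (fderiv ℝ Φ (x, θ)) (x, θ) := by
      have h2 : Ω ×ˢ (univ : Set ℝ) ∈ 𝓝 (x, θ) :=
        (hΩ.prod isOpen_univ).mem_nhds (mk_mem_prod (hB hx) (mem_univ θ))
      exact ((hΦ.contDiffAt h2).differentiableAt one_ne_zero).hasFDerivAt
    have h2 : HasFDerivAt (fun y : ℂ => (y, θ)) (ContinuousLinearMap.inl ℝ ℂ ℝ) x :=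
      hasFDerivAt_prodMk_left x θ
    exact (h1.comp x h2).const_smul (w θ)

private theorem par_contDiff_aux {Ω : Set ℂ} (hΩ : IsOpen Ω) (w : ℝ → ℝ) (hw : Continuous w)
    (a b : ℝ) (n : ℕ) : ∀ (F : Type) [NormedAddCommGroup F] [NormedSpace ℝ F] [CompleteSpace F]
    (Φ : ℂ × ℝ → F), ContDiffOn ℝ n Φ (Ω ×ˢ (univ : Set ℝ)) →
      ContDiffOn ℝ n (fun z => ∫ θ in a..b, w θ • Φ (z, θ)) Ω := by
  induction n with
  | zero =>
    intro F _ _ _ Φ hΦ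
    have h0 : ((0 : ℕ) : WithTop ℕ∞) = 0 := rfl
    rw [h0, contDiffOn_zero] at hΦ ⊢
    exact par_continuousOn hΩ hΦ w hw a b
  | succ n ih =>
    intro F _ _ _ Φ hΦ
    have h0 : ((n + 1 : ℕ) : WithTop ℕ∞) = (n : WithTop ℕ∞) + 1 := rfl
    rw [h0] at hΦ ⊢
    have h1 : ContDiffOn ℝ 1 Φ (Ω ×ˢ (univ : Set ℝ)) := hΦ.of_le le_add_self
    rw [contDiffOn_succ_iff_fderiv_of_isOpen (hΩ.prod isOpen_univ)] at hΦ
    obtain ⟨-, -, h3⟩ := hΦ
    have h4 : ContDiffOn ℝ n (fun p => (fderiv ℝ Φ p).comp (ContinuousLinearMap.inl ℝ ℂ ℝ))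
        (Ω ×ˢ (univ : Set ℝ)) := h3.clm_comp contDiffOn_const
    have h5 := ih (ℂ →L[ℝ] F) _ h4
    rw [contDiffOn_succ_iff_fderiv_of_isOpen hΩ]
    refine ⟨fun z hz => ((par_hasFDerivAt hΩ h1 w hw a b hz).differentiableAt).differentiableWithinAt,
      fun h => ?_, h5.congr fun z hz => ?_⟩
    · exact absurd h (by simp)
    · exact (par_hasFDerivAt hΩ h1 w hw a b hz).fderiv

theorem par_contDiffOn {Ω : Set ℂ} (hΩ : IsOpen Ω) (n : ℕ) {Φ : ℂ × ℝ → E}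
    (hΦ : ContDiffOn ℝ n Φ (Ω ×ˢ (univ : Set ℝ))) (w : ℝ → ℝ) (hw : Continuous w) (a b : ℝ) :
    ContDiffOn ℝ n (fun z => ∫ θ in a..b, w θ • Φ (z, θ)) Ω :=
  par_contDiff_aux hΩ w hw a b n E Φ hΦ

/-- directional derivatives of real valued parameter integrals -/
theorem par_fderiv {Ω : Set ℂ} (hΩ : IsOpen Ω) {Φ : ℂ × ℝ → ℝ}
    (hΦ : ContDiffOn ℝ 1 Φ (Ω ×ˢ (univ : Set ℝ))) (w : ℝ → ℝ) (hw : Continuous w) (a b : ℝ) {z : ℂ}
    (hz : z ∈ Ω) (e : ℂ) :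
    fderiv ℝ (fun z => ∫ θ in a..b, w θ * Φ (z, θ)) z e =
      ∫ θ in a..b, w θ * fderiv ℝ Φ (z, θ) (e, 0) := by
  have h1 := par_hasFDerivAt hΩ hΦ w hw a b hz
  have h2 : (fun z => ∫ θ in a..b, w θ * Φ (z, θ)) = fun z => ∫ θ in a..b, w θ • Φ (z, θ) := rfl
  rw [h2, h1.fderiv]
  have hS' := par_smul (par_fd hΩ hΦ) hw
  rw [ContinuousLinearMap.intervalIntegral_apply ((par_slice hS' hz).intervalIntegrable a b)]
  rfl

end Pool.Agent.HAS.T
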