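import Pool.Agent.HAS.T.Leg4b
import Pool.Agent.HAS.T.Par

/-!
# HAS-Cf: the mean support function of the fibres: regularity, gradient, Jensen's inequality
-/

set_option autoImplicit false

namespace Pool.Agent.HAS.T

open MeasureTheory Metric Set Filter Topology
open Pool.Agent.Helper85.Herm Pool.Agent.Helper85.Cap Pool.Agent.HVM

theorem cf_eq (K : Body) (z : ℂ) : cf K z = mean (Phi K) z := rfl

private theorem cf_eq' (K : Body) : cf K = fun z : ℂ => (2 * Real.pi)⁻¹ *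
    ∫ θ in (0 : ℝ)..(2 * Real.pi), (1 : ℝ) • Phi K (z, θ) := by
  funext z
  rw [cf_eq]
  unfold mean
  simp only [one_smul]

theorem cf_contDiffOn' {h : C2 → ℝ} (hs : SmoothSupp h) (K : Body) (hK : pts K = wulff h) :
    ContDiffOn ℝ 3 (cf K) (interior (sh1 K)) := by
  have h1 : ContDiffOn ℝ (3 : ℕ) (Phi K) (interior (sh1 K) ×ˢ (univ : Set ℝ)) :=
    (Phi_per hs K hK).smooth
  have h2 := par_contDiffOn isOpen_interior 3 h1 (fun _ => 1) continuous_const 0 (2 * Real.pi)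
  rw [cf_eq']
  exact contDiffOn_const.mul h2

private theorem Vt_slice {h : C2 → ℝ} (hs : SmoothSupp h) (K : Body) (hK : pts K = wulff h) {z : ℂ}
    (hz : z ∈ interior (sh1 K)) : Continuous fun θ : ℝ => Vt h (z, θ) := by
  rw [← continuousOn_univ]
  exact (Vt_contDiffOn hs K hK).continuousOn.comp (f := fun θ : ℝ => (z, θ)) (by fun_prop)
    fun θ _ => mk_mem_prod hz (mem_univ θ)

private theorem fd_eq {h : C2 → ℝ} (hs : SmoothSupp h) (K : Body) (hK : pts K = wulff h) {z : ℂ}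
    (hz : z ∈ interior (sh1 K)) (θ : ℝ) (e : ℂ) :
    (fderiv ℝ (Phi K) (z, θ)).comp (ContinuousLinearMap.inl ℝ ℂ ℝ) e =
      -(inner ℝ (Vt h (z, θ)) e : ℝ) := by
  rw [(Phi_hasFDerivAt hs K hK hz θ).fderiv]
  simp

theorem gradient_cf {h : C2 → ℝ} (hs : SmoothSupp h) (K : Body) (hK : pts K = wulff h) {z : ℂ}
    (hz : z ∈ interior (sh1 K)) :
    HasGradientAt (cf K) (-((2 * Real.pi)⁻¹ • ∫ θ in (0 : ℝ)..(2 * Real.pi), Vt h (z, θ))) z := by
  rw [hasGradientAt_iff_hasFDerivAt]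
  have h1 : ContDiffOn ℝ 1 (Phi K) (interior (sh1 K) ×ˢ (univ : Set ℝ)) :=
    (Phi_per hs K hK).smooth.of_le (by norm_num)
  have h2 := (par_hasFDerivAt isOpen_interior h1 (fun _ => 1) continuous_const 0
    (2 * Real.pi) hz).const_mul (2 * Real.pi)⁻¹
  rw [← cf_eq'] at h2
  refine h2.congr_fderiv ?_
  have hc := Vt_slice hs K hK hz
  have h3 : Continuous fun θ : ℝ => (1 : ℝ) • (fderiv ℝ (Phi K) (z, θ)).comp
      (ContinuousLinearMap.inl ℝ ℂ ℝ) := by
    have h4 : ContinuousOn (fun p => (fderiv ℝ (Phi K) p).comp (ContinuousLinearMap.inl ℝ ℂ ℝ))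
        (interior (sh1 K) ×ˢ (univ : Set ℝ)) :=
      (h1.continuousOn_fderiv_of_isOpen (isOpen_interior.prod isOpen_univ) le_rfl).clm_comp
        continuousOn_const
    rw [← continuousOn_univ]
    simp only [one_smul]
    exact h4.comp (f := fun θ : ℝ => (z, θ)) (by fun_prop) fun θ _ => mk_mem_prod hz (mem_univ θ)
  apply ContinuousLinearMap.ext
  intro e
  rw [InnerProductSpace.toDual_apply_apply, smul_apply,
    ContinuousLinearMap.intervalIntegral_apply (h3.intervalIntegrable _ _)]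
  have h5 : ∫ θ in (0 : ℝ)..(2 * Real.pi), ((1 : ℝ) • (fderiv ℝ (Phi K) (z, θ)).comp
      (ContinuousLinearMap.inl ℝ ℂ ℝ)) e =
      -∫ θ in (0 : ℝ)..(2 * Real.pi), (innerSL ℝ e) (Vt h (z, θ)) := by
    rw [← intervalIntegral.integral_neg]
    apply intervalIntegral.integral_congr
    intro θ _
    simp only [one_smul]
    rw [fd_eq hs K hK hz θ e, innerSL_apply_apply, real_inner_comm]
  rw [h5, ContinuousLinearMap.intervalIntegral_comp_comm (innerSL ℝ e)
    (hc.intervalIntegrable _ _), innerSL_apply_apply, inner_neg_left, inner_smul_left,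
    real_inner_comm]
  simp
  ring

private theorem cs_aux (m V : ℂ) :
    1 + (inner ℝ m V : ℝ) ≤ Real.sqrt (1 + ‖m‖ ^ 2) * Real.sqrt (1 + ‖V‖ ^ 2) := by
  rw [← Real.sqrt_mul (by positivity)]
  refine (le_trans ?_ (Real.abs_le_sqrt (x := 1 + ‖m‖ * ‖V‖) ?_))
  · rw [abs_of_nonneg (by positivity)]
    have := real_inner_le_norm m V
    linarith
  · nlinarith [sq_nonneg (‖m‖ - ‖V‖)]

theorem jensen_cf {h : C2 → ℝ} (hs : SmoothSupp h) (K : Body) (hK : pts K = wulff h) {z : ℂ}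
    (hz : z ∈ interior (sh1 K)) :
    Real.sqrt (1 + ‖gradient (cf K) z‖ ^ 2) - 1 ≤
      (2 * Real.pi)⁻¹ * ∫ θ in (0 : ℝ)..(2 * Real.pi), (Real.sqrt (1 + ‖Vt h (z, θ)‖ ^ 2) - 1) := by
  have hc := Vt_slice hs K hK hz
  have hpi : 0 < 2 * Real.pi := by positivity
  set m : ℂ := (2 * Real.pi)⁻¹ • ∫ θ in (0 : ℝ)..(2 * Real.pi), Vt h (z, θ) with hm
  have hg : gradient (cf K) z = -m := (gradient_cf hs K hK hz).gradient
  rw [hg, norm_neg]
  set S : ℝ := Real.sqrt (1 + ‖m‖ ^ 2) with hS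
  have hS0 : 0 < S := Real.sqrt_pos.2 (by positivity)
  have hS2 : S * S = 1 + ‖m‖ ^ 2 := Real.mul_self_sqrt (by positivity)
  have hr : Continuous fun θ : ℝ => Real.sqrt (1 + ‖Vt h (z, θ)‖ ^ 2) :=
    (continuous_const.add (hc.norm.pow 2)).sqrt
  have hi : Continuous fun θ : ℝ => (innerSL ℝ m) (Vt h (z, θ)) := (innerSL ℝ m).continuous.comp hc
  have h1 : ∫ θ in (0 : ℝ)..(2 * Real.pi), (1 + (innerSL ℝ m) (Vt h (z, θ))) ≤
      ∫ θ in (0 : ℝ)..(2 * Real.pi), S * Real.sqrt (1 + ‖Vt h (z, θ)‖ ^ 2) := by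
    apply intervalIntegral.integral_mono_on hpi.le
      ((continuous_const.add hi).intervalIntegrable _ _)
      ((continuous_const.mul hr).intervalIntegrable _ _)
    intro θ _
    exact cs_aux m (Vt h (z, θ))
  rw [intervalIntegral.integral_add (intervalIntegrable_const) (hi.intervalIntegrable _ _),
    ContinuousLinearMap.intervalIntegral_comp_comm (innerSL ℝ m) (hc.intervalIntegrable _ _),
    innerSL_apply_apply, intervalIntegral.integral_const, intervalIntegral.integral_const_mul] at h1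
  have h2 : ∫ θ in (0 : ℝ)..(2 * Real.pi), Vt h (z, θ) = (2 * Real.pi) • m := by
    rw [hm, smul_smul, mul_inv_cancel₀ hpi.ne', one_smul]
  rw [h2, inner_smul_right, real_inner_self_eq_norm_sq] at h1
  rw [intervalIntegral.integral_sub (hr.intervalIntegrable _ _) intervalIntegrable_const,
    intervalIntegral.integral_const]
  set I : ℝ := ∫ θ in (0 : ℝ)..(2 * Real.pi), Real.sqrt (1 + ‖Vt h (z, θ)‖ ^ 2) with hI
  have h3 : (2 * Real.pi) * (S * S) ≤ S * I := by
    rw [hS2]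
    simp only [sub_zero, smul_eq_mul, mul_one] at h1
    linarith
  have h4 : (2 * Real.pi) * S ≤ I := by
    have h5 : S * ((2 * Real.pi) * S) ≤ S * I := by linarith
    exact le_of_mul_le_mul_left h5 hS0
  have h6 : S ≤ (2 * Real.pi)⁻¹ * I := by
    rw [inv_mul_eq_div, le_div_iff₀ hpi]
    linarith
  have h7 : (2 * Real.pi)⁻¹ * (I - (2 * Real.pi - 0) • (1 : ℝ)) = (2 * Real.pi)⁻¹ * I - 1 := by
    rw [sub_zero, smul_eq_mul, mul_one, mul_sub, inv_mul_cancel₀ hpi.ne']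
  rw [h7]
  linarith

end Pool.Agent.HAS.T
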