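import Pool.Agent.HAS.T.TDefs

/-!
# HAS-Tm: the functions `t33 h`, `ttt h`, `tP h`

Measurability, homogeneity, positivity and bounds, from the facts on the Newton tensor in HVM.
-/

set_option autoImplicit false

namespace Pool.Agent.HAS.T

open MeasureTheory Metric Set Filter Topology
open Pool.Agent.Helper85.Herm Pool.Agent.Helper85.Cap Pool.Agent.HVM

/-- the quadratic form of the Newton tensor at `X w` -/
private noncomputable def qf (h : C2 → ℝ) (X : C2 → C2) (w : C2) : ℝ :=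
  inner ℝ (TH h w (X w)) (X w)

private theorem qf_measurable {h : C2 → ℝ} (hs : SmoothSupp h) {X : C2 → C2} (hX : Continuous X) :
    Measurable (qf h X) := by
  refine measurable_of_continuousOn_compl_singleton (0 : C2) ?_
  exact ((TH_continuousOn hs).clm_apply hX.continuousOn).inner hX.continuousOn

private theorem qf_smul {h : C2 → ℝ} (hs : SmoothSupp h) {X : C2 → C2}
    (hX : ∀ (c : ℝ) (w : C2), X (c • w) = c • X w) (c : ℝ) (w : C2) (hc : 0 < c) (hw : w ≠ 0) :
    qf h X (c • w) = qf h X w := by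
  unfold qf
  rw [sphn_TH_smul hs c w hc hw, hX, _root_.map_smul, _root_.smul_apply,
    inner_smul_left, inner_smul_left, inner_smul_right]
  have hc0 : c ≠ 0 := hc.ne'
  simp only [conj_trivial]
  field_simp

private theorem qf_nonneg {h : C2 → ℝ} (hs : SmoothSupp h) {X : C2 → C2} (h0 : X 0 = 0) (w : C2) :
    0 ≤ qf h X w := by
  unfold qf
  by_cases hw : w = 0
  · rw [hw, h0, inner_zero_right]
  · exact NT_psd (hs.pk hw) _

private theorem qf_le {h : C2 → ℝ} (hs : SmoothSupp h) {X : C2 → C2} {w : C2} (hw : w ≠ 0) :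
    qf h X w ≤ s2 (hess h w) * ‖X w‖ ^ 2 :=
  NT_le (hs.pk hw) _

private theorem mk0_cont : Continuous fun w : C2 => mk 0 (Complex.I * p2 w) :=
  continuous_mk.comp (continuous_const.prodMk (continuous_const.mul continuous_p2))

private theorem mkt_cont : Continuous fun w : C2 => mk (Complex.I * p1 w) 0 :=
  continuous_mk.comp ((continuous_const.mul continuous_p1).prodMk continuous_const)

private theorem iq_cont : Continuous (Iq : C2 → C2) := by
  have e : (Iq : C2 → C2) = fun w => mk (-(starRingEnd ℂ) (p2 w)) ((starRingEnd ℂ) (p1 w)) :=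
    funext Iq_eq_mk
  rw [e]
  exact continuous_mk.comp ((Complex.continuous_conj.comp continuous_p2).neg.prodMk
    (Complex.continuous_conj.comp continuous_p1))

private theorem kq_cont : Continuous (Kq : C2 → C2) := by
  have e : (Kq : C2 → C2) = fun w => mk (-(Complex.I * (starRingEnd ℂ) (p2 w)))
      (Complex.I * (starRingEnd ℂ) (p1 w)) := funext Kq_eq_mk
  rw [e]
  exact continuous_mk.comp
    ((continuous_const.mul (Complex.continuous_conj.comp continuous_p2)).neg.prodMk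
    (continuous_const.mul (Complex.continuous_conj.comp continuous_p1)))

private theorem mk0_smul (c : ℝ) (w : C2) :
    mk 0 (Complex.I * p2 (c • w)) = c • mk 0 (Complex.I * p2 w) := by
  rw [mk_smul, p2_smul, smul_zero, mul_smul_comm]

private theorem mkt_smul (c : ℝ) (w : C2) :
    mk (Complex.I * p1 (c • w)) 0 = c • mk (Complex.I * p1 w) 0 := by
  rw [mk_smul, p1_smul, smul_zero, mul_smul_comm]

private theorem iq_smul (c : ℝ) (w : C2) : Iq (c • w) = c • Iq w := by
  ext i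
  fin_cases i <;> simp [Iq]

private theorem kq_smul (c : ℝ) (w : C2) : Kq (c • w) = c • Kq w := by
  ext i
  fin_cases i <;> simp [Kq]

private theorem zero_of_smul {X : C2 → C2} (hX : ∀ (c : ℝ) (w : C2), X (c • w) = c • X w) :
    X 0 = 0 := by
  have := hX 0 0
  rwa [smul_zero, zero_smul] at this

private theorem norm_iq (w : C2) : ‖Iq w‖ ^ 2 = ‖w‖ ^ 2 := by
  rw [Iq_eq_mk, norm_mk_sq, norm_neg, Complex.norm_conj, Complex.norm_conj, norm_sq_p w, add_comm]

private theorem norm_kq (w : C2) : ‖Kq w‖ ^ 2 = ‖w‖ ^ 2 := by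
  rw [Kq_eq_mk, norm_mk_sq, norm_neg, norm_I_mul, norm_I_mul, Complex.norm_conj,
    Complex.norm_conj, norm_sq_p w, add_comm]

private theorem t33_eq (h : C2 → ℝ) (w : C2) :
    t33 h w = qf h (fun w => mk 0 (Complex.I * p2 w)) w / ‖p2 w‖ ^ 2 := rfl

private theorem ttt_eq (h : C2 → ℝ) (w : C2) :
    ttt h w = qf h (fun w => mk (Complex.I * p1 w) 0) w / ‖p1 w‖ ^ 2 := rfl

private theorem tP_eq (h : C2 → ℝ) (w : C2) : tP h w = qf h Iq w + qf h Kq w := rfl

theorem t33_measurable {h : C2 → ℝ} (hs : SmoothSupp h) : Measurable (t33 h) :=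
  (qf_measurable hs mk0_cont).div ((continuous_p2.norm.pow 2).measurable)

theorem ttt_measurable {h : C2 → ℝ} (hs : SmoothSupp h) : Measurable (ttt h) :=
  (qf_measurable hs mkt_cont).div ((continuous_p1.norm.pow 2).measurable)

theorem tP_measurable {h : C2 → ℝ} (hs : SmoothSupp h) : Measurable (tP h) :=
  (qf_measurable hs iq_cont).add (qf_measurable hs kq_cont)

theorem t33_smul {h : C2 → ℝ} (hs : SmoothSupp h) (c : ℝ) (w : C2) (hc : 0 < c) (hw : w ≠ 0) :
    t33 h (c • w) = c ^ (-2 : ℤ) * t33 h w := by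
  rw [t33_eq, t33_eq, qf_smul hs mk0_smul c w hc hw, p2_smul, norm_smul, Real.norm_eq_abs,
    abs_of_pos hc, zpow_neg, mul_pow]
  have e : c ^ (2 : ℤ) = c ^ 2 := by norm_cast
  rw [e, div_mul_eq_div_div, div_right_comm, inv_mul_eq_div]

theorem ttt_smul {h : C2 → ℝ} (hs : SmoothSupp h) (c : ℝ) (w : C2) (hc : 0 < c) (hw : w ≠ 0) :
    ttt h (c • w) = c ^ (-2 : ℤ) * ttt h w := by
  rw [ttt_eq, ttt_eq, qf_smul hs mkt_smul c w hc hw, p1_smul, norm_smul, Real.norm_eq_abs,
    abs_of_pos hc, zpow_neg, mul_pow]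
  have e : c ^ (2 : ℤ) = c ^ 2 := by norm_cast
  rw [e, div_mul_eq_div_div, div_right_comm, inv_mul_eq_div]

theorem tP_smul {h : C2 → ℝ} (hs : SmoothSupp h) (c : ℝ) (w : C2) (hc : 0 < c) (hw : w ≠ 0) :
    tP h (c • w) = tP h w := by
  rw [tP_eq, tP_eq, qf_smul hs iq_smul c w hc hw, qf_smul hs kq_smul c w hc hw]

theorem t33_nonneg {h : C2 → ℝ} (hs : SmoothSupp h) (w : C2) : 0 ≤ t33 h w := by
  rw [t33_eq]
  exact div_nonneg (qf_nonneg hs (zero_of_smul mk0_smul) w) (sq_nonneg _)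

theorem ttt_nonneg {h : C2 → ℝ} (hs : SmoothSupp h) (w : C2) : 0 ≤ ttt h w := by
  rw [ttt_eq]
  exact div_nonneg (qf_nonneg hs (zero_of_smul mkt_smul) w) (sq_nonneg _)

theorem tP_nonneg {h : C2 → ℝ} (hs : SmoothSupp h) (w : C2) : 0 ≤ tP h w := by
  rw [tP_eq]
  exact add_nonneg (qf_nonneg hs (zero_of_smul iq_smul) w)
    (qf_nonneg hs (zero_of_smul kq_smul) w)

private theorem div_bound {q a s C : ℝ} (hq : q ≤ s * a) (ha : 0 ≤ a) (hs : s ≤ C) (hC : 0 ≤ C) :
    q / a ≤ C := by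
  rcases ha.eq_or_lt with h | h
  · rw [← h, div_zero]
    exact hC
  · rw [div_le_iff₀ h]
    exact hq.trans (mul_le_mul_of_nonneg_right hs ha)

theorem exists_bound {h : C2 → ℝ} (hs : SmoothSupp h) : ∃ C : ℝ, 0 ≤ C ∧ ∀ n : C2, ‖n‖ = 1 →
    t33 h n ≤ C ∧ ttt h n ≤ C ∧ tP h n ≤ C ∧ |s2 (hess h n)| ≤ C := by
  have hsub : sphere (0 : C2) 1 ⊆ {0}ᶜ := by
    intro n hn h0
    rw [mem_sphere_zero_iff_norm] at hn
    rw [mem_singleton_iff] at h0
    rw [h0, norm_zero] at hn
    exact zero_ne_one hn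
  obtain ⟨C, hC⟩ := (isCompact_sphere (0 : C2) 1).exists_bound_of_continuousOn
    ((s2_continuousOn hs).mono hsub)
  have hC0 : 0 ≤ max C 0 := le_max_right _ _
  refine ⟨2 * max C 0, by positivity, fun n hn => ?_⟩
  have hn0 : n ≠ 0 := by
    intro h0
    rw [h0, norm_zero] at hn
    exact zero_ne_one hn
  have hb : |s2 (hess h n)| ≤ max C 0 :=
    (hC n (mem_sphere_zero_iff_norm.2 hn)).trans (le_max_left _ _)
  have hb1 : s2 (hess h n) ≤ max C 0 := (le_abs_self _).trans hb
  have hb2 : s2 (hess h n) ≤ 2 * max C 0 := by linarith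
  have h2 : 0 ≤ 2 * max C 0 := by positivity
  refine ⟨?_, ?_, ?_, by linarith⟩
  · rw [t33_eq]
    refine div_bound (s := s2 (hess h n)) ?_ (sq_nonneg _) hb2 h2
    have h3 := qf_le hs (X := fun w => mk 0 (Complex.I * p2 w)) hn0
    rwa [norm_mk_sq, norm_zero, norm_I_mul, zero_pow (by norm_num), zero_add] at h3
  · rw [ttt_eq]
    refine div_bound (s := s2 (hess h n)) ?_ (sq_nonneg _) hb2 h2
    have h3 := qf_le hs (X := fun w => mk (Complex.I * p1 w) 0) hn0
    rwa [norm_mk_sq, norm_zero, norm_I_mul, zero_pow (by norm_num), add_zero] at h3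
  · rw [tP_eq]
    have h3 := qf_le hs (X := Iq) hn0
    have h4 := qf_le hs (X := Kq) hn0
    rw [norm_iq, hn, one_pow, mul_one] at h3
    rw [norm_kq, hn, one_pow, mul_one] at h4
    linarith

end Pool.Agent.HAS.T
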