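import Pool.Agent.HAS.T.Sae
import Pool.Agent.HAS.T.Tm
import Pool.Agent.HAS.T.AlgT

/-!
# HAS-FSm: `F` and `V2 - F` of a smooth body, the shadow inequality on the sphere

From `HVM.G_smooth`, `HVM.V2_smooth`, `NT_quat`, `T_J`, `T_trace` and `sph_ae_mono`.
-/

set_option autoImplicit false

namespace Pool.Agent.HAS.T

open MeasureTheory Metric Set Filter Topology
open Pool.Agent.Helper85.Herm Pool.Agent.Helper85.Cap Pool.Agent.HVM

private theorem V2_sub_F (K : Body) : V2 K - F K = 4 * Mu J K - V2 K := by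
  unfold V2 F muab
  ring

/-- the density of `V2 - F` -/
private noncomputable def fJ (h : C2 → ℝ) (n : C2) : ℝ := inner ℝ (TH h n (J n)) (J n)

private theorem fJ_cont {h : C2 → ℝ} (hs : SmoothSupp h) : ContinuousOn (fJ h) {0}ᶜ := by
  have hJ : Continuous J := by
    have h1 := JL.continuous
    rw [JL_coe] at h1
    exact h1
  have h1 : ContinuousOn (fun n => TH h n (J n)) {0}ᶜ := (TH_continuousOn hs).clm_apply hJ.continuousOn
  exact h1.inner hJ.continuousOn

private theorem fJ_meas {h : C2 → ℝ} (hs : SmoothSupp h) : Measurable (fJ h) :=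
  measurable_of_continuousOn_compl_singleton 0 (fJ_cont hs)

private theorem ne_of_unit {n : C2} (hn : ‖n‖ = 1) : n ≠ 0 := by
  intro h
  rw [h, norm_zero] at hn
  exact zero_ne_one hn

private theorem fJ_eq {h : C2 → ℝ} (hs : SmoothSupp h) {n : C2} (hn : ‖n‖ = 1) :
    s2 (hess h n) - fJ h n = tP h n := by
  have h1 := NT_quat (hs.pk (ne_of_unit hn))
  rw [hn, one_pow, one_mul] at h1
  unfold fJ tP TH
  linarith

private theorem fJ_bdd {h : C2 → ℝ} (hs : SmoothSupp h) {C : ℝ} {n : C2} (hn : ‖n‖ = 1)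
    (hC : |s2 (hess h n)| ≤ C) : |fJ h n| ≤ C := by
  have h0 : 0 ≤ fJ h n := NT_psd (hs.pk (ne_of_unit hn)) (J n)
  rw [abs_of_nonneg h0]
  have h1 := fJ_eq hs hn
  have h2 := tP_nonneg hs n
  have h3 := le_abs_self (s2 (hess h n))
  linarith

theorem V2mF_smooth {h : C2 → ℝ} (hs : SmoothSupp h) (K : Body) (hK : pts K = wulff h) :
    2 * Real.pi * (V2 K - F K) = Sph (fun n => inner ℝ (TH h n (J n)) (J n)) := by
  have h1 := G_smooth hs K hK JL (by rw [JL_coe]; exact J_J)
  rw [JL_coe] at h1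
  rw [V2_sub_F]
  exact h1

theorem F_smooth {h : C2 → ℝ} (hs : SmoothSupp h) (K : Body) (hK : pts K = wulff h) :
    2 * Real.pi * F K = Sph (tP h) := by
  have h1 := V2mF_smooth hs K hK
  have h2 := V2_smooth hs K hK
  have h3 : Sph (tP h) = Sph (fun n => s2 (hess h n)) - Sph (fJ h) := by
    rw [← sph_sub _ _ (s2_continuousOn hs) (fJ_cont hs)]
    exact sph_congr _ _ fun n hn => (fJ_eq hs hn).symm
  have h4 : Sph (fJ h) = Sph (fun n => inner ℝ (TH h n (J n)) (J n)) := rfl
  rw [h3, h4, ← h1, ← h2]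
  ring

theorem sph_shadow {h : C2 → ℝ} (hs : SmoothSupp h) (K : Body) (hK : pts K = wulff h) :
    2 * Real.pi * (V2 K - F K) ≤ Sph (t33 h) + Sph (ttt h) ∧
      Sph (t33 h) + Sph (ttt h) ≤ 2 * Real.pi * V2 K := by
  obtain ⟨C, hC0, hC⟩ := exists_bound hs
  have b3 : ∀ n : C2, ‖n‖ = 1 → |t33 h n| ≤ C := fun n hn => by
    rw [abs_of_nonneg (t33_nonneg hs n)]
    exact (hC n hn).1
  have bt : ∀ n : C2, ‖n‖ = 1 → |ttt h n| ≤ C := fun n hn => by
    rw [abs_of_nonneg (ttt_nonneg hs n)]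
    exact (hC n hn).2.1
  have i3 := sph_integrable_of_bdd _ (t33_measurable hs) C b3
  have it := sph_integrable_of_bdd _ (ttt_measurable hs) C bt
  have hadd : Sph (fun n => t33 h n + ttt h n) = Sph (t33 h) + Sph (ttt h) := integral_add i3 it
  have hm : Measurable (fun n => t33 h n + ttt h n) := (t33_measurable hs).add (ttt_measurable hs)
  have hb : ∀ n : C2, ‖n‖ = 1 → |t33 h n + ttt h n| ≤ C + C := fun n hn =>
    le_trans (abs_add_le _ _) (add_le_add (b3 n hn) (bt n hn))
  have hsm : Measurable (fun n => s2 (hess h n)) :=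
    measurable_of_continuousOn_compl_singleton 0 (s2_continuousOn hs)
  rw [← hadd, V2mF_smooth hs K hK, V2_smooth hs K hK]
  constructor
  · refine sph_ae_mono _ _ (fJ_meas hs) hm (C + C) (fun n hn => ?_) hb (fun n hn h1 h2 => ?_)
    · exact le_trans (fJ_bdd hs hn (hC n hn).2.2.2) (by linarith)
    · have hpk := hs.pk (ne_of_unit hn)
      have h3 := T_J (T := TH h n) (NT_symm hpk) (NT_psd hpk) h1 h2
      rw [mk_p, hn, one_pow, one_mul] at h3
      unfold t33 ttt
      linarith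
  · refine sph_ae_mono _ _ hm hsm (C + C) hb (fun n hn => ?_) (fun n hn h1 h2 => ?_)
    · exact le_trans (hC n hn).2.2.2 (by linarith)
    · have hpk := hs.pk (ne_of_unit hn)
      have h3 := T_trace (T := TH h n) (NT_symm hpk) (NT_psd hpk) h1 h2 (s2 (hess h n))
        (by rw [mk_p]; exact NT_ker hpk) (s1_NT hpk)
      unfold t33 ttt
      linarith

end Pool.Agent.HAS.T
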