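import Pool.Agent.HAS.T.Mp

/-!
# HAS-Sf: integrals over the sphere of `ℂ²` in the coordinates `(v, θ)`
-/

set_option autoImplicit false

namespace Pool.Agent.HAS.T

open MeasureTheory Metric Set Filter Topology
open Pool.Agent.Helper85.Herm Pool.Agent.Helper85.Cap Pool.Agent.HVM

private theorem sf_rad {b : ℝ} (hb : 0 < b) :
    ∫ r in Ioi (0 : ℝ), r * Real.exp (-b * r ^ 2) = 1 / (2 * b) := by
  have h1 := integral_rpow_mul_exp_neg_mul_rpow (p := 2) (q := 1) (b := b) (by norm_num)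
    (by norm_num) hb
  have e1 : ((1 : ℝ) + 1) / 2 = 1 := by norm_num
  have e2 : -((1 : ℝ) + 1) / 2 = -1 := by norm_num
  rw [e1, e2, Real.Gamma_one, mul_one, Real.rpow_neg_one] at h1
  have h2 : ∫ r in Ioi (0 : ℝ), r * Real.exp (-b * r ^ 2) =
      ∫ x in Ioi (0 : ℝ), x ^ (1 : ℝ) * Real.exp (-b * x ^ (2 : ℝ)) := by
    refine setIntegral_congr_fun measurableSet_Ioi fun x _ => ?_
    simp only [Real.rpow_one, Real.rpow_two]
  rw [h2, h1]
  field_simp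

private theorem sf_lrad {b : ℝ} (hb : 0 < b) :
    ∫⁻ r in Ioi (0 : ℝ), ENNReal.ofReal (r * Real.exp (-b * r ^ 2)) =
      ENNReal.ofReal (1 / (2 * b)) := by
  rw [← sf_rad hb, ofReal_integral_eq_lintegral_ofReal]
  · exact (integrable_mul_exp_neg_mul_sq hb).integrableOn
  · refine (ae_restrict_mem measurableSet_Ioi).mono fun x hx => ?_
    have hx0 : (0 : ℝ) < x := hx
    exact mul_nonneg hx0.le (Real.exp_pos _).le

private theorem sf_smul {ρ : ℝ} (hρ : 0 < ρ) (H : ℂ → ENNReal) (hH : Measurable H) :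
    ∫⁻ v : ℂ, H v = ENNReal.ofReal (ρ ^ 2) * ∫⁻ v : ℂ, H (ρ • v) := by
  have h1 := Measure.map_addHaar_smul (volume : Measure ℂ) hρ.ne'
  rw [Complex.finrank_real_complex] at h1
  have h2 : ∫⁻ v : ℂ, H (ρ • v) = ∫⁻ v, H v ∂(Measure.map (fun v : ℂ => ρ • v) volume) :=
    (lintegral_map hH (measurable_const_smul ρ)).symm
  rw [h2, h1, lintegral_smul_measure, smul_eq_mul, ← mul_assoc, ← ENNReal.ofReal_mul (by positivity),
    abs_of_pos (by positivity), mul_inv_cancel₀ (by positivity), ENNReal.ofReal_one, one_mul]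

private theorem sf_A (f : C2 → ℝ) (hm : Measurable f)
    (hh : ∀ (c : ℝ) (w : C2), 0 < c → w ≠ 0 → f (c • w) = c ^ (-2 : ℤ) * f w)
    (h0 : ∀ w, 0 ≤ f w) (C : ℝ) (hC : ∀ n : C2, ‖n‖ = 1 → f n ≤ C) :
    ∫⁻ w : C2, ENNReal.ofReal (Real.exp (-‖w‖ ^ 2) * f w) = ENNReal.ofReal (1 / 2 * Sph f) := by
  have hr : ∫ r in Ioi (0 : ℝ), Real.exp (-r ^ 2) * r ^ ((-2 : ℤ) + 3) = 1 / 2 := by
    have h1 := sf_rad (b := 1) one_pos
    rw [mul_one] at h1
    rw [← h1]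
    refine setIntegral_congr_fun measurableSet_Ioi fun x _ => ?_
    have e1 : ((-2 : ℤ) + 3) = 1 := by norm_num
    rw [e1, zpow_one, neg_one_mul, mul_comm]
  have hI0 : Integrable fun w : C2 => Real.exp (-‖w‖ ^ 2) * (‖w‖ ^ 2)⁻¹ := by
    by_contra hno
    have h1 := integral_undef hno
    have h2 := polar (fun w : C2 => (‖w‖ ^ 2)⁻¹) (-2) (fun c w hc _ => by
      rw [norm_smul, Real.norm_of_nonneg hc.le, mul_pow, mul_inv, zpow_neg]
      norm_cast) (fun r => Real.exp (-r ^ 2))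
    have h3 : 0 < Sph (fun w : C2 => (‖w‖ ^ 2)⁻¹) := by
      refine sph_pos _ ?_ fun n hn => ?_
      · refine ContinuousOn.inv₀ (by fun_prop) fun w hw => ?_
        have h4 : w ≠ 0 := hw
        positivity
      · rw [hn]
        norm_num
    rw [hr] at h2
    have h4 : (0 : ℝ) = 1 / 2 * Sph (fun w : C2 => (‖w‖ ^ 2)⁻¹) := h1.symm.trans h2
    linarith
  have hI : Integrable fun w : C2 => Real.exp (-‖w‖ ^ 2) * f w := by
    refine Integrable.mono' (hI0.const_mul C) ?_ ?_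
    · have h1 : Measurable fun w : C2 => Real.exp (-‖w‖ ^ 2) := by fun_prop
      exact (h1.mul hm).aestronglyMeasurable
    · have h1 : ∀ᵐ w : C2, w ≠ 0 := compl_mem_ae_iff.2 (measure_singleton (0 : C2))
      filter_upwards [h1] with w hw
      have hw0 : 0 < ‖w‖ := norm_pos_iff.2 hw
      have h2 : f w ≤ C * (‖w‖ ^ 2)⁻¹ := by
        have h3 : f w = ‖w‖ ^ (-2 : ℤ) * f (‖w‖⁻¹ • w) := by
          rw [← hh _ _ hw0 (smul_ne_zero (inv_ne_zero hw0.ne') hw), smul_smul,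
            mul_inv_cancel₀ hw0.ne', one_smul]
        have h4 : ‖‖w‖⁻¹ • w‖ = 1 := by
          rw [norm_smul, norm_inv, norm_norm, inv_mul_cancel₀ hw0.ne']
        have h5 : ‖w‖ ^ (-2 : ℤ) = (‖w‖ ^ 2)⁻¹ := by
          rw [zpow_neg]
          norm_cast
        rw [h3, h5, mul_comm C]
        exact mul_le_mul_of_nonneg_left (hC _ h4) (by positivity)
      rw [Real.norm_of_nonneg (mul_nonneg (Real.exp_pos _).le (h0 w))]
      have h6 := mul_le_mul_of_nonneg_left h2 (Real.exp_pos (-‖w‖ ^ 2)).le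
      linarith
  have h1 := polar f (-2) hh (fun r => Real.exp (-r ^ 2))
  rw [hr] at h1
  rw [← h1, ofReal_integral_eq_lintegral_ofReal hI]
  exact Filter.Eventually.of_forall fun w => mul_nonneg (Real.exp_pos _).le (h0 w)

/-- the integrand -/
private noncomputable def sfK (f : C2 → ℝ) (θ : ℝ) (v : ℂ) (ρ : ℝ) : ENNReal :=
  ENNReal.ofReal (ρ * Real.exp (-(1 + ‖v‖ ^ 2) * ρ ^ 2)) * ENNReal.ofReal (f (mk v (ee θ)))

private theorem sfK_meas (f : C2 → ℝ) (hm : Measurable f) :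
    Measurable fun q : ℝ × ℂ × ℝ => sfK f q.1 q.2.1 q.2.2 := by
  unfold sfK
  have h1 : Continuous fun q : ℝ × ℂ × ℝ => mk q.2.1 (ee q.1) :=
    continuous_mk.comp ((continuous_snd.fst).prodMk ((contDiff_ee (n := 0)).continuous.comp continuous_fst))
  have h2 : Measurable fun q : ℝ × ℂ × ℝ => f (mk q.2.1 (ee q.1)) := hm.comp h1.measurable
  have h3 : Measurable fun q : ℝ × ℂ × ℝ => q.2.2 * Real.exp (-(1 + ‖q.2.1‖ ^ 2) * q.2.2 ^ 2) := by
    fun_prop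
  exact h3.ennreal_ofReal.mul h2.ennreal_ofReal

private theorem sfK_meas_a (f : C2 → ℝ) (hm : Measurable f) :
    Measurable fun p : ℝ × ℝ => ∫⁻ v : ℂ, sfK f p.2 v p.1 := by
  have h1 : Measurable fun q : (ℝ × ℝ) × ℂ => sfK f q.1.2 q.2 q.1.1 :=
    (sfK_meas f hm).comp (g := fun q : ℝ × ℂ × ℝ => sfK f q.1 q.2.1 q.2.2)
      (f := fun q : (ℝ × ℝ) × ℂ => (q.1.2, q.2, q.1.1)) (by fun_prop)
  exact h1.lintegral_prod_right'

private theorem sfK_meas_b (f : C2 → ℝ) (hm : Measurable f) (θ : ℝ) :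
    Measurable (Function.uncurry fun (ρ : ℝ) (v : ℂ) => sfK f θ v ρ) :=
  (sfK_meas f hm).comp (g := fun q : ℝ × ℂ × ℝ => sfK f q.1 q.2.1 q.2.2)
      (f := fun q : ℝ × ℂ => (θ, q.2, q.1)) (by fun_prop)

private theorem sfK_meas_c (f : C2 → ℝ) (hm : Measurable f) :
    Measurable fun θ : ℝ => ∫⁻ v : ℂ, ENNReal.ofReal (f (mk v (ee θ)) / (1 + ‖v‖ ^ 2)) := by
  have h1 : Continuous fun q : ℝ × ℂ => mk q.2 (ee q.1) :=
    continuous_mk.comp (continuous_snd.prodMk ((contDiff_ee (n := 0)).continuous.comp continuous_fst))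
  have h2 : Measurable fun q : ℝ × ℂ => f (mk q.2 (ee q.1)) := hm.comp h1.measurable
  have h3 : Measurable fun q : ℝ × ℂ => 1 + ‖q.2‖ ^ 2 := by fun_prop
  exact (h2.div h3).ennreal_ofReal.lintegral_prod_right'

private theorem sf_fib (f : C2 → ℝ) (hm : Measurable f)
    (hh : ∀ (c : ℝ) (w : C2), 0 < c → w ≠ 0 → f (c • w) = c ^ (-2 : ℤ) * f w) {ρ : ℝ} (hρ : 0 < ρ)
    (θ : ℝ) :
    ENNReal.ofReal ρ • ∫⁻ v : ℂ, ENNReal.ofReal (Real.exp (-‖mk v (Complex.polarCoord.symm (ρ, θ))‖ ^ 2) *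
      f (mk v (Complex.polarCoord.symm (ρ, θ)))) = ∫⁻ v : ℂ, sfK f θ v ρ := by
  have e1 : Complex.polarCoord.symm (ρ, θ) = ρ • ee θ := by
    rw [Complex.polarCoord_symm_apply]
    apply Complex.ext <;> simp [ee, -Complex.ofReal_cos, -Complex.ofReal_sin]
  rw [e1]
  have hmm : Measurable fun v : ℂ => ENNReal.ofReal (Real.exp (-‖mk v (ρ • ee θ)‖ ^ 2) *
      f (mk v (ρ • ee θ))) := by
    have h1 : Continuous fun v : ℂ => mk v (ρ • ee θ) :=
      continuous_mk.comp (continuous_id.prodMk continuous_const)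
    have h2 : Measurable fun v : ℂ => f (mk v (ρ • ee θ)) := hm.comp h1.measurable
    have h3 : Measurable fun v : ℂ => Real.exp (-‖mk v (ρ • ee θ)‖ ^ 2) :=
      (Real.continuous_exp.comp (h1.norm.pow 2).neg).measurable
    exact (h3.mul h2).ennreal_ofReal
  rw [sf_smul hρ _ hmm, smul_eq_mul, ← mul_assoc, ← ENNReal.ofReal_mul hρ.le,
    ← lintegral_const_mul' _ _ ENNReal.ofReal_ne_top]
  refine lintegral_congr fun v => ?_
  have e2 : mk (ρ • v) (ρ • ee θ) = ρ • mk v (ee θ) := (mk_smul _ _ _).symm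
  have e3 : ‖ρ • mk v (ee θ)‖ ^ 2 = (1 + ‖v‖ ^ 2) * ρ ^ 2 := by
    rw [norm_smul, mul_pow, norm_mk_sq, norm_ee, Real.norm_of_nonneg hρ.le]
    ring
  rw [e2, e3, hh ρ _ hρ (mk_ne_zero v (ee_ne θ))]
  unfold sfK
  have e4 : ρ ^ (-2 : ℤ) = (ρ ^ 2)⁻¹ := by
    rw [zpow_neg]
    norm_cast
  rw [e4, ← ENNReal.ofReal_mul (by positivity), ← ENNReal.ofReal_mul (by positivity)]
  congr 1
  have hρ' := hρ.ne'
  field_simp

/-- the coordinates `(v, θ)` of the sphere, for nonnegative functions of degree `-2` -/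
theorem sph_eq (f : C2 → ℝ) (hm : Measurable f)
    (hh : ∀ (c : ℝ) (w : C2), 0 < c → w ≠ 0 → f (c • w) = c ^ (-2 : ℤ) * f w)
    (h0 : ∀ w, 0 ≤ f w) (C : ℝ) (hC : ∀ n : C2, ‖n‖ = 1 → f n ≤ C) :
    ENNReal.ofReal (Sph f) = ∫⁻ θ in Ioc (0 : ℝ) (2 * Real.pi), ∫⁻ v : ℂ,
      ENNReal.ofReal (f (mk v (ee θ)) / (1 + ‖v‖ ^ 2)) := by
  have hFm : Measurable fun w : C2 => ENNReal.ofReal (Real.exp (-‖w‖ ^ 2) * f w) := by
    have h1 : Measurable fun w : C2 => Real.exp (-‖w‖ ^ 2) := by fun_prop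
    exact (h1.mul hm).ennreal_ofReal
  have hA := sf_A f hm hh h0 C hC
  have hB : ∫⁻ w : C2, ENNReal.ofReal (Real.exp (-‖w‖ ^ 2) * f w) =
      ENNReal.ofReal (1 / 2) * ∫⁻ θ in Ioo (-Real.pi) Real.pi, ∫⁻ v : ℂ,
        ENNReal.ofReal (f (mk v (ee θ)) / (1 + ‖v‖ ^ 2)) := by
    rw [lint_C2 _ hFm]
    have e1 : ∫⁻ y : ℂ, ∫⁻ v : ℂ, ENNReal.ofReal (Real.exp (-‖mk v y‖ ^ 2) * f (mk v y)) =
        ∫⁻ p in polarCoord.target, ENNReal.ofReal p.1 •
          ∫⁻ v : ℂ, ENNReal.ofReal (Real.exp (-‖mk v (Complex.polarCoord.symm p)‖ ^ 2) *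
            f (mk v (Complex.polarCoord.symm p))) :=
      (Complex.lintegral_comp_polarCoord_symm (fun y : ℂ =>
        ∫⁻ v : ℂ, ENNReal.ofReal (Real.exp (-‖mk v y‖ ^ 2) * f (mk v y)))).symm
    rw [e1]
    have e2 : ∫⁻ p in polarCoord.target, ENNReal.ofReal p.1 •
          ∫⁻ v : ℂ, ENNReal.ofReal (Real.exp (-‖mk v (Complex.polarCoord.symm p)‖ ^ 2) *
            f (mk v (Complex.polarCoord.symm p))) =
        ∫⁻ p in polarCoord.target, ∫⁻ v : ℂ, sfK f p.2 v p.1 := by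
      refine setLIntegral_congr_fun polarCoord.open_target.measurableSet ?_
      intro p hp
      rw [polarCoord_target] at hp
      exact sf_fib f hm hh hp.1 p.2
    rw [e2, polarCoord_target, Measure.volume_eq_prod, ← Measure.prod_restrict,
      lintegral_prod_symm _ (sfK_meas_a f hm).aemeasurable, ← lintegral_const_mul _ (sfK_meas_c f hm)]
    refine lintegral_congr fun θ => ?_
    have e3 : ∫⁻ ρ in Ioi (0 : ℝ), ∫⁻ v : ℂ, sfK f θ v ρ =
        ∫⁻ v : ℂ, ∫⁻ ρ in Ioi (0 : ℝ), sfK f θ v ρ :=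
      lintegral_lintegral_swap (sfK_meas_b f hm θ).aemeasurable
    show ∫⁻ ρ in Ioi (0 : ℝ), ∫⁻ v : ℂ, sfK f θ v ρ = _
    rw [e3, ← lintegral_const_mul' _ _ ENNReal.ofReal_ne_top]
    refine lintegral_congr fun v => ?_
    unfold sfK
    have hb : 0 < 1 + ‖v‖ ^ 2 := by positivity
    rw [lintegral_mul_const _ (by fun_prop), sf_lrad hb, ← ENNReal.ofReal_mul (by positivity),
      ← ENNReal.ofReal_mul (by positivity)]
    congr 1
    field_simp
  have hC2 : ∫⁻ θ in Ioo (-Real.pi) Real.pi, ∫⁻ v : ℂ,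
        ENNReal.ofReal (f (mk v (ee θ)) / (1 + ‖v‖ ^ 2)) =
      ∫⁻ θ in Ioc (0 : ℝ) (2 * Real.pi), ∫⁻ v : ℂ,
        ENNReal.ofReal (f (mk v (ee θ)) / (1 + ‖v‖ ^ 2)) := by
    rw [restrict_Ioo_eq_restrict_Ioc]
    have hT : 0 < 2 * Real.pi := by positivity
    have h1 := isAddFundamentalDomain_Ioc hT (-Real.pi) volume
    have h2 := isAddFundamentalDomain_Ioc hT 0 volume
    have e1 : -Real.pi + 2 * Real.pi = Real.pi := by ring
    rw [e1] at h1
    rw [zero_add] at h2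
    refine h1.setLIntegral_eq h2 _ ?_
    rintro ⟨g, hg⟩ x
    obtain ⟨m, rfl⟩ := AddSubgroup.mem_zmultiples_iff.1 hg
    have e2 : ee ((⟨m • (2 * Real.pi), hg⟩ : AddSubgroup.zmultiples (2 * Real.pi)) +ᵥ x) = ee x := by
      have e3 : ((⟨m • (2 * Real.pi), hg⟩ : AddSubgroup.zmultiples (2 * Real.pi)) +ᵥ x) =
          x + m * (2 * Real.pi) := by
        show m • (2 * Real.pi) + x = _
        rw [zsmul_eq_mul, add_comm]
      rw [e3]
      apply Complex.ext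
      · exact Real.cos_add_int_mul_two_pi x m
      · exact Real.sin_add_int_mul_two_pi x m
    rw [e2]
  rw [hA, ← hC2, one_div] at *
  have h2 : ENNReal.ofReal ((2 : ℝ)⁻¹ * Sph f) = ENNReal.ofReal (2 : ℝ)⁻¹ * ENNReal.ofReal (Sph f) :=
    ENNReal.ofReal_mul (by norm_num)
  rw [h2] at hB
  have h3 : ENNReal.ofReal (2 : ℝ)⁻¹ ≠ 0 := by
    rw [Ne, ENNReal.ofReal_eq_zero, not_le]
    norm_num
  exact (ENNReal.mul_right_inj h3 ENNReal.ofReal_ne_top).1 hB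

end Pool.Agent.HAS.T
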