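import Pool.Agent.HAS.T.NP
import Pool.Agent.HAS.T.Sf
import Pool.Agent.HAS.T.FSm

/-!
# HAS-Chg: change of variables `v → z`; the area of the shadow; the formula for `F`
-/

set_option autoImplicit false

namespace Pool.Agent.HAS.T

open MeasureTheory Metric Set Filter Topology
open Pool.Agent.Helper85.Herm Pool.Agent.Helper85.Cap Pool.Agent.HVM

theorem zmD_det_pos {h : C2 → ℝ} (hs : SmoothSupp h) {y : ℂ} (hy : y ≠ 0) (v : ℂ) :
    0 < (zmD h y v).det := by
  rw [zmD_det hs hy]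
  exact det_pos hs hy v

theorem cov {h : C2 → ℝ} (hs : SmoothSupp h) (K : Body) (hK : pts K = wulff h) {y : ℂ} (hy : y ≠ 0)
    (f : ℂ → ENNReal) :
    ∫⁻ v : ℂ, ENNReal.ofReal ((zmD h y v).det) * f (zm h y v) = ∫⁻ z in interior (sh1 K), f z := by
  have himg : zm h y '' univ = interior (sh1 K) := by
    ext z
    rw [image_univ]
    constructor
    · rintro ⟨v, rfl⟩
      exact zm_mem hs K hK hy v
    · intro hz
      exact zm_surj hs K hK hy hz
  have h1 := lintegral_image_eq_lintegral_abs_det_fderiv_mul (volume : Measure ℂ)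
    (MeasurableSet.univ) (f := zm h y) (f' := fun v => zmD h y v)
    (fun v _ => (zm_hasFDerivAt hs hy v).hasFDerivWithinAt)
    ((zm_injective hs hy).injOn) f
  rw [himg, Measure.restrict_univ] at h1
  rw [h1]
  refine lintegral_congr fun v => ?_
  rw [abs_of_pos (zmD_det_pos hs hy v)]

private theorem sh1_convex (K : Body) : Convex ℝ (sh1 K) := by
  have h1 : sh1 K = p1L.toLinearMap '' (K : Set C2) := rfl
  rw [h1]
  exact K.convex.linear_image _

theorem sh1_null (K : Body) : volume (interior (sh1 K)) = volume (sh1 K) :=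
  measure_interior_of_null_frontier ((sh1_convex K).addHaar_frontier volume)

theorem area_sh1 {h : C2 → ℝ} (hs : SmoothSupp h) (K : Body) (hK : pts K = wulff h) :
    Sph (t33 h) = 2 * Real.pi * (volume (sh1 K)).toReal := by
  obtain ⟨C, _, hC⟩ := exists_bound hs
  have h1 := sph_eq (t33 h) (t33_measurable hs) (fun c w hc hw => t33_smul hs c w hc hw)
    (t33_nonneg hs) C (fun n hn => (hC n hn).1)
  have h2 : ∀ θ : ℝ, ∫⁻ v : ℂ, ENNReal.ofReal (t33 h (mk v (ee θ)) / (1 + ‖v‖ ^ 2)) =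
      volume (sh1 K) := by
    intro θ
    have h3 := cov hs K hK (ee_ne θ) (fun _ => 1)
    rw [lintegral_one, Measure.restrict_apply_univ, sh1_null] at h3
    rw [← h3]
    refine lintegral_congr fun v => ?_
    rw [mul_one, t33_mk hs, mul_div_assoc, mul_comm, div_mul_cancel₀]
    positivity
  simp only [h2] at h1
  rw [lintegral_const, Measure.restrict_apply_univ, Real.volume_Ioc, sub_zero] at h1
  have h4 : 0 ≤ Sph (t33 h) := integral_nonneg fun n => t33_nonneg hs n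
  have h5 := congrArg ENNReal.toReal h1
  rw [ENNReal.toReal_ofReal h4, ENNReal.toReal_mul, ENNReal.toReal_ofReal (by positivity)] at h5
  rw [h5, mul_comm]

theorem F_formula {h : C2 → ℝ} (hs : SmoothSupp h) (K : Body) (hK : pts K = wulff h) :
    ENNReal.ofReal (2 * Real.pi * F K) = ∫⁻ θ in Ioc (0 : ℝ) (2 * Real.pi),
      ∫⁻ z in interior (sh1 K), ENNReal.ofReal (Nf (Phi K) (z, θ) /
        (1 + (dx (Phi K) (z, θ) ^ 2 + dy (Phi K) (z, θ) ^ 2))) := by
  obtain ⟨C, _, hC⟩ := exists_bound hs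
  have h0 : Sph (tP h) = Sph (fun w => tP h w / ‖w‖ ^ 2) := by
    unfold Sph
    refine integral_congr_ae (Filter.Eventually.of_forall fun n => ?_)
    have hn : ‖(n : C2)‖ = 1 := by simp
    show tP h n = tP h n / ‖(n : C2)‖ ^ 2
    rw [hn, one_pow, div_one]
  have h1 := sph_eq (fun w => tP h w / ‖w‖ ^ 2)
    ((tP_measurable hs).div (measurable_norm.pow_const 2))
    (fun c w hc hw => by
      show tP h (c • w) / ‖c • w‖ ^ 2 = c ^ (-2 : ℤ) * (tP h w / ‖w‖ ^ 2)
      rw [tP_smul hs c w hc hw, norm_smul, Real.norm_of_nonneg hc.le, mul_pow, zpow_neg]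
      have hw' : ‖w‖ ≠ 0 := norm_ne_zero_iff.2 hw
      have hc' : c ^ (2 : ℤ) = c ^ 2 := by norm_cast
      rw [hc']
      field_simp)
    (fun w => div_nonneg (tP_nonneg hs w) (sq_nonneg _)) C (fun n hn => by
      show tP h n / ‖n‖ ^ 2 ≤ C
      rw [hn, one_pow, div_one]
      exact (hC n hn).2.2.1)
  rw [F_smooth hs K hK, h0, h1]
  refine lintegral_congr fun θ => ?_
  rw [← cov hs K hK (ee_ne θ)]
  refine lintegral_congr fun v => ?_
  have hV : Vt h (zm h (ee θ) v, θ) = v := Vt_zm hs θ v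
  obtain ⟨hx, hy⟩ := dx_Phi hs K hK (zm_mem hs K hK (ee_ne θ) v) θ
  have h3 : dx (Phi K) (zm h (ee θ) v, θ) ^ 2 + dy (Phi K) (zm h (ee θ) v, θ) ^ 2 = ‖v‖ ^ 2 := by
    rw [hx, hy, hV, ← real_inner_self_eq_norm_sq, inner_c]
    ring
  rw [← ENNReal.ofReal_mul (zmD_det_pos hs (ee_ne θ) v).le, h3]
  congr 1
  show tP h (mk v (ee θ)) / ‖mk v (ee θ)‖ ^ 2 / (1 + ‖v‖ ^ 2) = _
  rw [tP_mk hs K hK, norm_mk_sq, norm_ee]
  have h4 : (1 : ℝ) + ‖v‖ ^ 2 ≠ 0 := by positivity
  have h5 : ‖v‖ ^ 2 + 1 ^ 2 = 1 + ‖v‖ ^ 2 := by ring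
  rw [h5]
  field_simp

end Pool.Agent.HAS.T
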