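import Pool.Agent.HAS.Defs

/-!
# HAS block D, module Crd: coordinates of `ℂ²`
-/

set_option autoImplicit false

namespace Pool.Agent.HAS.T

open MeasureTheory Metric Set
open Pool.Agent.Helper85.Herm Pool.Agent.Helper85.Cap Pool.Agent.HVM

theorem p1_mk (v y : ℂ) : p1 (mk v y) = v := by
  simp [p1, mk]

theorem p2_mk (v y : ℂ) : p2 (mk v y) = y := by
  simp [p2, mk]

theorem mk_p (w : C2) : mk (p1 w) (p2 w) = w := by
  ext i
  fin_cases i <;> simp [p1, p2, mk]

theorem mk_add (v y v' y' : ℂ) : mk v y + mk v' y' = mk (v + v') (y + y') := by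
  ext i
  fin_cases i <;> simp [mk]

theorem mk_sub (v y v' y' : ℂ) : mk v y - mk v' y' = mk (v - v') (y - y') := by
  ext i
  fin_cases i <;> simp [mk]

theorem mk_smul (c : ℝ) (v y : ℂ) : c • mk v y = mk (c • v) (c • y) := by
  ext i
  fin_cases i <;> simp [mk]

theorem mk_neg (v y : ℂ) : -mk v y = mk (-v) (-y) := by
  ext i
  fin_cases i <;> simp [mk]

theorem mk_zero : mk 0 0 = 0 := by
  ext i
  fin_cases i <;> simp [mk]

theorem p1_add (x y : C2) : p1 (x + y) = p1 x + p1 y := by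
  apply Complex.ext <;> simp [p1]

theorem p2_add (x y : C2) : p2 (x + y) = p2 x + p2 y := by
  apply Complex.ext <;> simp [p2]

theorem p1_smul (c : ℝ) (x : C2) : p1 (c • x) = c • p1 x := by
  apply Complex.ext <;> simp [p1]

theorem p2_smul (c : ℝ) (x : C2) : p2 (c • x) = c • p2 x := by
  apply Complex.ext <;> simp [p2]

theorem inner_c (a b : ℂ) : (inner ℝ a b : ℝ) = a.re * b.re + a.im * b.im := by
  rw [Complex.inner, Complex.mul_re, Complex.conj_re, Complex.conj_im]
  ring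

theorem inner_mk (v y v' y' : ℂ) :
    (inner ℝ (mk v y) (mk v' y') : ℝ) = inner ℝ v v' + inner ℝ y y' := by
  rw [AlgB.inner_four, inner_c, inner_c]
  simp [mk]
  ring

theorem inner_mk_right (x : C2) (v y : ℂ) :
    (inner ℝ x (mk v y) : ℝ) = inner ℝ (p1 x) v + inner ℝ (p2 x) y := by
  conv_lhs => rw [← mk_p x]
  exact inner_mk _ _ _ _

theorem norm_mk_sq (v y : ℂ) : ‖mk v y‖ ^ 2 = ‖v‖ ^ 2 + ‖y‖ ^ 2 := by
  rw [← real_inner_self_eq_norm_sq, inner_mk, real_inner_self_eq_norm_sq,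
    real_inner_self_eq_norm_sq]

theorem norm_sq_p (w : C2) : ‖w‖ ^ 2 = ‖p1 w‖ ^ 2 + ‖p2 w‖ ^ 2 := by
  conv_lhs => rw [← mk_p w]
  exact norm_mk_sq _ _

theorem J_mk (v y : ℂ) : J (mk v y) = mk (Complex.I * v) (Complex.I * y) := by
  ext i
  fin_cases i <;> simp [mk, J]

theorem Iq_mk (v y : ℂ) :
    Iq (mk v y) = mk (-(starRingEnd ℂ) y) ((starRingEnd ℂ) v) := by
  ext i
  fin_cases i <;> simp [mk, Iq]

theorem Kq_mk (v y : ℂ) :
    Kq (mk v y) = mk (-(Complex.I * (starRingEnd ℂ) y)) (Complex.I * (starRingEnd ℂ) v) := by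
  ext i
  fin_cases i <;> simp [mk, Kq]

theorem mk_ne_zero (v : ℂ) {y : ℂ} (hy : y ≠ 0) : mk v y ≠ 0 := by
  intro h
  apply hy
  rw [← p2_mk v y, h]
  apply Complex.ext <;> simp [p2]

theorem mk_ne_zero' {v : ℂ} (hv : v ≠ 0) (y : ℂ) : mk v y ≠ 0 := by
  intro h
  apply hv
  rw [← p1_mk v y, h]
  apply Complex.ext <;> simp [p1]

/-- `p1` as a continuous linear map -/
noncomputable def p1L : C2 →L[ℝ] ℂ :=
  LinearMap.toContinuousLinearMap
    { toFun := p1
      map_add' := p1_add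
      map_smul' := p1_smul }

/-- `p2` as a continuous linear map -/
noncomputable def p2L : C2 →L[ℝ] ℂ :=
  LinearMap.toContinuousLinearMap
    { toFun := p2
      map_add' := p2_add
      map_smul' := p2_smul }

theorem p1L_apply (w : C2) : p1L w = p1 w := rfl

theorem p2L_apply (w : C2) : p2L w = p2 w := rfl

/-- `v ↦ (v, 0)` -/
noncomputable def i1L : ℂ →L[ℝ] C2 :=
  LinearMap.toContinuousLinearMap
    { toFun := fun v => mk v 0
      map_add' := fun v v' => by rw [mk_add, add_zero]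
      map_smul' := fun c v => by rw [RingHom.id_apply, mk_smul, smul_zero] }

/-- `y ↦ (0, y)` -/
noncomputable def i2L : ℂ →L[ℝ] C2 :=
  LinearMap.toContinuousLinearMap
    { toFun := fun y => mk 0 y
      map_add' := fun v v' => by rw [mk_add, add_zero]
      map_smul' := fun c v => by rw [RingHom.id_apply, mk_smul, smul_zero] }

theorem i1L_apply (v : ℂ) : i1L v = mk v 0 := rfl

theorem i2L_apply (y : ℂ) : i2L y = mk 0 y := rfl

theorem mk_eq (v y : ℂ) : mk v y = i1L v + i2L y := by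
  rw [i1L_apply, i2L_apply, mk_add, add_zero, zero_add]

theorem continuous_p1 : Continuous p1 := p1L.continuous

theorem continuous_p2 : Continuous p2 := p2L.continuous

theorem contDiff_mk {n : WithTop ℕ∞} : ContDiff ℝ n (fun p : ℂ × ℂ => mk p.1 p.2) := by
  have h : (fun p : ℂ × ℂ => mk p.1 p.2) = fun p => i1L p.1 + i2L p.2 := by
    funext p
    exact mk_eq _ _
  rw [h]
  exact (i1L.contDiff.comp contDiff_fst).add (i2L.contDiff.comp contDiff_snd)

theorem continuous_mk : Continuous (fun p : ℂ × ℂ => mk p.1 p.2) :=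
  (contDiff_mk (n := 0)).continuous

theorem norm_ee (θ : ℝ) : ‖ee θ‖ = 1 := by
  have h : ‖ee θ‖ ^ 2 = 1 := by
    rw [← real_inner_self_eq_norm_sq, inner_c]
    have := Real.sin_sq_add_cos_sq θ
    simp only [ee]
    nlinarith
  have h2 : (0 : ℝ) ≤ ‖ee θ‖ := norm_nonneg _
  nlinarith

theorem ee_ne (θ : ℝ) : ee θ ≠ 0 := by
  intro h
  have := norm_ee θ
  rw [h, norm_zero] at this
  exact zero_ne_one this

theorem hasDerivAt_ee (θ : ℝ) : HasDerivAt ee (Complex.I * ee θ) θ := by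
  have h : ee = fun t : ℝ => (Real.cos t : ℂ) + (Real.sin t : ℂ) * Complex.I := by
    funext t
    apply Complex.ext <;> simp [ee, -Complex.ofReal_cos, -Complex.ofReal_sin]
  have h1 : HasDerivAt (fun t : ℝ => (Real.cos t : ℂ)) ((-Real.sin θ : ℝ) : ℂ) θ :=
    (Real.hasDerivAt_cos θ).ofReal_comp
  have h2 : HasDerivAt (fun t : ℝ => (Real.sin t : ℂ)) ((Real.cos θ : ℝ) : ℂ) θ :=
    (Real.hasDerivAt_sin θ).ofReal_comp
  have h3 := h1.add (h2.mul_const Complex.I)
  rw [h]
  refine h3.congr_deriv ?_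
  apply Complex.ext <;> simp

theorem contDiff_ee {n : WithTop ℕ∞} : ContDiff ℝ n ee := by
  have h : ee = fun t : ℝ => Real.cos t • (1 : ℂ) + Real.sin t • Complex.I := by
    funext t
    apply Complex.ext <;> simp [ee, -Complex.ofReal_cos, -Complex.ofReal_sin]
  rw [h]
  exact (Real.contDiff_cos.smul contDiff_const).add (Real.contDiff_sin.smul contDiff_const)

theorem ee_periodic (θ : ℝ) : ee (θ + 2 * Real.pi) = ee θ := by
  apply Complex.ext <;> simp [ee]

theorem inner_I_self (a : ℂ) : (inner ℝ a (Complex.I * a) : ℝ) = 0 := by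
  rw [inner_c]
  simp
  ring

theorem norm_I_mul (a : ℂ) : ‖Complex.I * a‖ = ‖a‖ := by
  rw [norm_mul, Complex.norm_I, one_mul]

theorem J_eq_mk (w : C2) : J w = mk (Complex.I * p1 w) (Complex.I * p2 w) := by
  conv_lhs => rw [← mk_p w]
  exact J_mk _ _

theorem Iq_eq_mk (w : C2) :
    Iq w = mk (-(starRingEnd ℂ) (p2 w)) ((starRingEnd ℂ) (p1 w)) := by
  conv_lhs => rw [← mk_p w]
  exact Iq_mk _ _

theorem Kq_eq_mk (w : C2) : Kq w =
    mk (-(Complex.I * (starRingEnd ℂ) (p2 w))) (Complex.I * (starRingEnd ℂ) (p1 w)) := by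
  conv_lhs => rw [← mk_p w]
  exact Kq_mk _ _

end Pool.Agent.HAS.T
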