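import Pool.Agent.HAS.T.TDefs

/-!
# HAS-Dif: calculus of `dx`, `dy`, `dt` on `Ω × ℝ` (Mathlib only)
-/

set_option autoImplicit false

namespace Pool.Agent.HAS.T

open MeasureTheory Metric Set Filter Topology
open Pool.Agent.Helper85.Herm Pool.Agent.Helper85.Cap Pool.Agent.HVM

private theorem isOpen_strip {Ω : Set ℂ} (hΩ : IsOpen Ω) : IsOpen (Ω ×ˢ (univ : Set ℝ)) :=
  hΩ.prod isOpen_univ

private theorem de_contDiffOn {S : Set (ℂ × ℝ)} (hS : IsOpen S) {m n : WithTop ℕ∞} {Φ : ℂ × ℝ → ℝ}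
    (hΦ : ContDiffOn ℝ n Φ S) (hmn : m + 1 ≤ n) (e : ℂ × ℝ) :
    ContDiffOn ℝ m (fun p => fderiv ℝ Φ p e) S :=
  (hΦ.fderiv_of_isOpen hS hmn).clm_apply contDiffOn_const

theorem dx_contDiffOn {Ω : Set ℂ} (hΩ : IsOpen Ω) (n : ℕ) {Φ : ℂ × ℝ → ℝ}
    (hΦ : ContDiffOn ℝ (n + 1 : ℕ) Φ (Ω ×ˢ (univ : Set ℝ))) : ContDiffOn ℝ n (dx Φ) (Ω ×ˢ (univ : Set ℝ)) :=
  de_contDiffOn (isOpen_strip hΩ) hΦ (by push_cast; exact le_rfl) _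

theorem dy_contDiffOn {Ω : Set ℂ} (hΩ : IsOpen Ω) (n : ℕ) {Φ : ℂ × ℝ → ℝ}
    (hΦ : ContDiffOn ℝ (n + 1 : ℕ) Φ (Ω ×ˢ (univ : Set ℝ))) : ContDiffOn ℝ n (dy Φ) (Ω ×ˢ (univ : Set ℝ)) :=
  de_contDiffOn (isOpen_strip hΩ) hΦ (by push_cast; exact le_rfl) _

theorem dt_contDiffOn {Ω : Set ℂ} (hΩ : IsOpen Ω) (n : ℕ) {Φ : ℂ × ℝ → ℝ}
    (hΦ : ContDiffOn ℝ (n + 1 : ℕ) Φ (Ω ×ˢ (univ : Set ℝ))) : ContDiffOn ℝ n (dt Φ) (Ω ×ˢ (univ : Set ℝ)) :=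
  de_contDiffOn (isOpen_strip hΩ) hΦ (by push_cast; exact le_rfl) _

private theorem mem_strip {Ω : Set ℂ} {p : ℂ × ℝ} (hp : p.1 ∈ Ω) : p ∈ Ω ×ˢ (univ : Set ℝ) :=
  ⟨hp, mem_univ _⟩

private theorem comm_e {Ω : Set ℂ} (hΩ : IsOpen Ω) {Φ : ℂ × ℝ → ℝ}
    (hΦ : ContDiffOn ℝ 2 Φ (Ω ×ˢ (univ : Set ℝ))) {p : ℂ × ℝ} (hp : p.1 ∈ Ω) (e e' : ℂ × ℝ) :
    fderiv ℝ (fun q => fderiv ℝ Φ q e) p e' = fderiv ℝ (fun q => fderiv ℝ Φ q e') p e := by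
  have hc : ContDiffAt ℝ 2 Φ p :=
    hΦ.contDiffAt ((isOpen_strip hΩ).mem_nhds (mem_strip hp))
  have hd : DifferentiableAt ℝ (fderiv ℝ Φ) p :=
    (hc.fderiv_right (m := 1) (by norm_num)).differentiableAt (by norm_num)
  have hsymm : IsSymmSndFDerivAt ℝ Φ p := hc.isSymmSndFDerivAt (by simp)
  have h1 : ∀ a b : ℂ × ℝ, fderiv ℝ (fun q => fderiv ℝ Φ q a) p b = fderiv ℝ (fderiv ℝ Φ) p b a := by
    intro a b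
    have h2 := hd.hasFDerivAt.clm_apply (hasFDerivAt_const a p)
    rw [h2.fderiv]
    simp
  rw [h1, h1]
  exact hsymm.eq e' e

theorem comm_xt {Ω : Set ℂ} (hΩ : IsOpen Ω) {Φ : ℂ × ℝ → ℝ} (hΦ : ContDiffOn ℝ 2 Φ (Ω ×ˢ (univ : Set ℝ)))
    {p : ℂ × ℝ} (hp : p.1 ∈ Ω) : dx (dt Φ) p = dt (dx Φ) p :=
  comm_e hΩ hΦ hp _ _

theorem comm_yt {Ω : Set ℂ} (hΩ : IsOpen Ω) {Φ : ℂ × ℝ → ℝ} (hΦ : ContDiffOn ℝ 2 Φ (Ω ×ˢ (univ : Set ℝ)))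
    {p : ℂ × ℝ} (hp : p.1 ∈ Ω) : dy (dt Φ) p = dt (dy Φ) p :=
  comm_e hΩ hΦ hp _ _

theorem comm_xy {Ω : Set ℂ} (hΩ : IsOpen Ω) {Φ : ℂ × ℝ → ℝ} (hΦ : ContDiffOn ℝ 2 Φ (Ω ×ˢ (univ : Set ℝ)))
    {p : ℂ × ℝ} (hp : p.1 ∈ Ω) : dx (dy Φ) p = dy (dx Φ) p :=
  comm_e hΩ hΦ hp _ _

theorem per_d {Φ : ℂ × ℝ → ℝ} (hΦ : ∀ (z : ℂ) (θ : ℝ), Φ (z, θ + 2 * Real.pi) = Φ (z, θ)) (z : ℂ) (θ : ℝ) :
    dx Φ (z, θ + 2 * Real.pi) = dx Φ (z, θ) ∧ dy Φ (z, θ + 2 * Real.pi) = dy Φ (z, θ) ∧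
      dt Φ (z, θ + 2 * Real.pi) = dt Φ (z, θ) := by
  have h1 : (fun p : ℂ × ℝ => Φ (p + (0, 2 * Real.pi))) = Φ := by
    funext p
    obtain ⟨z, t⟩ := p
    simpa using hΦ z t
  have h2 : fderiv ℝ Φ (z, θ + 2 * Real.pi) = fderiv ℝ Φ (z, θ) := by
    have h3 := fderiv_comp_add_right (𝕜 := ℝ) (f := Φ) (x := (z, θ)) ((0 : ℂ), 2 * Real.pi)
    rw [h1] at h3
    rw [h3]
    simp
  simp only [dx, dy, dt, h2, and_self]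

theorem hasDerivAt_t {Ω : Set ℂ} (hΩ : IsOpen Ω) {Φ : ℂ × ℝ → ℝ} (hΦ : ContDiffOn ℝ 1 Φ (Ω ×ˢ (univ : Set ℝ)))
    {z : ℂ} (hz : z ∈ Ω) (θ : ℝ) : HasDerivAt (fun t => Φ (z, t)) (dt Φ (z, θ)) θ := by
  have hd : DifferentiableAt ℝ Φ (z, θ) :=
    (hΦ.contDiffAt ((isOpen_strip hΩ).mem_nhds (mem_strip hz))).differentiableAt (by norm_num)
  have h1 : HasDerivAt (fun t : ℝ => ((z, t) : ℂ × ℝ)) ((0 : ℂ), (1 : ℝ)) θ :=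
    (hasDerivAt_const θ z).prodMk (hasDerivAt_id θ)
  exact hd.hasFDerivAt.comp_hasDerivAt θ h1

theorem hasFDerivAt_z {Ω : Set ℂ} (hΩ : IsOpen Ω) {Φ : ℂ × ℝ → ℝ} (hΦ : ContDiffOn ℝ 1 Φ (Ω ×ˢ (univ : Set ℝ)))
    {z : ℂ} (hz : z ∈ Ω) (θ : ℝ) (e : ℂ) :
    DifferentiableAt ℝ (fun z' => Φ (z', θ)) z ∧
      fderiv ℝ (fun z' => Φ (z', θ)) z e = fderiv ℝ Φ (z, θ) (e, 0) := by
  have hd : DifferentiableAt ℝ Φ (z, θ) :=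
    (hΦ.contDiffAt ((isOpen_strip hΩ).mem_nhds (mem_strip hz))).differentiableAt (by norm_num)
  have h1 : HasFDerivAt (fun z' : ℂ => ((z', θ) : ℂ × ℝ))
      ((ContinuousLinearMap.id ℝ ℂ).prod (0 : ℂ →L[ℝ] ℝ)) z :=
    (hasFDerivAt_id z).prodMk (hasFDerivAt_const θ z)
  have h2 := HasFDerivAt.comp z (f := fun z' : ℂ => ((z', θ) : ℂ × ℝ)) (g := Φ) hd.hasFDerivAt h1
  have h3 : HasFDerivAt (fun z' => Φ (z', θ))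
      ((fderiv ℝ Φ (z, θ)).comp ((ContinuousLinearMap.id ℝ ℂ).prod (0 : ℂ →L[ℝ] ℝ))) z := h2
  refine ⟨h3.differentiableAt, ?_⟩
  rw [h3.fderiv]
  simp

private theorem de_congr {Ω : Set ℂ} (hΩ : IsOpen Ω) {f g : ℂ × ℝ → ℝ}
    (h : ∀ q : ℂ × ℝ, q.1 ∈ Ω → f q = g q) {p : ℂ × ℝ} (hp : p.1 ∈ Ω) (e : ℂ × ℝ) :
    fderiv ℝ f p e = fderiv ℝ g p e := by
  have : f =ᶠ[𝓝 p] g := by
    filter_upwards [(isOpen_strip hΩ).mem_nhds (mem_strip hp)] with q hq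
    exact h q hq.1
  rw [this.fderiv_eq]

/-- third derivatives: the Laplacian commutes with `dt` -/
theorem comm_lap {Ω : Set ℂ} (hΩ : IsOpen Ω) {Φ : ℂ × ℝ → ℝ} (hΦ : ContDiffOn ℝ 3 Φ (Ω ×ˢ (univ : Set ℝ)))
    {p : ℂ × ℝ} (hp : p.1 ∈ Ω) :
    dt (fun q => dx (dx Φ) q + dy (dy Φ) q) p = dx (dx (dt Φ)) p + dy (dy (dt Φ)) p := by
  have hx : ContDiffOn ℝ 2 (dx Φ) (Ω ×ˢ (univ : Set ℝ)) := by
    have := dx_contDiffOn hΩ 2 (Φ := Φ) (by norm_num; exact hΦ)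
    exact_mod_cast this
  have hy : ContDiffOn ℝ 2 (dy Φ) (Ω ×ˢ (univ : Set ℝ)) := by
    have := dy_contDiffOn hΩ 2 (Φ := Φ) (by norm_num; exact hΦ)
    exact_mod_cast this
  have hxx : ContDiffOn ℝ 1 (dx (dx Φ)) (Ω ×ˢ (univ : Set ℝ)) := by
    have := dx_contDiffOn hΩ 1 (Φ := dx Φ) (by norm_num; exact hx)
    exact_mod_cast this
  have hyy : ContDiffOn ℝ 1 (dy (dy Φ)) (Ω ×ˢ (univ : Set ℝ)) := by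
    have := dy_contDiffOn hΩ 1 (Φ := dy Φ) (by norm_num; exact hy)
    exact_mod_cast this
  have hΦ2 : ContDiffOn ℝ 2 Φ (Ω ×ˢ (univ : Set ℝ)) := hΦ.of_le (by norm_num)
  have dxx : DifferentiableAt ℝ (dx (dx Φ)) p :=
    (hxx.contDiffAt ((isOpen_strip hΩ).mem_nhds (mem_strip hp))).differentiableAt (by norm_num)
  have dyy : DifferentiableAt ℝ (dy (dy Φ)) p :=
    (hyy.contDiffAt ((isOpen_strip hΩ).mem_nhds (mem_strip hp))).differentiableAt (by norm_num)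
  have h1 : dt (fun q => dx (dx Φ) q + dy (dy Φ) q) p = dt (dx (dx Φ)) p + dt (dy (dy Φ)) p := by
    unfold dt
    rw [fderiv_fun_add dxx dyy]
    rfl
  have h2 : dt (dx (dx Φ)) p = dx (dx (dt Φ)) p := by
    rw [← comm_xt hΩ hx hp]
    exact (de_congr hΩ (fun q hq => comm_xt hΩ hΦ2 hq) hp (1, 0)).symm
  have h3 : dt (dy (dy Φ)) p = dy (dy (dt Φ)) p := by
    rw [← comm_yt hΩ hy hp]
    exact (de_congr hΩ (fun q hq => comm_yt hΩ hΦ2 hq) hp (Complex.I, 0)).symm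
  rw [h1, h2, h3]

/-- the integrand is continuous -/
theorem Nf_continuousOn {Ω : Set ℂ} (hΩ : IsOpen Ω) {Φ : ℂ × ℝ → ℝ} (hΦ : ContDiffOn ℝ 2 Φ (Ω ×ˢ (univ : Set ℝ))) :
    ContinuousOn (Nf Φ) (Ω ×ˢ (univ : Set ℝ)) := by
  have h1 : ∀ e : ℂ × ℝ, ContDiffOn ℝ 1 (fun p => fderiv ℝ Φ p e) (Ω ×ˢ (univ : Set ℝ)) :=
    fun e => de_contDiffOn (isOpen_strip hΩ) hΦ (by norm_num) e
  have h2 : ∀ e e' : ℂ × ℝ, ContinuousOn (fun p => fderiv ℝ (fun q => fderiv ℝ Φ q e) p e')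
      (Ω ×ˢ (univ : Set ℝ)) :=
    fun e e' => (de_contDiffOn (m := 0) (isOpen_strip hΩ) (h1 e) (by norm_num) e').continuousOn
  have hx : ContinuousOn (dx Φ) (Ω ×ˢ (univ : Set ℝ)) := (h1 _).continuousOn
  have hy : ContinuousOn (dy Φ) (Ω ×ˢ (univ : Set ℝ)) := (h1 _).continuousOn
  have hxx : ContinuousOn (dx (dx Φ)) (Ω ×ˢ (univ : Set ℝ)) := h2 _ _
  have hyy : ContinuousOn (dy (dy Φ)) (Ω ×ˢ (univ : Set ℝ)) := h2 _ _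
  have htt : ContinuousOn (dt (dt Φ)) (Ω ×ˢ (univ : Set ℝ)) := h2 _ _
  have hxt : ContinuousOn (dx (dt Φ)) (Ω ×ˢ (univ : Set ℝ)) := h2 _ _
  have hyt : ContinuousOn (dy (dt Φ)) (Ω ×ˢ (univ : Set ℝ)) := h2 _ _
  exact (((hΦ.continuousOn.add htt).neg.mul (hxx.add hyy)).add
    (((hxt.add hy).pow 2).add ((hyt.sub hx).pow 2)))

end Pool.Agent.HAS.T
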