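import Pool.Agent.HAS.T.TDefs

/-!
# HAS-Ed1: the vector field `Us σ` and its divergence identity

Smoothness and homogeneity of `Us`, and the divergence theorem on the sphere.
-/

set_option autoImplicit false

namespace Pool.Agent.HAS.T

open MeasureTheory Metric Set Filter Topology
open Pool.Agent.Helper85.Herm Pool.Agent.Helper85.Cap Pool.Agent.HVM

theorem ys_pos {σ : ℝ} (hσ : 0 < σ) {w : C2} (hw : w ≠ 0) : 0 < ys σ w := by
  unfold ys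
  apply Real.sqrt_pos.2
  have h1 : 0 < ‖w‖ := norm_pos_iff.2 hw
  positivity

theorem Qs_nonneg (σ : ℝ) (w : C2) : 0 ≤ Qs σ w := by
  unfold Qs ys
  positivity

private theorem rad_contDiff (σ : ℝ) : ContDiff ℝ 1 (fun w : C2 => ‖p2 w‖ ^ 2 + σ ^ 2 * ‖w‖ ^ 2) := by
  have h1 : ContDiff ℝ 1 (fun w : C2 => ‖p2 w‖ ^ 2) := (contDiff_norm_sq ℝ).comp p2L.contDiff
  have h2 : ContDiff ℝ 1 (fun w : C2 => ‖w‖ ^ 2) := contDiff_norm_sq ℝ
  exact h1.add (contDiff_const.mul h2)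

private theorem ys_contDiffAt {σ : ℝ} (hσ : 0 < σ) {w : C2} (hw : w ≠ 0) : ContDiffAt ℝ 1 (ys σ) w := by
  have h : ContDiffAt ℝ 1 (fun w : C2 => Real.sqrt (‖p2 w‖ ^ 2 + σ ^ 2 * ‖w‖ ^ 2)) w := by
    refine (rad_contDiff σ).contDiffAt.sqrt ?_
    have h1 : 0 < ‖w‖ := norm_pos_iff.2 hw
    positivity
  exact h

theorem ys_contDiffOn {σ : ℝ} (hσ : 0 < σ) : ContDiffOn ℝ 1 (ys σ) {0}ᶜ := fun _ hw =>
  (ys_contDiffAt hσ hw).contDiffWithinAt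

private theorem Qs_contDiffAt {σ : ℝ} (hσ : 0 < σ) {w : C2} (hw : w ≠ 0) : ContDiffAt ℝ 1 (Qs σ) w := by
  have h1 := ys_contDiffAt hσ hw
  have h2 : ContDiffAt ℝ 1 (fun w : C2 => ‖w‖) w := contDiffAt_norm ℝ hw
  have h3 : ContDiffAt ℝ 1 (fun w : C2 => (ys σ w * (‖w‖ + ys σ w))⁻¹) w := by
    refine (h1.mul (h2.add h1)).inv ?_
    have h4 := ys_pos hσ hw
    have h5 : 0 < ‖w‖ := norm_pos_iff.2 hw
    positivity
  exact h3

theorem Qs_contDiffOn {σ : ℝ} (hσ : 0 < σ) : ContDiffOn ℝ 1 (Qs σ) {0}ᶜ := fun _ hw =>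
  (Qs_contDiffAt hσ hw).contDiffWithinAt

private theorem mkU_contDiff : ContDiff ℝ 1
    (fun w : C2 => mk ((‖p2 w‖ ^ 2 : ℝ) • p1 w) (-((‖p1 w‖ ^ 2 : ℝ) • p2 w))) := by
  have h1 : ContDiff ℝ 1 (fun w : C2 => ‖p2 w‖ ^ 2) := (contDiff_norm_sq ℝ).comp p2L.contDiff
  have h2 : ContDiff ℝ 1 (fun w : C2 => ‖p1 w‖ ^ 2) := (contDiff_norm_sq ℝ).comp p1L.contDiff
  have h3 : ContDiff ℝ 1 (fun w : C2 => p1 w) := p1L.contDiff
  have h4 : ContDiff ℝ 1 (fun w : C2 => p2 w) := p2L.contDiff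
  exact contDiff_mk.comp ((h1.smul h3).prodMk (h2.smul h4).neg)

theorem Us_contDiffOn {σ : ℝ} (hσ : 0 < σ) : ContDiffOn ℝ 1 (Us σ) {0}ᶜ := fun _ hw =>
  ((Qs_contDiffAt hσ hw).smul mkU_contDiff.contDiffAt).contDiffWithinAt

private theorem ys_smul (σ : ℝ) (c : ℝ) (w : C2) (hc : 0 < c) : ys σ (c • w) = c * ys σ w := by
  unfold ys
  rw [p2_smul, norm_smul, norm_smul, Real.norm_of_nonneg hc.le]
  have h : (c * ‖p2 w‖) ^ 2 + σ ^ 2 * (c * ‖w‖) ^ 2 = c ^ 2 * (‖p2 w‖ ^ 2 + σ ^ 2 * ‖w‖ ^ 2) := by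
    ring
  rw [h, Real.sqrt_mul (by positivity), Real.sqrt_sq hc.le]

theorem Qs_smul (σ : ℝ) (c : ℝ) (w : C2) (hc : 0 < c) : Qs σ (c • w) = c ^ (-2 : ℤ) * Qs σ w := by
  unfold Qs
  rw [ys_smul σ c w hc, norm_smul, Real.norm_of_nonneg hc.le]
  have h : c * ys σ w * (c * ‖w‖ + c * ys σ w) = c ^ 2 * (ys σ w * (‖w‖ + ys σ w)) := by ring
  rw [h, mul_inv, zpow_neg]
  norm_cast

theorem Us_smul (σ : ℝ) (c : ℝ) (w : C2) (hc : 0 < c) : Us σ (c • w) = c • Us σ w := by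
  unfold Us
  rw [Qs_smul σ c w hc, p1_smul, p2_smul, norm_smul, norm_smul, Real.norm_of_nonneg hc.le]
  have h1 : (((c * ‖p2 w‖) ^ 2 : ℝ) • (c • p1 w)) = (c ^ 3 : ℝ) • ((‖p2 w‖ ^ 2 : ℝ) • p1 w) := by
    rw [smul_smul, smul_smul]
    congr 1
    ring
  have h2 : (-(((c * ‖p1 w‖) ^ 2 : ℝ) • (c • p2 w))) = (c ^ 3 : ℝ) • (-((‖p1 w‖ ^ 2 : ℝ) • p2 w)) := by
    rw [smul_neg, smul_smul, smul_smul]
    congr 2
    ring
  rw [h1, h2, ← mk_smul, smul_smul, smul_smul]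
  congr 1
  have hc' : c ≠ 0 := hc.ne'
  rw [zpow_neg]
  norm_cast
  field_simp

theorem Us_inner (σ : ℝ) (w : C2) : inner ℝ (Us σ w) w = (0 : ℝ) := by
  unfold Us
  rw [real_inner_smul_left, real_inner_comm, inner_mk_right, real_inner_smul_right, inner_neg_right,
    real_inner_smul_right, real_inner_self_eq_norm_sq, real_inner_self_eq_norm_sq]
  ring

private theorem div_V {h : C2 → ℝ} (hs : SmoothSupp h) {σ : ℝ} (hσ : 0 < σ) {n : C2} (hn : n ≠ 0) :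
    s1 (fderiv ℝ (fun x => TH h x (Us σ x)) n) = s1 (TH h n ∘L fderiv ℝ (Us σ) n) := by
  have hopen : IsOpen ({0}ᶜ : Set C2) := isOpen_compl_singleton
  have hnm : ({0}ᶜ : Set C2) ∈ nhds n := hopen.mem_nhds hn
  have hTd : HasFDerivAt (TH h) (fderiv ℝ (TH h) n) n :=
    (((TH_contDiffOn h hs.smooth).contDiffAt hnm).differentiableAt (by simp)).hasFDerivAt
  have hUd : HasFDerivAt (Us σ) (fderiv ℝ (Us σ) n) n :=
    (((Us_contDiffOn hσ).contDiffAt hnm).differentiableAt (by simp)).hasFDerivAt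
  have h1 := hTd.clm_apply hUd
  have h2 : HasFDerivAt (fun x => (0 : C2 →L[ℝ] C2) x + Us σ n) (0 : C2 →L[ℝ] C2) n :=
    ((0 : C2 →L[ℝ] C2).hasFDerivAt).add_const (Us σ n)
  have h3 := hTd.clm_apply h2
  have h4 := div_TH h hs.smooth (0 : C2 →L[ℝ] C2) (Us σ n) n hn
  rw [h3.fderiv, sphn_s1_add] at h4
  have h5 : s1 (TH h n ∘L (0 : C2 →L[ℝ] C2)) = 0 := by simp [s1]
  rw [h5, zero_add] at h4
  rw [h1.fderiv, sphn_s1_add]
  have h6 : (0 : C2 →L[ℝ] C2) n + Us σ n = Us σ n := by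
    rw [zero_apply, zero_add]
  rw [h6] at h4
  rw [h4, add_zero]

theorem edge_div {h : C2 → ℝ} (hs : SmoothSupp h) {σ : ℝ} (hσ : 0 < σ) :
    Sph (fun n => s1 (TH h n ∘L fderiv ℝ (Us σ) n)) = 0 := by
  have hV : ContDiffOn ℝ 1 (fun x => TH h x (Us σ x)) {0}ᶜ :=
    (TH_contDiffOn h hs.smooth).clm_apply (Us_contDiffOn hσ)
  have hk : ∀ (c : ℝ) (w : C2), 0 < c → w ≠ 0 →
      (fun x => TH h x (Us σ x)) (c • w) = c ^ (-1 : ℤ) • (fun x => TH h x (Us σ x)) w := by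
    intro c w hc hw
    show TH h (c • w) (Us σ (c • w)) = c ^ (-1 : ℤ) • TH h w (Us σ w)
    rw [Us_smul σ c w hc, sphn_TH_smul hs c w hc hw, map_smul, smul_apply, smul_smul]
    congr 1
    have hc' : c ≠ 0 := hc.ne'
    rw [zpow_neg_one]
    field_simp
  have h1 := sph_div _ hV (-1) hk
  have h2 : Sph (fun n => inner ℝ ((fun x => TH h x (Us σ x)) n) n) = Sph (fun _ => 0) := by
    refine sph_congr _ _ fun n hn => ?_
    have hn0 : n ≠ 0 := by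
      rintro rfl
      simp at hn
    have hpk := hs.pk hn0
    show inner ℝ (TH h n (Us σ n)) n = 0
    rw [TH, NT_symm hpk, NT_ker hpk, real_inner_smul_right, Us_inner, mul_zero]
  have h3 : Sph (fun _ : C2 => (0 : ℝ)) = 0 := by simp [Sph]
  have h4 : Sph (fun n => s1 (fderiv ℝ (fun x => TH h x (Us σ x)) n)) =
      Sph (fun n => s1 (TH h n ∘L fderiv ℝ (Us σ) n)) := by
    refine sph_congr _ _ fun n hn => ?_
    have hn0 : n ≠ 0 := by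
      rintro rfl
      simp at hn
    exact div_V hs hσ hn0
  rw [← h4, h1, h2, h3, mul_zero]

end Pool.Agent.HAS.T
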