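import Pool.Agent.HAS.T.Ed1

/-!
# HAS-Ed2: the trace of `T ∘ DU` (linear algebra and calculus; imports Ed1; sorry there is fine)

The field is the product of the factor `Qs` and a cubic polynomial field; the trace is computed for both parts.
-/

set_option autoImplicit false

namespace Pool.Agent.HAS.T

open MeasureTheory Metric Set Filter Topology
open Pool.Agent.Helper85.Herm Pool.Agent.Helper85.Cap Pool.Agent.HVM

private theorem ed2_cx (v z : ℂ) :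
    (inner ℝ v z : ℝ) • v + (inner ℝ (Complex.I * v) z : ℝ) • (Complex.I * v) = (‖v‖ ^ 2 : ℝ) • z := by
  rw [inner_c, inner_c, Complex.sq_norm, Complex.normSq_apply]
  apply Complex.ext
  · simp
    ring
  · simp
    ring

private theorem ed2_in1 (v : ℂ) (x : C2) : (inner ℝ (mk v 0) x : ℝ) = inner ℝ v (p1 x) := by
  rw [real_inner_comm, inner_mk_right, inner_zero_right, add_zero, real_inner_comm]

private theorem ed2_in2 (y : ℂ) (x : C2) : (inner ℝ (mk 0 y) x : ℝ) = inner ℝ y (p2 x) := by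
  rw [real_inner_comm, inner_mk_right, inner_zero_right, zero_add, real_inner_comm]

private theorem ed2_P1 (T : C2 →L[ℝ] C2) {v : ℂ} (hv : v ≠ 0) :
    s1 (T ∘L (i1L ∘L p1L)) = (inner ℝ (mk v 0) (T (mk v 0)) +
      inner ℝ (mk (Complex.I * v) 0) (T (mk (Complex.I * v) 0))) / ‖v‖ ^ 2 := by
  have hp : (‖v‖ ^ 2 : ℝ) ≠ 0 := pow_ne_zero 2 (norm_ne_zero_iff.2 hv)
  have h1 : T ∘L (i1L ∘L p1L) = ((‖v‖ ^ 2 : ℝ)⁻¹) •
      ((innerSL ℝ (mk v 0)).smulRight (T (mk v 0)) +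
        (innerSL ℝ (mk (Complex.I * v) 0)).smulRight (T (mk (Complex.I * v) 0))) := by
    refine ContinuousLinearMap.ext fun u => ?_
    show T (mk (p1 u) 0) = ((‖v‖ ^ 2 : ℝ)⁻¹) •
      ((inner ℝ (mk v 0) u : ℝ) • T (mk v 0) +
        (inner ℝ (mk (Complex.I * v) 0) u : ℝ) • T (mk (Complex.I * v) 0))
    rw [← map_smul, ← map_smul, ← map_add, ← map_smul, mk_smul, mk_smul, mk_add, mk_smul, ed2_in1,
      ed2_in1, ed2_cx, smul_smul, inv_mul_cancel₀ hp, one_smul, smul_zero, smul_zero, add_zero,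
      smul_zero]
  rw [h1, IbpAux.s1_smul, IbpAux.s1_add, IbpAux.s1_smulRight, IbpAux.s1_smulRight,
    innerSL_apply_apply, innerSL_apply_apply, div_eq_inv_mul]

private theorem ed2_P2 (T : C2 →L[ℝ] C2) {y : ℂ} (hy : y ≠ 0) :
    s1 (T ∘L (i2L ∘L p2L)) = (inner ℝ (mk 0 y) (T (mk 0 y)) +
      inner ℝ (mk 0 (Complex.I * y)) (T (mk 0 (Complex.I * y)))) / ‖y‖ ^ 2 := by
  have hp : (‖y‖ ^ 2 : ℝ) ≠ 0 := pow_ne_zero 2 (norm_ne_zero_iff.2 hy)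
  have h1 : T ∘L (i2L ∘L p2L) = ((‖y‖ ^ 2 : ℝ)⁻¹) •
      ((innerSL ℝ (mk 0 y)).smulRight (T (mk 0 y)) +
        (innerSL ℝ (mk 0 (Complex.I * y))).smulRight (T (mk 0 (Complex.I * y)))) := by
    refine ContinuousLinearMap.ext fun u => ?_
    show T (mk 0 (p2 u)) = ((‖y‖ ^ 2 : ℝ)⁻¹) •
      ((inner ℝ (mk 0 y) u : ℝ) • T (mk 0 y) +
        (inner ℝ (mk 0 (Complex.I * y)) u : ℝ) • T (mk 0 (Complex.I * y)))
    rw [← map_smul, ← map_smul, ← map_add, ← map_smul, mk_smul, mk_smul, mk_add, mk_smul, ed2_in2,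
      ed2_in2, ed2_cx, smul_smul, inv_mul_cancel₀ hp, one_smul, smul_zero, smul_zero, add_zero,
      smul_zero]
  rw [h1, IbpAux.s1_smul, IbpAux.s1_add, IbpAux.s1_smulRight, IbpAux.s1_smulRight,
    innerSL_apply_apply, innerSL_apply_apply, div_eq_inv_mul]

/-- the derivative of the factor in a direction orthogonal to the point -/
private theorem ed2_D {σ : ℝ} (hσ : 0 < σ) {w u : C2} (hw : ‖w‖ = 1) (hwu : (inner ℝ w u : ℝ) = 0) :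
    fderiv ℝ (Qs σ) w u =
      -(Qs σ w ^ 2 * (1 + 2 * ys σ w) / ys σ w) * (inner ℝ (p2 w) (p2 u) : ℝ) := by
  have hw0 : w ≠ 0 := by
    intro h
    rw [h, norm_zero] at hw
    exact zero_ne_one hw
  have hd : DifferentiableAt ℝ (Qs σ) w :=
    ((Qs_contDiffOn hσ).contDiffAt (isOpen_compl_singleton.mem_nhds hw0)).differentiableAt one_ne_zero
  have hline : HasDerivAt (fun t : ℝ => w + t • u) u 0 := by
    have h1 := ((hasDerivAt_id (0 : ℝ)).smul_const u).const_add w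
    rw [one_smul] at h1
    exact h1
  have h1 : HasDerivAt (fun t : ℝ => Qs σ (w + t • u)) (fderiv ℝ (Qs σ) w u) 0 := by
    have h2 : HasFDerivAt (Qs σ) (fderiv ℝ (Qs σ) w) (w + (0 : ℝ) • u) := by
      rw [zero_smul, add_zero]
      exact hd.hasFDerivAt
    exact h2.comp_hasDerivAt (0 : ℝ) hline
  -- the norm
  have hn : ∀ t : ℝ, ‖w + t • u‖ ^ 2 = 1 + t ^ 2 * ‖u‖ ^ 2 := by
    intro t
    rw [norm_add_sq_real, inner_smul_right, hwu, hw, norm_smul, mul_pow, Real.norm_eq_abs, sq_abs]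
    ring
  have hR : ∀ t : ℝ, ‖w + t • u‖ = Real.sqrt (1 + t ^ 2 * ‖u‖ ^ 2) := by
    intro t
    rw [← hn, Real.sqrt_sq (norm_nonneg _)]
  have hY : ∀ t : ℝ, ys σ (w + t • u) = Real.sqrt (‖p2 w‖ ^ 2 + 2 * (t * inner ℝ (p2 w) (p2 u)) +
      t ^ 2 * ‖p2 u‖ ^ 2 + σ ^ 2 * (1 + t ^ 2 * ‖u‖ ^ 2)) := by
    intro t
    unfold ys
    rw [hn, p2_add, p2_smul, norm_add_sq_real, inner_smul_right, norm_smul, mul_pow,
      Real.norm_eq_abs, sq_abs]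
  have hY0 : 0 < ys σ w := ys_pos hσ hw0
  have hYe : Real.sqrt (‖p2 w‖ ^ 2 + 2 * ((0 : ℝ) * inner ℝ (p2 w) (p2 u)) +
      (0 : ℝ) ^ 2 * ‖p2 u‖ ^ 2 + σ ^ 2 * (1 + (0 : ℝ) ^ 2 * ‖u‖ ^ 2)) = ys σ w := by
    rw [← hY, zero_smul, add_zero]
  have hF0 : (‖p2 w‖ ^ 2 + 2 * ((0 : ℝ) * inner ℝ (p2 w) (p2 u)) +
      (0 : ℝ) ^ 2 * ‖p2 u‖ ^ 2 + σ ^ 2 * (1 + (0 : ℝ) ^ 2 * ‖u‖ ^ 2)) ≠ 0 := by
    intro h0
    rw [h0, Real.sqrt_zero] at hYe
    exact hY0.ne hYe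
  have hsq : HasDerivAt (fun t : ℝ => t ^ 2) 0 0 := by
    have h2 := hasDerivAt_pow 2 (0 : ℝ)
    simpa using h2
  have hF : HasDerivAt (fun t : ℝ => ‖p2 w‖ ^ 2 + 2 * (t * inner ℝ (p2 w) (p2 u)) +
      t ^ 2 * ‖p2 u‖ ^ 2 + σ ^ 2 * (1 + t ^ 2 * ‖u‖ ^ 2)) (2 * inner ℝ (p2 w) (p2 u)) 0 := by
    have h2 := (((((hasDerivAt_id (0 : ℝ)).mul_const (inner ℝ (p2 w) (p2 u) : ℝ)).const_mul
      (2 : ℝ)).const_add (‖p2 w‖ ^ 2)).add (hsq.mul_const (‖p2 u‖ ^ 2))).add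
      (((hsq.mul_const (‖u‖ ^ 2)).const_add (1 : ℝ)).const_mul (σ ^ 2))
    refine h2.congr_deriv ?_
    ring
  have hG : HasDerivAt (fun t : ℝ => 1 + t ^ 2 * ‖u‖ ^ 2) 0 0 := by
    have h2 := (hsq.mul_const (‖u‖ ^ 2)).const_add (1 : ℝ)
    refine h2.congr_deriv ?_
    ring
  have hYd := hF.sqrt hF0
  rw [hYe] at hYd
  have hG0 : (1 + (0 : ℝ) ^ 2 * ‖u‖ ^ 2) = 1 := by ring
  have hRd := hG.sqrt (by rw [hG0]; exact one_ne_zero)
  have hprod := hYd.mul (hRd.add hYd)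
  have hfun : (fun t : ℝ => Qs σ (w + t • u)) = fun t : ℝ =>
      ((fun t : ℝ => Real.sqrt (‖p2 w‖ ^ 2 + 2 * (t * inner ℝ (p2 w) (p2 u)) +
      t ^ 2 * ‖p2 u‖ ^ 2 + σ ^ 2 * (1 + t ^ 2 * ‖u‖ ^ 2))) t *
      (Real.sqrt (1 + t ^ 2 * ‖u‖ ^ 2) + Real.sqrt (‖p2 w‖ ^ 2 + 2 * (t * inner ℝ (p2 w) (p2 u)) +
      t ^ 2 * ‖p2 u‖ ^ 2 + σ ^ 2 * (1 + t ^ 2 * ‖u‖ ^ 2))))⁻¹ := by
    funext t
    unfold Qs
    rw [hY, hR]
  have hval : Real.sqrt (1 + (0 : ℝ) ^ 2 * ‖u‖ ^ 2) = 1 := by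
    rw [hG0, Real.sqrt_one]
  have h3 := hprod.inv (by
    show Real.sqrt (‖p2 w‖ ^ 2 + 2 * ((0 : ℝ) * inner ℝ (p2 w) (p2 u)) +
      (0 : ℝ) ^ 2 * ‖p2 u‖ ^ 2 + σ ^ 2 * (1 + (0 : ℝ) ^ 2 * ‖u‖ ^ 2)) *
      (Real.sqrt (1 + (0 : ℝ) ^ 2 * ‖u‖ ^ 2) + Real.sqrt (‖p2 w‖ ^ 2 + 2 * ((0 : ℝ) *
        inner ℝ (p2 w) (p2 u)) + (0 : ℝ) ^ 2 * ‖p2 u‖ ^ 2 + σ ^ 2 * (1 + (0 : ℝ) ^ 2 * ‖u‖ ^ 2))) ≠ 0
    rw [hYe, hval]
    positivity)
  rw [hfun] at h1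
  have h4 := h1.unique h3
  rw [h4]
  simp only [Pi.mul_apply, Pi.add_apply]
  rw [hYe, hval]
  have hQ : Qs σ w = (ys σ w * (1 + ys σ w))⁻¹ := by
    unfold Qs
    rw [hw]
  rw [hQ]
  have hY1 : ys σ w ≠ 0 := hY0.ne'
  have hY2 : 1 + ys σ w ≠ 0 := by positivity
  field_simp
  ring

theorem trace_Us {σ : ℝ} (hσ : 0 < σ) {T : C2 →L[ℝ] C2} (hsym : ∀ a b, inner ℝ (T a) b = inner ℝ a (T b))
    {v y : ℂ} (hv : v ≠ 0) (hy : y ≠ 0) (hn : ‖mk v y‖ = 1) (s : ℝ) (hw : T (mk v y) = s • mk v y) :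
    s1 (T ∘L fderiv ℝ (Us σ) (mk v y)) =
      inner ℝ (T (mk ((‖y‖ ^ 2 : ℝ) • v) (-((‖v‖ ^ 2 : ℝ) • y))))
          (mk ((‖y‖ ^ 2 : ℝ) • v) (-((‖v‖ ^ 2 : ℝ) • y))) *
        (Qs σ (mk v y) ^ 2 * (1 + 2 * ys σ (mk v y)) / ys σ (mk v y) +
          Qs σ (mk v y) * (‖y‖ ^ 2 - ‖v‖ ^ 2) / (‖v‖ ^ 2 * ‖y‖ ^ 2)) +
      Qs σ (mk v y) * ‖y‖ ^ 2 *
        (inner ℝ (T (mk (Complex.I * v) 0)) (mk (Complex.I * v) 0) / ‖v‖ ^ 2) -
      Qs σ (mk v y) * ‖v‖ ^ 2 *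
        (inner ℝ (T (mk 0 (Complex.I * y))) (mk 0 (Complex.I * y)) / ‖y‖ ^ 2) := by
  have hp0 : (‖v‖ ^ 2 : ℝ) ≠ 0 := pow_ne_zero 2 (norm_ne_zero_iff.2 hv)
  have hr0 : (‖y‖ ^ 2 : ℝ) ≠ 0 := pow_ne_zero 2 (norm_ne_zero_iff.2 hy)
  have hpr : ‖v‖ ^ 2 + ‖y‖ ^ 2 = 1 := by
    rw [← norm_mk_sq, hn, one_pow]
  have hw0 : mk v y ≠ 0 := mk_ne_zero' hv y
  have hQd : HasFDerivAt (Qs σ) (fderiv ℝ (Qs σ) (mk v y)) (mk v y) :=
    (((Qs_contDiffOn hσ).contDiffAt (isOpen_compl_singleton.mem_nhds hw0)).differentiableAt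
      one_ne_zero).hasFDerivAt
  -- derivative of the polynomial field
  have hp1 : HasFDerivAt (fun x : C2 => p1L x) p1L (mk v y) := p1L.hasFDerivAt
  have hp2 : HasFDerivAt (fun x : C2 => p2L x) p2L (mk v y) := p2L.hasFDerivAt
  have hN1 := i1L.hasFDerivAt.comp (mk v y) (hp2.norm_sq.smul hp1)
  have hN2 := i2L.hasFDerivAt.comp (mk v y) (hp1.norm_sq.smul hp2)
  have hN := hN1.sub hN2
  have hU := hQd.smul hN
  have hfun : Us σ = Qs σ • (i1L ∘ ((fun x : C2 => ‖p2L x‖ ^ 2) • fun x : C2 => p1L x) -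
      i2L ∘ ((fun x : C2 => ‖p1L x‖ ^ 2) • fun x : C2 => p2L x)) := by
    funext x
    show Qs σ x • mk ((‖p2 x‖ ^ 2 : ℝ) • p1 x) (-((‖p1 x‖ ^ 2 : ℝ) • p2 x)) =
      Qs σ x • (mk (‖p2 x‖ ^ 2 • p1 x) 0 - mk 0 (‖p1 x‖ ^ 2 • p2 x))
    rw [mk_sub, sub_zero, zero_sub]
  have hU' := hU.fderiv
  rw [← hfun] at hU'
  rw [hU']
  -- the trace
  obtain ⟨ν, hν⟩ : ∃ ν : C2, ν = mk ((‖y‖ ^ 2 : ℝ) • v) (-((‖v‖ ^ 2 : ℝ) • y)) := ⟨_, rfl⟩
  rw [← hν]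
  have e1 : p1L (mk v y) = v := p1_mk v y
  have e2 : p2L (mk v y) = y := p2_mk v y
  obtain ⟨D, hD⟩ : ∃ D : C2 →L[ℝ] ℝ, D = fderiv ℝ (Qs σ) (mk v y) := ⟨_, rfl⟩
  rw [← hD]
  have hexp : ∀ (M : C2 →L[ℝ] C2), M =
      Qs σ (mk v y) • ((‖y‖ ^ 2 : ℝ) • (i1L ∘L p1L) +
        ((2 : ℝ) • (innerSL ℝ (mk 0 y))).smulRight (mk v 0) -
        ((‖v‖ ^ 2 : ℝ) • (i2L ∘L p2L) + ((2 : ℝ) • (innerSL ℝ (mk v 0))).smulRight (mk 0 y))) +
        D.smulRight ν →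
      s1 (T ∘L M) = Qs σ (mk v y) * (‖y‖ ^ 2 * s1 (T ∘L (i1L ∘L p1L)) +
        2 * inner ℝ (mk 0 y) (T (mk v 0)) - (‖v‖ ^ 2 * s1 (T ∘L (i2L ∘L p2L)) +
        2 * inner ℝ (mk v 0) (T (mk 0 y)))) + D (T ν) := by
    intro M hM
    have h1 : T ∘L M = Qs σ (mk v y) • ((‖y‖ ^ 2 : ℝ) • (T ∘L (i1L ∘L p1L)) +
        ((2 : ℝ) • (innerSL ℝ (mk 0 y))).smulRight (T (mk v 0)) +
        (-1 : ℝ) • ((‖v‖ ^ 2 : ℝ) • (T ∘L (i2L ∘L p2L)) +
          ((2 : ℝ) • (innerSL ℝ (mk v 0))).smulRight (T (mk 0 y)))) +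
        D.smulRight (T ν) := by
      rw [hM]
      refine ContinuousLinearMap.ext fun u => ?_
      simp only [ContinuousLinearMap.comp_apply, add_apply,
        sub_apply, smul_apply,
        ContinuousLinearMap.smulRight_apply, map_add, map_sub, map_smul, neg_smul, one_smul]
      rw [sub_eq_add_neg]
    rw [h1, IbpAux.s1_add, IbpAux.s1_smul, IbpAux.s1_add, IbpAux.s1_add, IbpAux.s1_smul,
      IbpAux.s1_smul, IbpAux.s1_add, IbpAux.s1_smul, IbpAux.s1_smulRight, IbpAux.s1_smulRight,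
      IbpAux.s1_smulRight]
    simp only [smul_apply, innerSL_apply_apply, smul_eq_mul]
    ring
  rw [hexp _ ?_]
  · -- algebra
    obtain ⟨a, ha⟩ : ∃ a : C2, a = mk v 0 := ⟨_, rfl⟩
    obtain ⟨b, hb⟩ : ∃ b : C2, b = mk 0 y := ⟨_, rfl⟩
    obtain ⟨w, hwd⟩ : ∃ w : C2, w = mk v y := ⟨_, rfl⟩
    have haw : a = (‖v‖ ^ 2 : ℝ) • w + ν := by
      rw [ha, hwd, hν, mk_smul, mk_add, ← add_smul, hpr, one_smul, add_neg_cancel]
    have hbw : b = (‖y‖ ^ 2 : ℝ) • w - ν := by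
      rw [hb, hwd, hν, mk_smul, mk_sub, sub_self, sub_neg_eq_add, ← add_smul, add_comm (‖y‖ ^ 2),
        hpr, one_smul]
    have hww : (inner ℝ w w : ℝ) = 1 := by
      rw [hwd, real_inner_self_eq_norm_sq, hn, one_pow]
    have hwν : (inner ℝ w ν : ℝ) = 0 := by
      rw [hwd, hν, inner_mk, inner_smul_right, inner_neg_right, inner_smul_right,
        real_inner_self_eq_norm_sq, real_inner_self_eq_norm_sq]
      ring
    have hwTν : (inner ℝ w (T ν) : ℝ) = 0 := by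
      rw [← hsym, hwd, hw, ← hwd, inner_smul_left, hwν]
      simp
    have hwTw : T w = s • w := by rw [hwd, hw]
    have hνTw : (inner ℝ ν (T w) : ℝ) = 0 := by
      rw [hwTw, inner_smul_right, real_inner_comm, hwν, mul_zero]
    have hDν : D (T ν) = Qs σ w ^ 2 * (1 + 2 * ys σ w) / ys σ w * inner ℝ (T ν) ν := by
      have h1 := ed2_D hσ (w := w) (u := T ν) (by rw [hwd]; exact hn) hwTν
      rw [hD, ← hwd, h1]
      have h2 : (inner ℝ (p2 w) (p2 (T ν)) : ℝ) = - inner ℝ (T ν) ν := by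
        have h3 : p2 w = y := by rw [hwd, p2_mk]
        rw [h3, ← ed2_in2, ← hb, hbw, inner_sub_left, inner_smul_left, hwTν, real_inner_comm]
        simp
      rw [h2]
      ring
    have hTa : (inner ℝ a (T a) : ℝ) = (‖v‖ ^ 2) ^ 2 * s + inner ℝ (T ν) ν := by
      rw [haw, map_add, map_smul, inner_add_left, inner_add_right, inner_add_right,
        real_inner_smul_left, real_inner_smul_left, real_inner_smul_right, real_inner_smul_right,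
        hwTν, hνTw, hwTw, real_inner_smul_right, hww, real_inner_comm ν (T ν)]
      ring
    have hTb : (inner ℝ b (T b) : ℝ) = (‖y‖ ^ 2) ^ 2 * s + inner ℝ (T ν) ν := by
      rw [hbw, map_sub, map_smul, inner_sub_left, inner_sub_right, inner_sub_right,
        real_inner_smul_left, real_inner_smul_left, real_inner_smul_right, real_inner_smul_right,
        hwTν, hνTw, hwTw, real_inner_smul_right, hww, real_inner_comm ν (T ν)]
      ring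
    have hab : (inner ℝ b (T a) : ℝ) = inner ℝ a (T b) := by
      rw [← hsym, real_inner_comm]
    have e3 : (inner ℝ (mk (Complex.I * v) 0) (T (mk (Complex.I * v) 0)) : ℝ) =
        inner ℝ (T (mk (Complex.I * v) 0)) (mk (Complex.I * v) 0) := real_inner_comm _ _
    have e4 : (inner ℝ (mk 0 (Complex.I * y)) (T (mk 0 (Complex.I * y))) : ℝ) =
        inner ℝ (T (mk 0 (Complex.I * y))) (mk 0 (Complex.I * y)) := real_inner_comm _ _
    rw [ed2_P1 T hv, ed2_P2 T hy, e3, e4, ← ha, ← hb, ← hwd, hDν, hTa, hTb, hab]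
    have hrp : ‖y‖ ^ 2 = 1 - ‖v‖ ^ 2 := by linarith
    generalize (inner ℝ (T ν) ν : ℝ) = t
    generalize (inner ℝ (T (mk (Complex.I * v) 0)) (mk (Complex.I * v) 0) : ℝ) = t1
    generalize (inner ℝ (T (mk 0 (Complex.I * y))) (mk 0 (Complex.I * y)) : ℝ) = t2
    generalize (inner ℝ a (T b) : ℝ) = t3
    generalize Qs σ w ^ 2 * (1 + 2 * ys σ w) / ys σ w = q2
    generalize Qs σ w = q
    generalize (‖v‖ ^ 2 : ℝ) = p at *
    generalize (‖y‖ ^ 2 : ℝ) = r at *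
    have h5 : r * ((p ^ 2 * s + t + t1) / p) - p * ((r ^ 2 * s + t + t2) / r) =
        t * ((r - p) / (p * r)) + r * (t1 / p) - p * (t2 / r) := by
      have h6 : r * ((p ^ 2 * s + t + t1) / p) = r * p * s + t * (r / p) + r * (t1 / p) := by
        field_simp
      have h7 : p * ((r ^ 2 * s + t + t2) / r) = r * p * s + t * (p / r) + p * (t2 / r) := by
        field_simp
      have h8 : r / p - p / r = (r - p) / (p * r) := by
        have h9 : (r - p) / (p * r) = (r - p) * (p + r) / (p * r) := by rw [hpr, mul_one]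
        rw [h9]
        field_simp
        ring
      rw [h6, h7, ← h8]
      ring
    linear_combination q * h5
  · -- the derivative in explicit form
    refine ContinuousLinearMap.ext fun u => ?_
    simp only [ContinuousLinearMap.comp_apply, add_apply,
      sub_apply, smul_apply,
      ContinuousLinearMap.smulRight_apply, e1, e2, innerSL_apply_apply]
    have h6 : (inner ℝ (mk 0 y) u : ℝ) = inner ℝ y (p2L u) := ed2_in2 y u
    have h7 : (inner ℝ (mk v 0) u : ℝ) = inner ℝ v (p1L u) := ed2_in1 v u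
    have h8 : mk v 0 = i1L v := rfl
    have h9 : mk 0 y = i2L y := rfl
    have h10 : ν = i1L ((‖y‖ ^ 2 : ℝ) • v) - i2L ((‖v‖ ^ 2 : ℝ) • y) := by
      rw [hν]
      show _ = mk (‖y‖ ^ 2 • v) 0 - mk 0 (‖v‖ ^ 2 • y)
      rw [mk_sub, sub_zero, zero_sub]
    have h11 : (i1L ∘ ((fun x : C2 => ‖p2L x‖ ^ 2) • fun x : C2 => p1L x) -
        i2L ∘ ((fun x : C2 => ‖p1L x‖ ^ 2) • fun x : C2 => p2L x)) (mk v y) =
        i1L (‖p2L (mk v y)‖ ^ 2 • p1L (mk v y)) - i2L (‖p1L (mk v y)‖ ^ 2 • p2L (mk v y)) := rfl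
    rw [h11, e1, e2, h6, h7, h8, h9, h10]
    simp only [map_add, map_smul, smul_eq_mul, nsmul_eq_mul, Nat.cast_ofNat]

end Pool.Agent.HAS.T
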