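import Pool.Agent.HAS.T.TDefs

/-!
# HAS-Sae: null sets and isometries of the sphere

Null sets, integrability of bounded measurable functions, invariance under isometries.
-/

set_option autoImplicit false

namespace Pool.Agent.HAS.T

open MeasureTheory Metric Set Filter Topology
open Pool.Agent.Helper85.Herm Pool.Agent.Helper85.Cap Pool.Agent.HVM

theorem sph_ae : ∀ᵐ n : sphere (0 : C2) 1 ∂((volume : Measure C2).toSphere),
    p1 (n : C2) ≠ 0 ∧ p2 (n : C2) ≠ 0 := by
  rw [ae_iff]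
  have hset : {a : sphere (0 : C2) 1 | ¬ (p1 (a : C2) ≠ 0 ∧ p2 (a : C2) ≠ 0)} =
      {a : sphere (0 : C2) 1 | p1 (a : C2) = 0} ∪ {a : sphere (0 : C2) 1 | p2 (a : C2) = 0} := by
    ext a
    simp only [mem_ofPred_eq, mem_union, ne_eq]
    tauto
  rw [hset]
  have hm : MeasurableSet ({a : sphere (0 : C2) 1 | p1 (a : C2) = 0} ∪
      {a : sphere (0 : C2) 1 | p2 (a : C2) = 0}) := by
    refine MeasurableSet.union ?_ ?_
    · exact (isClosed_eq (continuous_p1.comp continuous_subtype_val) continuous_const).measurableSet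
    · exact (isClosed_eq (continuous_p2.comp continuous_subtype_val) continuous_const).measurableSet
  rw [Measure.toSphere_apply' _ hm]
  have h1 : (volume : Measure C2) (LinearMap.ker (p1L : C2 →ₗ[ℝ] ℂ) : Set C2) = 0 := by
    apply Measure.addHaar_submodule
    intro htop
    have h2 : mk 1 0 ∈ LinearMap.ker (p1L : C2 →ₗ[ℝ] ℂ) := by
      rw [htop]
      exact Submodule.mem_top
    have h3 : p1 (mk 1 0) = 0 := h2
    rw [p1_mk] at h3
    exact one_ne_zero h3
  have h2 : (volume : Measure C2) (LinearMap.ker (p2L : C2 →ₗ[ℝ] ℂ) : Set C2) = 0 := by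
    apply Measure.addHaar_submodule
    intro htop
    have h2 : mk 0 1 ∈ LinearMap.ker (p2L : C2 →ₗ[ℝ] ℂ) := by
      rw [htop]
      exact Submodule.mem_top
    have h3 : p2 (mk 0 1) = 0 := h2
    rw [p2_mk] at h3
    exact one_ne_zero h3
  rw [mul_eq_zero]
  right
  refine measure_mono_null ?_ (measure_union_null h1 h2)
  rintro x ⟨r, _, y, ⟨z, hz, rfl⟩, rfl⟩
  rcases hz with hz | hz
  · left
    show p1 (r • (z : C2)) = 0
    have hz' : p1 (z : C2) = 0 := hz
    rw [p1_smul, hz', smul_zero]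
  · right
    show p2 (r • (z : C2)) = 0
    have hz' : p2 (z : C2) = 0 := hz
    rw [p2_smul, hz', smul_zero]

private theorem sae_int (f : C2 → ℝ) (hf : Measurable f) (C : ℝ)
    (hfC : ∀ n : C2, ‖n‖ = 1 → |f n| ≤ C) :
    Integrable (fun n : sphere (0 : C2) 1 => f n) ((volume : Measure C2).toSphere) := by
  refine Integrable.of_bound (hf.comp measurable_subtype_coe).aestronglyMeasurable C ?_
  refine Eventually.of_forall fun n => ?_
  rw [Real.norm_eq_abs]
  exact hfC n (sph_norm n)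

/-- monotonicity of `Sph` up to the null set where a coordinate vanishes -/
theorem sph_ae_mono (f g : C2 → ℝ) (hf : Measurable f) (hg : Measurable g) (C : ℝ)
    (hfC : ∀ n : C2, ‖n‖ = 1 → |f n| ≤ C) (hgC : ∀ n : C2, ‖n‖ = 1 → |g n| ≤ C)
    (hfg : ∀ n : C2, ‖n‖ = 1 → p1 n ≠ 0 → p2 n ≠ 0 → f n ≤ g n) : Sph f ≤ Sph g := by
  refine integral_mono_ae (sae_int f hf C hfC) (sae_int g hg C hgC) ?_
  filter_upwards [sph_ae] with n hn
  exact hfg n (sph_norm n) hn.1 hn.2

theorem sph_integrable_of_bdd (f : C2 → ℝ) (hf : Measurable f) (C : ℝ)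
    (hfC : ∀ n : C2, ‖n‖ = 1 → |f n| ≤ C) :
    Integrable (fun n : sphere (0 : C2) 1 => f n) ((volume : Measure C2).toSphere) := by
  exact sae_int f hf C hfC

theorem sph_isom (g : C2 ≃ₗᵢ[ℝ] C2) (f : C2 → ℝ) (d : ℤ)
    (hf : ∀ (c : ℝ) (w : C2), 0 < c → w ≠ 0 → f (c • w) = c ^ d * f w) :
    Sph (fun n => f (g n)) = Sph f := by
  obtain ⟨ρ, _, _, _, hρ⟩ := exists_bump
  have h1 := polar f d hf ρ
  have h2 := polar (fun n => f (g n)) d (fun c w hc hw => by
    show f (g (c • w)) = c ^ d * f (g w)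
    rw [map_smul]
    exact hf c (g w) hc ((map_ne_zero_iff g g.injective).2 hw)) ρ
  have h3 : ∫ w : C2, ρ ‖w‖ * f (g w) = ∫ w : C2, ρ ‖w‖ * f w := by
    have h4 := g.measurePreserving.integral_comp g.toHomeomorph.measurableEmbedding
      (fun w : C2 => ρ ‖w‖ * f w)
    rw [← h4]
    refine integral_congr_ae (Eventually.of_forall fun w => ?_)
    show ρ ‖w‖ * f (g w) = ρ ‖g w‖ * f (g w)
    rw [LinearIsometryEquiv.norm_map]
  rw [h3, h1] at h2
  exact (mul_left_cancel₀ (hρ (d + 3)).ne' h2).symm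

end Pool.Agent.HAS.T
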