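import Pool.Agent.HAS.T.Ed2
import Pool.Agent.HAS.T.AlgT
import Pool.Agent.HAS.T.Sae
import Pool.Agent.HAS.T.Tm

/-!
# HAS-Ed3: the edge inequality on the sphere

Scalar estimates, the pointwise inequality from `trace_Us` and `T_nu`, and integration over the sphere with `edge_div`.
-/

set_option autoImplicit false

namespace Pool.Agent.HAS.T

open MeasureTheory Metric Set Filter Topology
open Pool.Agent.Helper85.Herm Pool.Agent.Helper85.Cap Pool.Agent.HVM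

private theorem ed3_Y {σ r : ℝ} (hσ : 0 < σ) (hr : 0 < r) (Y : ℝ)
    (hY : Y = Real.sqrt (r + σ ^ 2)) : 0 < Y ∧ r ≤ Y ^ 2 := by
  have h1 : 0 < r + σ ^ 2 := by positivity
  refine ⟨?_, ?_⟩
  · rw [hY]
    exact Real.sqrt_pos.2 h1
  · rw [hY, Real.sq_sqrt h1.le]
    nlinarith [sq_nonneg σ]

theorem scal1 {σ p r : ℝ} (hσ : 0 < σ) (hp : 0 < p) (hr : 0 < r) (hpr : p + r = 1) (Y Q : ℝ)
    (hY : Y = Real.sqrt (r + σ ^ 2)) (hQ : Q = (Y * (1 + Y))⁻¹) :
    (Q ^ 2 * (1 + 2 * Y) / Y + Q * (r - p) / (p * r)) * (p * r) ≤ 1 := by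
  obtain ⟨hY0, hrY⟩ := ed3_Y hσ hr Y hY
  have h1 : (Q ^ 2 * (1 + 2 * Y) / Y + Q * (r - p) / (p * r)) * (p * r) =
      (p * r * (1 + 2 * Y) + (r - p) * Y ^ 2 * (1 + Y)) / (Y ^ 3 * (1 + Y) ^ 2) := by
    rw [hQ]
    have h2 : (1 + Y) ≠ 0 := by positivity
    field_simp
  rw [h1, div_le_one (by positivity)]
  have hpe : p = 1 - r := by linarith
  have e1 : p * r * (1 + 2 * Y) ≤ p * Y ^ 2 * (1 + 2 * Y) := by
    have : p * (1 + 2 * Y) * r ≤ p * (1 + 2 * Y) * Y ^ 2 :=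
      mul_le_mul_of_nonneg_left hrY (by positivity)
    linarith
  have e2 : p * Y ^ 2 * (1 + 2 * Y) + (r - p) * Y ^ 2 * (1 + Y) = Y ^ 2 * (Y + r) := by
    rw [hpe]
    ring
  have e3 : Y ^ 2 * (Y + r) ≤ Y ^ 2 * (Y + Y ^ 2) :=
    mul_le_mul_of_nonneg_left (by linarith) (by positivity)
  have e4 : Y ^ 2 * (Y + Y ^ 2) = Y ^ 3 * (1 + Y) := by ring
  have e5 : Y ^ 3 * (1 + Y) ≤ Y ^ 3 * (1 + Y) ^ 2 :=
    mul_le_mul_of_nonneg_left (by nlinarith) (by positivity)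
  linarith

theorem scal2 {σ p r : ℝ} (hσ : 0 < σ) (hp : 0 < p) (hr : 0 < r) (hpr : p + r = 1) (Y Q : ℝ)
    (hY : Y = Real.sqrt (r + σ ^ 2)) (hQ : Q = (Y * (1 + Y))⁻¹) : Q * r ≤ 1 / 2 := by
  obtain ⟨hY0, hrY⟩ := ed3_Y hσ hr Y hY
  have hr1 : r ≤ 1 := by linarith
  have hrY2 : r ≤ Y := by
    by_contra hc
    push Not at hc
    nlinarith
  have h1 : 0 < Y * (1 + Y) := by positivity
  rw [hQ, inv_mul_le_iff₀ h1]
  nlinarith

theorem edge_pt {h : C2 → ℝ} (hs : SmoothSupp h) {σ : ℝ} (hσ : 0 < σ) {n : C2} (hn : ‖n‖ = 1)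
    (h1 : p1 n ≠ 0) (h2 : p2 n ≠ 0) :
    Qs σ n * ‖p1 n‖ ^ 2 * t33 h n ≤
      tP h n + 1 / 2 * ttt h n - s1 (TH h n ∘L fderiv ℝ (Us σ) n) := by
  have hn0 : n ≠ 0 := by
    intro hc
    rw [hc, norm_zero] at hn
    exact zero_ne_one hn
  have hpk := hs.pk hn0
  have htt := ttt_nonneg hs n
  have hP0 := tP_nonneg hs n
  obtain ⟨v, y, rfl⟩ : ∃ v y, n = mk v y := ⟨p1 n, p2 n, (mk_p n).symm⟩
  rw [p1_mk] at h1
  rw [p2_mk] at h2
  have hpr : ‖v‖ ^ 2 + ‖y‖ ^ 2 = 1 := by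
    rw [← norm_mk_sq, hn, one_pow]
  have hp : 0 < ‖v‖ ^ 2 := by
    have := norm_pos_iff.2 h1
    positivity
  have hr : 0 < ‖y‖ ^ 2 := by
    have := norm_pos_iff.2 h2
    positivity
  have hY : ys σ (mk v y) = Real.sqrt (‖y‖ ^ 2 + σ ^ 2) := by
    unfold ys
    rw [p2_mk, hn]
    congr 1
    ring
  have hQ : Qs σ (mk v y) = (ys σ (mk v y) * (1 + ys σ (mk v y)))⁻¹ := by
    unfold Qs
    rw [hn]
  have hTsym : ∀ a b, inner ℝ (TH h (mk v y) a) b = inner ℝ a (TH h (mk v y) b) :=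
    fun a b => NT_symm hpk a b
  have hTpsd : ∀ a, 0 ≤ inner ℝ (TH h (mk v y) a) a := fun a => NT_psd hpk a
  have hker : TH h (mk v y) (mk v y) = s2 (hess h (mk v y)) • mk v y := NT_ker hpk
  have htr := trace_Us hσ hTsym h1 h2 hn (s2 (hess h (mk v y))) hker
  have hnu := T_nu hTsym hTpsd v y
  have k1 := scal1 hσ hp hr hpr _ _ hY hQ
  have k2 := scal2 hσ hp hr hpr _ _ hY hQ
  have e33 : t33 h (mk v y) = inner ℝ (TH h (mk v y) (mk 0 (Complex.I * y)))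
      (mk 0 (Complex.I * y)) / ‖y‖ ^ 2 := by
    unfold t33
    rw [p2_mk]
  have ett : ttt h (mk v y) = inner ℝ (TH h (mk v y) (mk (Complex.I * v) 0))
      (mk (Complex.I * v) 0) / ‖v‖ ^ 2 := by
    unfold ttt
    rw [p1_mk]
  have eP : tP h (mk v y) = inner ℝ (TH h (mk v y) (Iq (mk v y))) (Iq (mk v y)) +
      inner ℝ (TH h (mk v y) (Kq (mk v y))) (Kq (mk v y)) := rfl
  rw [← e33, ← ett] at htr
  rw [← eP] at hnu
  have hN0 := hTpsd (mk ((‖y‖ ^ 2 : ℝ) • v) (-((‖v‖ ^ 2 : ℝ) • y)))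
  rw [p1_mk]
  set N : ℝ := inner ℝ (TH h (mk v y) (mk ((‖y‖ ^ 2 : ℝ) • v) (-((‖v‖ ^ 2 : ℝ) • y))))
    (mk ((‖y‖ ^ 2 : ℝ) • v) (-((‖v‖ ^ 2 : ℝ) • y))) with hN
  set C : ℝ := Qs σ (mk v y) ^ 2 * (1 + 2 * ys σ (mk v y)) / ys σ (mk v y) +
          Qs σ (mk v y) * (‖y‖ ^ 2 - ‖v‖ ^ 2) / (‖v‖ ^ 2 * ‖y‖ ^ 2) with hC
  set P : ℝ := tP h (mk v y) with hPd
  set tt : ℝ := ttt h (mk v y) with httd
  have m1 : N * C ≤ P := by
    rcases le_total C 0 with hc | hc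
    · exact (mul_nonpos_of_nonneg_of_nonpos hN0 hc).trans hP0
    · calc N * C ≤ (‖v‖ ^ 2 * ‖y‖ ^ 2 * P) * C := mul_le_mul_of_nonneg_right hnu hc
        _ = (C * (‖v‖ ^ 2 * ‖y‖ ^ 2)) * P := by ring
        _ ≤ 1 * P := mul_le_mul_of_nonneg_right k1 hP0
        _ = P := one_mul P
  have m2 : Qs σ (mk v y) * ‖y‖ ^ 2 * tt ≤ 1 / 2 * tt := mul_le_mul_of_nonneg_right k2 htt
  rw [htr]
  linarith

private theorem ed3_meas (g : C2 → ℝ) (hg : ContinuousOn g {0}ᶜ) :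
    Measurable (Set.indicator ({0}ᶜ : Set C2) g) := by
  classical
  have h1 := ContinuousOn.measurable_piecewise (f := g) (g := fun _ => (0 : ℝ))
    (s := ({0}ᶜ : Set C2)) hg continuousOn_const (measurableSet_singleton 0).compl
  have h2 : Set.indicator ({0}ᶜ : Set C2) g = Set.piecewise ({0}ᶜ : Set C2) g (fun _ => (0 : ℝ)) := by
    exact (Set.piecewise_eq_indicator (s := ({0}ᶜ : Set C2)) (f := g)).symm
  rw [h2]
  exact h1

private theorem ed3_bdd (g : C2 → ℝ) (hg : ContinuousOn g {0}ᶜ) :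
    ∃ C : ℝ, 0 ≤ C ∧ ∀ n : C2, ‖n‖ = 1 → |g n| ≤ C := by
  have hK : IsCompact (sphere (0 : C2) 1) := isCompact_sphere 0 1
  have hsub : sphere (0 : C2) 1 ⊆ {0}ᶜ := by
    intro n hn hc
    rw [mem_singleton_iff] at hc
    rw [hc] at hn
    simp at hn
  obtain ⟨C, hC⟩ := hK.exists_bound_of_continuousOn (hg.mono hsub)
  refine ⟨max C 0, le_max_right _ _, fun n hn => ?_⟩
  have := hC n (by simpa using hn)
  rw [Real.norm_eq_abs] at this
  exact this.trans (le_max_left _ _)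

theorem edge_sph {h : C2 → ℝ} (hs : SmoothSupp h) {σ : ℝ} (hσ : 0 < σ) :
    Sph (fun n => Qs σ n * ‖p1 n‖ ^ 2 * t33 h n) ≤ Sph (tP h) + 1 / 2 * Sph (ttt h) := by
  obtain ⟨C, hC0, hC⟩ := exists_bound hs
  have hgc : ContinuousOn (fun n : C2 => s1 (TH h n ∘L fderiv ℝ (Us σ) n)) {0}ᶜ := by
    have hU : ContinuousOn (fderiv ℝ (Us σ)) ({0}ᶜ : Set C2) :=
      (Us_contDiffOn hσ).continuousOn_fderiv_of_isOpen isOpen_compl_singleton le_rfl
    exact s1_continuous.comp_continuousOn ((TH_continuousOn hs).clm_comp hU)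
  obtain ⟨Cg, hCg0, hCg⟩ := ed3_bdd _ hgc
  have hGm := ed3_meas _ hgc
  set g : C2 → ℝ := fun n : C2 => s1 (TH h n ∘L fderiv ℝ (Us σ) n) with hg
  set G : C2 → ℝ := Set.indicator ({0}ᶜ : Set C2) g with hG
  have hGg : ∀ n : C2, ‖n‖ = 1 → G n = g n := by
    intro n hn
    rw [hG, Set.indicator_of_mem]
    intro hc
    rw [mem_singleton_iff] at hc
    rw [hc, norm_zero] at hn
    exact zero_ne_one hn
  have hGb : ∀ n : C2, ‖n‖ = 1 → |G n| ≤ Cg := by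
    intro n hn
    rw [hGg n hn]
    exact hCg n hn
  have hys : Continuous (ys σ) := by
    unfold ys
    have := continuous_p2
    fun_prop
  have hQm : Measurable (Qs σ) := by
    unfold Qs
    exact (hys.mul (continuous_norm.add hys)).measurable.inv
  have hfm : Measurable (fun n : C2 => Qs σ n * ‖p1 n‖ ^ 2 * t33 h n) := by
    have h1 : Measurable (fun n : C2 => ‖p1 n‖ ^ 2) := by
      have := continuous_p1
      exact (by fun_prop : Continuous (fun n : C2 => ‖p1 n‖ ^ 2)).measurable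
    exact (hQm.mul h1).mul (t33_measurable hs)
  have hP := tP_measurable hs
  have ht := ttt_measurable hs
  have hrm : Measurable (fun n : C2 => (tP h n + 1 / 2 * ttt h n) - G n) :=
    (hP.add (ht.const_mul _)).sub hGm
  have hQb : ∀ n : C2, ‖n‖ = 1 → Qs σ n ≤ (σ * (1 + σ))⁻¹ := by
    intro n hn
    have hy : σ ≤ ys σ n := by
      unfold ys
      apply Real.le_sqrt_of_sq_le
      rw [hn]
      nlinarith [sq_nonneg ‖p2 n‖]
    unfold Qs
    rw [hn]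
    apply inv_anti₀ (by positivity)
    exact mul_le_mul hy (by linarith) (by positivity) (hσ.le.trans hy)
  have hp1 : ∀ n : C2, ‖n‖ = 1 → ‖p1 n‖ ^ 2 ≤ 1 := by
    intro n hn
    have := norm_sq_p n
    rw [hn] at this
    nlinarith [sq_nonneg ‖p2 n‖]
  set D : ℝ := (σ * (1 + σ))⁻¹ with hD
  have hD0 : 0 ≤ D := by positivity
  have hmono := sph_ae_mono (fun n : C2 => Qs σ n * ‖p1 n‖ ^ 2 * t33 h n)
    (fun n : C2 => (tP h n + 1 / 2 * ttt h n) - G n) hfm hrm (D * C + C + C + Cg)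
    (by
      intro n hn
      have a0 := Qs_nonneg σ n
      have a1 := t33_nonneg hs n
      have a2 : 0 ≤ Qs σ n * ‖p1 n‖ ^ 2 * t33 h n := by positivity
      rw [abs_of_nonneg a2]
      have a3 : Qs σ n * ‖p1 n‖ ^ 2 ≤ D * 1 :=
        mul_le_mul (hQb n hn) (hp1 n hn) (by positivity) hD0
      have a4 : Qs σ n * ‖p1 n‖ ^ 2 * t33 h n ≤ (D * 1) * C :=
        mul_le_mul a3 (hC n hn).1 a1 (by positivity)
      linarith)
    (by
      intro n hn
      have b1 := hGb n hn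
      have b2 := (hC n hn).2.1
      have b3 := (hC n hn).2.2.1
      have b4 := tP_nonneg hs n
      have b5 := ttt_nonneg hs n
      have b6 : 0 ≤ D * C := by positivity
      rw [abs_le] at b1 ⊢
      constructor <;> linarith [b1.1, b1.2])
    (by
      intro n hn h1 h2
      show Qs σ n * ‖p1 n‖ ^ 2 * t33 h n ≤ (tP h n + 1 / 2 * ttt h n) - G n
      rw [hGg n hn]
      exact edge_pt hs hσ hn h1 h2)
  refine hmono.trans (le_of_eq ?_)
  have i1 : Integrable (fun n : sphere (0 : C2) 1 => tP h n) ((volume : Measure C2).toSphere) :=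
    sph_integrable_of_bdd _ hP C (fun n hn => by
      rw [abs_of_nonneg (tP_nonneg hs n)]
      exact (hC n hn).2.2.1)
  have i2 : Integrable (fun n : sphere (0 : C2) 1 => 1 / 2 * ttt h n)
      ((volume : Measure C2).toSphere) :=
    (sph_integrable_of_bdd _ ht C (fun n hn => by
      rw [abs_of_nonneg (ttt_nonneg hs n)]
      exact (hC n hn).2.1)).const_mul _
  have i3 : Integrable (fun n : sphere (0 : C2) 1 => G n) ((volume : Measure C2).toSphere) :=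
    sph_integrable_of_bdd _ hGm Cg hGb
  have e1 : Sph (fun n : C2 => (tP h n + 1 / 2 * ttt h n) - G n) =
      Sph (fun n => tP h n + 1 / 2 * ttt h n) - Sph G := integral_sub (i1.add i2) i3
  have e2 : Sph (fun n => tP h n + 1 / 2 * ttt h n) =
      Sph (tP h) + Sph (fun n => 1 / 2 * ttt h n) := integral_add i1 i2
  have e3 : Sph (fun n => 1 / 2 * ttt h n) = 1 / 2 * Sph (ttt h) := integral_const_mul _ _
  have e4 : Sph G = 0 := by
    rw [sph_congr G g hGg]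
    exact edge_div hs hσ
  rw [e1, e2, e3, e4, sub_zero]

end Pool.Agent.HAS.T
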