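import Pool.Agent.HAS.T.TDefs

/-!
# HAS-IsoS: smooth support functions and linear isometries
-/

set_option autoImplicit false

namespace Pool.Agent.HAS.T

open MeasureTheory Metric Set Filter Topology
open Pool.Agent.Helper85.Herm Pool.Agent.Helper85.Cap Pool.Agent.HVM

private theorem isoS_ne (g : C2 ≃ₗᵢ[ℝ] C2) {w : C2} (hw : w ≠ 0) : g w ≠ 0 := by
  intro h
  apply hw
  have h1 := congrArg g.symm h
  rwa [g.symm_apply_apply, map_zero] at h1

private theorem isoS_inner (g : C2 ≃ₗᵢ[ℝ] C2) (a b : C2) :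
    inner ℝ (g.symm a) b = inner ℝ a (g b) := by
  rw [← g.inner_map_map (g.symm a) b, g.apply_symm_apply]

private theorem isoS_nhds {w : C2} (hw : w ≠ 0) : ({0}ᶜ : Set C2) ∈ 𝓝 w :=
  isOpen_compl_singleton.mem_nhds hw

private theorem isoS_fd (g : C2 ≃ₗᵢ[ℝ] C2) (w : C2) :
    HasFDerivAt (fun z : C2 => g z) (g.toContinuousLinearEquiv : C2 →L[ℝ] C2) w :=
  g.toContinuousLinearEquiv.hasFDerivAt

private theorem isoS_grad {h : C2 → ℝ} (hs : SmoothSupp h) (g : C2 ≃ₗᵢ[ℝ] C2) {w : C2}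
    (hw : w ≠ 0) : gradient (fun w => h (g w)) w = g.symm (gradient h (g w)) := by
  have h1 : HasFDerivAt h (InnerProductSpace.toDual ℝ C2 (gradient h (g w))) (g w) :=
    (hs.hasGradientAt (isoS_ne g hw)).hasFDerivAt
  have h2 := HasFDerivAt.comp (f := fun z : C2 => g z) w h1 (isoS_fd g w)
  have h3 : HasGradientAt (fun w => h (g w)) (g.symm (gradient h (g w))) w := by
    rw [hasGradientAt_iff_hasFDerivAt]
    refine h2.congr_fderiv ?_
    ext v
    simp only [ContinuousLinearMap.comp_apply, InnerProductSpace.toDual_apply_apply]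
    exact (isoS_inner g _ _).symm
  exact h3.gradient

private theorem isoS_hess {h : C2 → ℝ} (hs : SmoothSupp h) (g : C2 ≃ₗᵢ[ℝ] C2) {w : C2}
    (hw : w ≠ 0) (x : C2) :
    hess (fun w => h (g w)) w x = g.symm (hess h (g w) (g x)) := by
  have h1 := HasFDerivAt.comp (f := fun z : C2 => g z) w
    (hs.hasFDerivAt_gradient (isoS_ne g hw)) (isoS_fd g w)
  have h2 := HasFDerivAt.comp (f := fun z : C2 => gradient h (g z)) w
    (isoS_fd g.symm (gradient h (g w))) h1
  have h3 : HasFDerivAt (gradient (fun w => h (g w))) _ w :=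
    h2.congr_of_eventuallyEq (by
      filter_upwards [isoS_nhds hw] with z hz
      exact isoS_grad hs g hz)
  unfold hess
  rw [h3.fderiv]
  rfl

theorem smoothSupp_comp {h : C2 → ℝ} (hs : SmoothSupp h) (g : C2 ≃ₗᵢ[ℝ] C2) :
    SmoothSupp (fun w => h (g w)) where
  smooth := hs.smooth.comp g.contDiff.contDiffOn (fun w hw => isoS_ne g hw)
  zero := by rw [map_zero]; exact hs.zero
  homog := fun c w hc => by rw [map_smul]; exact hs.homog c (g w) hc
  pos := fun w hw => hs.pos _ (isoS_ne g hw)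
  sub := fun v w => by rw [map_add]; exact hs.sub _ _
  strict := fun w v hw hvw hv => by
    rw [isoS_hess hs g hw, isoS_inner]
    refine hs.strict (g w) (g v) (isoS_ne g hw) ?_ (isoS_ne g hv)
    rw [g.inner_map_map, hvw]

theorem gradient_comp {h : C2 → ℝ} (hs : SmoothSupp h) (g : C2 ≃ₗᵢ[ℝ] C2) {w : C2} (hw : w ≠ 0) :
    gradient (fun w => h (g w)) w = g.symm (gradient h (g w)) :=
  isoS_grad hs g hw

theorem hess_comp {h : C2 → ℝ} (hs : SmoothSupp h) (g : C2 ≃ₗᵢ[ℝ] C2) {w : C2} (hw : w ≠ 0) (x : C2) :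
    hess (fun w => h (g w)) w x = g.symm (hess h (g w) (g x)) :=
  isoS_hess hs g hw x

theorem wulff_comp (h : C2 → ℝ) (g : C2 ≃ₗᵢ[ℝ] C2) :
    wulff (fun w => h (g w)) = g.symm '' wulff h := by
  ext x
  constructor
  · intro hx
    refine ⟨g x, fun w => ?_, g.symm_apply_apply x⟩
    have h1 := hx (g.symm w)
    simp only [g.apply_symm_apply] at h1
    have h2 : inner ℝ (g x) w = inner ℝ x (g.symm w) := by
      rw [← g.inner_map_map x (g.symm w), g.apply_symm_apply]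
    rw [h2]
    exact h1
  · rintro ⟨y, hy, rfl⟩ w
    rw [isoS_inner]
    exact hy (g w)

private theorem isoS_comp (g : C2 ≃ₗᵢ[ℝ] C2) (M M' : C2 →L[ℝ] C2)
    (hM : ∀ x, M' x = g.symm (M (g x))) : s1 M' = s1 M := by
  have h1 : M' = (g.symm.toContinuousLinearEquiv : C2 →L[ℝ] C2) ∘L
      (M ∘L (g.toContinuousLinearEquiv : C2 →L[ℝ] C2)) := by
    ext1 x
    exact hM x
  have h2 : (M ∘L (g.toContinuousLinearEquiv : C2 →L[ℝ] C2)) ∘L
      (g.symm.toContinuousLinearEquiv : C2 →L[ℝ] C2) = M := by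
    ext1 x
    exact congrArg M (g.apply_symm_apply x)
  rw [h1, newt_s1_comm, h2]

private theorem isoS_sq (g : C2 ≃ₗᵢ[ℝ] C2) (M M' : C2 →L[ℝ] C2)
    (hM : ∀ x, M' x = g.symm (M (g x))) (x : C2) : (M' ∘L M') x = g.symm ((M ∘L M) (g x)) := by
  change M' (M' x) = g.symm (M (M (g x)))
  rw [hM, hM x, g.apply_symm_apply]

theorem s2_conj (g : C2 ≃ₗᵢ[ℝ] C2) (M M' : C2 →L[ℝ] C2) (hM : ∀ x, M' x = g.symm (M (g x))) :
    s2 M' = s2 M := by
  unfold s2
  rw [isoS_comp g M M' hM, isoS_comp g (M ∘L M) (M' ∘L M') (isoS_sq g M M' hM)]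

theorem NT_conj (g : C2 ≃ₗᵢ[ℝ] C2) (M M' : C2 →L[ℝ] C2) (hM : ∀ x, M' x = g.symm (M (g x))) (x : C2) :
    NT M' x = g.symm (NT M (g x)) := by
  have h1 : ∀ (N : C2 →L[ℝ] C2) (y : C2), NT N y = s2 N • y - s1 N • N y + (N ∘L N) y := by
    intro N y
    rfl
  rw [h1, h1, s2_conj g M M' hM, isoS_comp g M M' hM, isoS_sq g M M' hM, hM, map_add, map_sub,
    map_smul, map_smul, g.symm_apply_apply]

/-- the image of a body under a linear isometry -/
noncomputable def gB (g : C2 ≃ₗᵢ[ℝ] C2) (K : Body) : Body where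
  carrier := g '' pts K
  convex' := K.convex.linear_image (g.toLinearEquiv : C2 →ₗ[ℝ] C2)
  isCompact' := K.isCompact.image g.continuous
  nonempty' := K.nonempty.image _

theorem pts_gB (g : C2 ≃ₗᵢ[ℝ] C2) (K : Body) : pts (gB g K) = g '' pts K := rfl

theorem gB_continuous (g : C2 ≃ₗᵢ[ℝ] C2) : Continuous (gB g) := by
  apply Isometry.continuous
  apply Isometry.of_dist_eq
  intro K L
  rw [← ConvexBody.hausdorffDist_coe, ← ConvexBody.hausdorffDist_coe]
  exact Metric.hausdorffDist_image g.isometry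

end Pool.Agent.HAS.T
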