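import Pool.Agent.HAS.T.Chg
import Pool.Agent.HAS.T.IsoS

/-!
# HAS-Swp: the second shadow, by exchanging the coordinates
-/

set_option autoImplicit false

namespace Pool.Agent.HAS.T

open MeasureTheory Metric Set Filter Topology
open Pool.Agent.Helper85.Herm Pool.Agent.Helper85.Cap Pool.Agent.HVM

private noncomputable def swL : C2 ≃ₗᵢ[ℝ] C2 where
  toLinearEquiv :=
    { toFun := fun w => mk (p2 w) (p1 w)
      map_add' := fun x y => by
        rw [mk_add, p1_add, p2_add]
      map_smul' := fun c x => by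
        rw [RingHom.id_apply, mk_smul, p1_smul, p2_smul]
      invFun := fun w => mk (p2 w) (p1 w)
      left_inv := fun x => by
        change mk (p2 (mk (p2 x) (p1 x))) (p1 (mk (p2 x) (p1 x))) = x
        rw [p1_mk, p2_mk, mk_p]
      right_inv := fun x => by
        change mk (p2 (mk (p2 x) (p1 x))) (p1 (mk (p2 x) (p1 x))) = x
        rw [p1_mk, p2_mk, mk_p] }
  norm_map' := fun x => by
    have h1 : ‖mk (p2 x) (p1 x)‖ ^ 2 = ‖x‖ ^ 2 := by
      rw [norm_mk_sq, norm_sq_p, add_comm]
    exact (pow_left_inj₀ (norm_nonneg _) (norm_nonneg _) two_ne_zero).1 h1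

theorem exists_swp : ∃ g : C2 ≃ₗᵢ[ℝ] C2, ∀ v y : ℂ, g (mk v y) = mk y v := by
  refine ⟨swL, fun v y => ?_⟩
  change mk (p2 (mk v y)) (p1 (mk v y)) = mk y v
  rw [p1_mk, p2_mk]

theorem area_sh2 {h : C2 → ℝ} (hs : SmoothSupp h) (K : Body) (hK : pts K = wulff h) :
    Sph (ttt h) = 2 * Real.pi * (volume (sh2 K)).toReal := by
  obtain ⟨g, hg⟩ := exists_swp
  have hg1 : ∀ w : C2, p1 (g w) = p2 w := fun w => by
    conv_lhs => rw [← mk_p w, hg, p1_mk]
  have hgs : ∀ w : C2, p1 (g.symm w) = p2 w := fun w => by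
    have h1 : g.symm w = mk (p2 w) (p1 w) := by
      rw [LinearIsometryEquiv.symm_apply_eq, hg, mk_p]
    rw [h1, p1_mk]
  have hK' : pts (gB g.symm K) = wulff (fun w => h (g w)) := by
    rw [pts_gB, hK, wulff_comp]
  have hsh : sh1 (gB g.symm K) = sh2 K := by
    unfold sh1 sh2
    rw [pts_gB, image_image]
    exact image_congr fun x _ => hgs x
  have h1 := area_sh1 (smoothSupp_comp hs g) (gB g.symm K) hK'
  rw [hsh] at h1
  rw [← h1]
  have h2 : Sph (t33 fun w => h (g w)) = Sph (fun n => ttt h (g n)) := by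
    refine sph_congr _ _ fun n hn => ?_
    have hn0 : n ≠ 0 := by
      rintro rfl
      rw [norm_zero] at hn
      exact zero_ne_one hn
    have h3 : ∀ x, TH (fun w => h (g w)) n x = g.symm (TH h (g n) (g x)) := fun x =>
      NT_conj g (hess h (g n)) (hess (fun w => h (g w)) n) (fun x => hess_comp hs g hn0 x) x
    unfold t33 ttt
    rw [h3, LinearIsometryEquiv.inner_map_eq_flip, LinearIsometryEquiv.symm_symm, hg, hg1]
  rw [h2]
  exact (sph_isom g (ttt h) (-2) fun c w hc hw => ttt_smul hs c w hc hw).symm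

end Pool.Agent.HAS.T
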