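import Pool.Agent.HAS.T.Ed3
import Pool.Agent.HAS.T.Swp

/-!
# HAS-Ed4: the edge inequality over the shadow
-/

set_option autoImplicit false

namespace Pool.Agent.HAS.T

open MeasureTheory Metric Set Filter Topology
open Pool.Agent.Helper85.Herm Pool.Agent.Helper85.Cap Pool.Agent.HVM

/-- the integrand of the edge inequality -/
noncomputable def psi (σ m : ℝ) : ℝ :=
  m ^ 2 / (Real.sqrt (1 + σ ^ 2 * (1 + m ^ 2)) *
    (Real.sqrt (1 + m ^ 2) + Real.sqrt (1 + σ ^ 2 * (1 + m ^ 2))))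

private theorem ed4_Qs_measurable (σ : ℝ) : Measurable (Qs σ) := by
  have h1 : Continuous (ys σ) := by
    unfold ys
    exact Real.continuous_sqrt.comp (((continuous_p2.norm).pow 2).add
      (continuous_const.mul (continuous_norm.pow 2)))
  unfold Qs
  exact (h1.mul (continuous_norm.add h1)).measurable.inv

private theorem ed4_Qs_le {σ : ℝ} (hσ : 0 < σ) {n : C2} (hn : ‖n‖ = 1) : Qs σ n ≤ (σ * σ)⁻¹ := by
  have h1 : σ ≤ ys σ n := by
    unfold ys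
    refine Real.le_sqrt_of_sq_le ?_
    rw [hn]
    nlinarith [sq_nonneg ‖p2 n‖]
  unfold Qs
  refine inv_anti₀ (by positivity) ?_
  rw [hn]
  exact mul_le_mul h1 (by linarith) hσ.le (le_trans hσ.le h1)

private theorem ed4_p1_le {n : C2} (hn : ‖n‖ = 1) : ‖p1 n‖ ^ 2 ≤ 1 := by
  have h1 := norm_sq_p n
  rw [hn] at h1
  nlinarith [sq_nonneg ‖p2 n‖]

private theorem ed4_Qs_mk (σ θ : ℝ) (v : ℂ) :
    Qs σ (mk v (ee θ)) * ‖v‖ ^ 2 = psi σ ‖v‖ := by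
  have h1 : ‖mk v (ee θ)‖ ^ 2 = 1 + ‖v‖ ^ 2 := by
    rw [norm_mk_sq, norm_ee]
    ring
  have h2 : ‖mk v (ee θ)‖ = Real.sqrt (1 + ‖v‖ ^ 2) := by
    rw [← h1, Real.sqrt_sq (norm_nonneg _)]
  unfold Qs ys psi
  rw [h1, h2, p2_mk, norm_ee, one_pow, div_eq_mul_inv, mul_comm]

theorem edge_lint {h : C2 → ℝ} (hs : SmoothSupp h) (K : Body) (hK : pts K = wulff h) {σ : ℝ} (hσ : 0 < σ) :
    ENNReal.ofReal (Sph (fun n => Qs σ n * ‖p1 n‖ ^ 2 * t33 h n)) =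
      ∫⁻ θ in Ioc (0 : ℝ) (2 * Real.pi), ∫⁻ z in interior (sh1 K),
        ENNReal.ofReal (psi σ ‖Vt h (z, θ)‖) := by
  obtain ⟨C, hC0, hC⟩ := exists_bound hs
  have h1 := sph_eq (fun w => Qs σ w * ‖p1 w‖ ^ 2 * t33 h w)
    (((ed4_Qs_measurable σ).mul (continuous_p1.norm.pow 2).measurable).mul (t33_measurable hs))
    (fun c w hc hw => by
      show Qs σ (c • w) * ‖p1 (c • w)‖ ^ 2 * t33 h (c • w) =
        c ^ (-2 : ℤ) * (Qs σ w * ‖p1 w‖ ^ 2 * t33 h w)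
      rw [Qs_smul σ c w hc, t33_smul hs c w hc hw, p1_smul, norm_smul, Real.norm_of_nonneg hc.le,
        mul_pow, zpow_neg]
      have hc' : c ^ (2 : ℤ) = c ^ 2 := by norm_cast
      rw [hc']
      field_simp)
    (fun w => mul_nonneg (mul_nonneg (Qs_nonneg σ w) (sq_nonneg _)) (t33_nonneg hs w))
    ((σ * σ)⁻¹ * 1 * |C|) (fun n hn => by
      show Qs σ n * ‖p1 n‖ ^ 2 * t33 h n ≤ (σ * σ)⁻¹ * 1 * |C|
      refine mul_le_mul (mul_le_mul (ed4_Qs_le hσ hn) (ed4_p1_le hn) (sq_nonneg _)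
        (by positivity)) (le_trans (hC n hn).1 (le_abs_self C)) (t33_nonneg hs n) (by positivity))
  rw [h1]
  refine lintegral_congr fun θ => ?_
  rw [← cov hs K hK (ee_ne θ)]
  refine lintegral_congr fun v => ?_
  have hV : Vt h (zm h (ee θ) v, θ) = v := Vt_zm hs θ v
  rw [← ENNReal.ofReal_mul (zmD_det_pos hs (ee_ne θ) v).le, hV]
  congr 1
  show Qs σ (mk v (ee θ)) * ‖p1 (mk v (ee θ))‖ ^ 2 * t33 h (mk v (ee θ)) / (1 + ‖v‖ ^ 2) = _
  rw [p1_mk, ed4_Qs_mk, t33_mk hs]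
  have h4 : (1 : ℝ) + ‖v‖ ^ 2 ≠ 0 := by positivity
  field_simp

theorem edge_bound {h : C2 → ℝ} (hs : SmoothSupp h) (K : Body) (hK : pts K = wulff h) {σ : ℝ} (hσ : 0 < σ) :
    ∫⁻ θ in Ioc (0 : ℝ) (2 * Real.pi), ∫⁻ z in interior (sh1 K),
        ENNReal.ofReal (psi σ ‖Vt h (z, θ)‖) ≤
      ENNReal.ofReal (2 * Real.pi * F K + Real.pi * (volume (sh2 K)).toReal) := by
  rw [← edge_lint hs K hK hσ]
  apply ENNReal.ofReal_le_ofReal
  have h1 := edge_sph hs hσ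
  rw [area_sh2 hs K hK, ← F_smooth hs K hK] at h1
  linarith

end Pool.Agent.HAS.T
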