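import Pool.Agent.HAS.T.Ed4

/-!
# HAS-Ed5: the limit `σ → 0` in the edge inequality (Fatou)
-/

set_option autoImplicit false

namespace Pool.Agent.HAS.T

open MeasureTheory Metric Set Filter Topology
open Pool.Agent.Helper85.Herm Pool.Agent.Helper85.Cap Pool.Agent.HVM

theorem psi_nonneg (σ m : ℝ) : 0 ≤ psi σ m := by
  unfold psi
  exact div_nonneg (sq_nonneg _) (mul_nonneg (Real.sqrt_nonneg _)
    (add_nonneg (Real.sqrt_nonneg _) (Real.sqrt_nonneg _)))

theorem psi_tendsto (m : ℝ) : Tendsto (fun k : ℕ => psi (1 / ((k : ℝ) + 1)) m) atTop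
    (𝓝 (Real.sqrt (1 + m ^ 2) - 1)) := by
  have h0 : 0 ≤ Real.sqrt (1 + m ^ 2) := Real.sqrt_nonneg _
  have hsq : Real.sqrt (1 + m ^ 2) ^ 2 = 1 + m ^ 2 := Real.sq_sqrt (by positivity)
  have hc : ContinuousAt (fun σ : ℝ => psi σ m) 0 := by
    unfold psi
    refine ContinuousAt.div continuousAt_const (by fun_prop) ?_
    simp only [ne_eq, OfNat.ofNat_ne_zero, not_false_eq_true, zero_pow, zero_mul, add_zero,
      Real.sqrt_one, one_mul]
    positivity
  have hv : psi 0 m = Real.sqrt (1 + m ^ 2) - 1 := by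
    unfold psi
    simp only [ne_eq, OfNat.ofNat_ne_zero, not_false_eq_true, zero_pow, zero_mul, add_zero,
      Real.sqrt_one, one_mul]
    rw [div_eq_iff (by positivity)]
    nlinarith
  have h1 : Tendsto (fun σ : ℝ => psi σ m) (𝓝 0) (𝓝 (Real.sqrt (1 + m ^ 2) - 1)) := by
    rw [← hv]
    exact hc
  exact h1.comp tendsto_one_div_add_atTop_nhds_zero_nat

/-- joint measurability of functions of `Vt` on the shadow -/
theorem Vt_aemeasurable {h : C2 → ℝ} (hs : SmoothSupp h) (K : Body) (hK : pts K = wulff h)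
    (f : ℂ → ENNReal) (hf : Measurable f) :
    AEMeasurable (fun q : ℝ × ℂ => f (Vt h (q.2, q.1)))
      ((volume.restrict (Ioc (0 : ℝ) (2 * Real.pi))).prod (volume.restrict (interior (sh1 K)))) := by
  rw [Measure.prod_restrict]
  refine hf.comp_aemeasurable (ContinuousOn.aemeasurable ?_
    (measurableSet_Ioc.prod isOpen_interior.measurableSet))
  refine (Vt_contDiffOn hs K hK).continuousOn.comp (by fun_prop) ?_
  rintro ⟨θ, z⟩ ⟨_, hz⟩
  exact ⟨hz, mem_univ _⟩

theorem edge_lim {h : C2 → ℝ} (hs : SmoothSupp h) (K : Body) (hK : pts K = wulff h) :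
    ∫⁻ θ in Ioc (0 : ℝ) (2 * Real.pi), ∫⁻ z in interior (sh1 K),
        ENNReal.ofReal (Real.sqrt (1 + ‖Vt h (z, θ)‖ ^ 2) - 1) ≤
      ENNReal.ofReal (2 * Real.pi * F K + Real.pi * (volume (sh2 K)).toReal) := by
  have hm0 : Measurable fun v : ℂ => ENNReal.ofReal (Real.sqrt (1 + ‖v‖ ^ 2) - 1) := by
    refine ENNReal.measurable_ofReal.comp ?_
    exact (by fun_prop : Continuous fun v : ℂ => Real.sqrt (1 + ‖v‖ ^ 2) - 1).measurable
  have hmk : ∀ k : ℕ, Measurable fun v : ℂ => ENNReal.ofReal (psi (1 / ((k : ℝ) + 1)) ‖v‖) := by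
    intro k
    refine ENNReal.measurable_ofReal.comp ?_
    unfold psi
    fun_prop
  have e0 := lintegral_prod (μ := volume.restrict (Ioc (0 : ℝ) (2 * Real.pi)))
    (ν := volume.restrict (interior (sh1 K))) _
    (Vt_aemeasurable hs K hK (fun v : ℂ => ENNReal.ofReal (Real.sqrt (1 + ‖v‖ ^ 2) - 1)) hm0)
  have ek := fun k : ℕ => lintegral_prod (μ := volume.restrict (Ioc (0 : ℝ) (2 * Real.pi)))
    (ν := volume.restrict (interior (sh1 K))) _
    (Vt_aemeasurable hs K hK (fun v : ℂ => ENNReal.ofReal (psi (1 / ((k : ℝ) + 1)) ‖v‖)) (hmk k))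
  refine (le_of_eq e0.symm).trans ?_
  have hpt : ∀ q : ℝ × ℂ, ENNReal.ofReal (Real.sqrt (1 + ‖Vt h (q.2, q.1)‖ ^ 2) - 1) =
      liminf (fun k : ℕ => ENNReal.ofReal (psi (1 / ((k : ℝ) + 1)) ‖Vt h (q.2, q.1)‖)) atTop :=
    fun q => ((ENNReal.continuous_ofReal.tendsto _).comp
      (psi_tendsto ‖Vt h (q.2, q.1)‖)).liminf_eq.symm
  calc ∫⁻ q, ENNReal.ofReal (Real.sqrt (1 + ‖Vt h (q.2, q.1)‖ ^ 2) - 1)
        ∂((volume.restrict (Ioc (0 : ℝ) (2 * Real.pi))).prod (volume.restrict (interior (sh1 K))))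
      = ∫⁻ q, liminf (fun k : ℕ => ENNReal.ofReal (psi (1 / ((k : ℝ) + 1)) ‖Vt h (q.2, q.1)‖)) atTop
        ∂((volume.restrict (Ioc (0 : ℝ) (2 * Real.pi))).prod
          (volume.restrict (interior (sh1 K)))) := lintegral_congr hpt
    _ ≤ liminf (fun k : ℕ => ∫⁻ q, ENNReal.ofReal (psi (1 / ((k : ℝ) + 1)) ‖Vt h (q.2, q.1)‖)
        ∂((volume.restrict (Ioc (0 : ℝ) (2 * Real.pi))).prod
          (volume.restrict (interior (sh1 K))))) atTop :=
        lintegral_liminf_le' fun k => Vt_aemeasurable hs K hK _ (hmk k)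
    _ ≤ _ := by
        refine liminf_le_of_frequently_le' (Frequently.of_forall fun k => ?_)
        refine (le_of_eq (ek k)).trans ?_
        exact edge_bound hs K hK (by positivity)

end Pool.Agent.HAS.T
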