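import Pool.Agent.HAS.T.Ed5
import Pool.Agent.HAS.T.Cf

/-!
# HAS-Ed6: the energy bound up to the edge (Jensen, Tonelli, `edge_lim`)
-/

set_option autoImplicit false

namespace Pool.Agent.HAS.T

open MeasureTheory Metric Set Filter Topology
open Pool.Agent.Helper85.Herm Pool.Agent.Helper85.Cap Pool.Agent.HVM

private theorem ofReal_int_le {α : Type*} [MeasurableSpace α] (μ : Measure α) (f : α → ℝ)
    (hf : ∀ a, 0 ≤ f a) : ENNReal.ofReal (∫ a, f a ∂μ) ≤ ∫⁻ a, ENNReal.ofReal (f a) ∂μ := by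
  by_cases hI : Integrable f μ
  · exact (ofReal_integral_eq_lintegral_ofReal hI (ae_of_all _ hf)).le
  · rw [integral_undef hI, ENNReal.ofReal_zero]
    exact zero_le

private theorem sq_nn (m : ℝ) : 0 ≤ Real.sqrt (1 + m ^ 2) - 1 := by
  have h1 : Real.sqrt 1 ≤ Real.sqrt (1 + m ^ 2) := Real.sqrt_le_sqrt (by nlinarith [sq_nonneg m])
  rw [Real.sqrt_one] at h1
  linarith

theorem energy_edge' {h : C2 → ℝ} (hs : SmoothSupp h) (K : Body) (hK : pts K = wulff h) :
    IntegrableOn (fun z => Real.sqrt (1 + ‖gradient (cf K) z‖ ^ 2) - 1) (interior (sh1 K)) ∧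
    ∫ z in interior (sh1 K), (Real.sqrt (1 + ‖gradient (cf K) z‖ ^ 2) - 1) ≤
      F K + (volume (sh2 K)).toReal / 2 := by
  have hpi := Real.pi_pos
  have hF : 0 ≤ F K := (muab_nonneg K).1
  have hS : 0 ≤ (volume (sh2 K)).toReal := ENNReal.toReal_nonneg
  have hmeas : MeasurableSet (interior (sh1 K)) := isOpen_interior.measurableSet
  -- the pointwise bound
  have h1 : ∀ z ∈ interior (sh1 K), ENNReal.ofReal (Real.sqrt (1 + ‖gradient (cf K) z‖ ^ 2) - 1) ≤
      ENNReal.ofReal (2 * Real.pi)⁻¹ * ∫⁻ θ in Ioc (0 : ℝ) (2 * Real.pi),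
        ENNReal.ofReal (Real.sqrt (1 + ‖Vt h (z, θ)‖ ^ 2) - 1) := by
    intro z hz
    have h2 := jensen_cf hs K hK hz
    rw [intervalIntegral.integral_of_le (by positivity)] at h2
    refine (ENNReal.ofReal_le_ofReal h2).trans ?_
    rw [ENNReal.ofReal_mul (by positivity)]
    exact mul_le_mul_right (ofReal_int_le _ _ fun θ => sq_nn _) _
  have h3 : ∫⁻ z in interior (sh1 K),
      ENNReal.ofReal (Real.sqrt (1 + ‖gradient (cf K) z‖ ^ 2) - 1) ≤
      ENNReal.ofReal (F K + (volume (sh2 K)).toReal / 2) := by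
    calc ∫⁻ z in interior (sh1 K), ENNReal.ofReal (Real.sqrt (1 + ‖gradient (cf K) z‖ ^ 2) - 1)
        ≤ ∫⁻ z in interior (sh1 K), ENNReal.ofReal (2 * Real.pi)⁻¹ *
          ∫⁻ θ in Ioc (0 : ℝ) (2 * Real.pi),
          ENNReal.ofReal (Real.sqrt (1 + ‖Vt h (z, θ)‖ ^ 2) - 1) := setLIntegral_mono' hmeas h1
      _ = ENNReal.ofReal (2 * Real.pi)⁻¹ * ∫⁻ z in interior (sh1 K),
          ∫⁻ θ in Ioc (0 : ℝ) (2 * Real.pi),
          ENNReal.ofReal (Real.sqrt (1 + ‖Vt h (z, θ)‖ ^ 2) - 1) :=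
          lintegral_const_mul' _ _ ENNReal.ofReal_ne_top
      _ = ENNReal.ofReal (2 * Real.pi)⁻¹ * ∫⁻ θ in Ioc (0 : ℝ) (2 * Real.pi),
          ∫⁻ z in interior (sh1 K),
          ENNReal.ofReal (Real.sqrt (1 + ‖Vt h (z, θ)‖ ^ 2) - 1) := by
          congr 1
          refine (lintegral_lintegral_swap (f := fun (θ : ℝ) (z : ℂ) =>
            ENNReal.ofReal (Real.sqrt (1 + ‖Vt h (z, θ)‖ ^ 2) - 1)) ?_).symm
          exact Vt_aemeasurable hs K hK (fun v => ENNReal.ofReal (Real.sqrt (1 + ‖v‖ ^ 2) - 1))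
            (by fun_prop)
      _ ≤ ENNReal.ofReal (2 * Real.pi)⁻¹ *
          ENNReal.ofReal (2 * Real.pi * F K + Real.pi * (volume (sh2 K)).toReal) :=
          mul_le_mul_right (edge_lim hs K hK) _
      _ = ENNReal.ofReal (F K + (volume (sh2 K)).toReal / 2) := by
          rw [← ENNReal.ofReal_mul (by positivity)]
          congr 1
          field_simp
  have hcont : ContinuousOn (fun z => Real.sqrt (1 + ‖gradient (cf K) z‖ ^ 2) - 1)
      (interior (sh1 K)) := by
    have h4 : ContinuousOn (fun z => fderiv ℝ (cf K) z) (interior (sh1 K)) :=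
      (cf_contDiffOn' hs K hK).continuousOn_fderiv_of_isOpen isOpen_interior (by norm_num)
    have h5 : ∀ z, ‖gradient (cf K) z‖ = ‖fderiv ℝ (cf K) z‖ := by
      intro z
      unfold gradient
      exact LinearIsometryEquiv.norm_map _ _
    simp only [h5]
    exact ((continuousOn_const.add (h4.norm.pow 2)).sqrt).sub continuousOn_const
  have haem : AEStronglyMeasurable (fun z => Real.sqrt (1 + ‖gradient (cf K) z‖ ^ 2) - 1)
      (volume.restrict (interior (sh1 K))) := hcont.aestronglyMeasurable hmeas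
  have hnn : 0 ≤ᵐ[volume.restrict (interior (sh1 K))]
      (fun z => Real.sqrt (1 + ‖gradient (cf K) z‖ ^ 2) - 1) := ae_of_all _ fun z => sq_nn _
  constructor
  · refine ⟨haem, ?_⟩
    rw [hasFiniteIntegral_iff_ofReal hnn]
    exact h3.trans_lt ENNReal.ofReal_lt_top
  · rw [integral_eq_lintegral_of_nonneg_ae hnn haem]
    have h6 := ENNReal.toReal_mono ENNReal.ofReal_ne_top h3
    rw [ENNReal.toReal_ofReal (by positivity)] at h6
    exact h6

end Pool.Agent.HAS.T
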