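import Pool.Agent.HAS.T.TDefs

/-!
# HAS-Leg1: the map `zm h y : v ↦ z = p1 (gradient h (mk v y))` for fixed `y ≠ 0`: derivative
-/


set_option autoImplicit false

namespace Pool.Agent.HAS.T

open MeasureTheory Metric Set Filter Topology
open Pool.Agent.Helper85.Herm Pool.Agent.Helper85.Cap Pool.Agent.HVM

private theorem lg_mk (y v : ℂ) : HasFDerivAt (fun v => mk v y) i1L v := by
  have h : (fun v => mk v y) = fun v => i1L v + i2L y := by
    funext v
    exact mk_eq _ _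
  rw [h]
  exact i1L.hasFDerivAt.add_const _

private theorem lg_mk2 (p : ℂ × ℂ) : HasFDerivAt (fun p : ℂ × ℂ => mk p.1 p.2)
    (i1L ∘L ContinuousLinearMap.fst ℝ ℂ ℂ + i2L ∘L ContinuousLinearMap.snd ℝ ℂ ℂ) p := by
  have h : (fun p : ℂ × ℂ => mk p.1 p.2) = fun p => i1L p.1 + i2L p.2 := by
    funext p
    exact mk_eq _ _
  rw [h]
  exact (i1L.hasFDerivAt.comp p hasFDerivAt_fst).add (i2L.hasFDerivAt.comp p hasFDerivAt_snd)

private theorem lg_one (z : ℂ) : (inner ℝ z (1 : ℂ) : ℝ) = z.re := by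
  rw [inner_c]
  simp

private theorem lg_I (z : ℂ) : (inner ℝ z Complex.I : ℝ) = z.im := by
  rw [inner_c]
  simp

theorem zm_hasFDerivAt {h : C2 → ℝ} (hs : SmoothSupp h) {y : ℂ} (hy : y ≠ 0) (v : ℂ) :
    HasFDerivAt (zm h y) (zmD h y v) v := by
  have h1 := (hs.hasFDerivAt_gradient (mk_ne_zero v hy)).comp v (lg_mk y v)
  exact p1L.hasFDerivAt.comp v h1

theorem zm_contDiff {h : C2 → ℝ} (hs : SmoothSupp h) {y : ℂ} (hy : y ≠ 0) :
    ContDiff ℝ 2 (zm h y) := by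
  have h1 : ContDiff ℝ 2 (fun v => mk v y) := by
    have h2 : (fun v => mk v y) = fun v => i1L v + i2L y := by
      funext v
      exact mk_eq _ _
    rw [h2]
    exact i1L.contDiff.add contDiff_const
  exact p1L.contDiff.comp (hs.gradient_contDiffOn.comp_contDiff h1 fun v => mk_ne_zero v hy)

theorem zm2_contDiffOn {h : C2 → ℝ} (hs : SmoothSupp h) :
    ContDiffOn ℝ 2 (fun p : ℂ × ℂ => zm h p.2 p.1) (univ ×ˢ {0}ᶜ) := by
  have h1 : ContDiffOn ℝ 2 (fun p : ℂ × ℂ => gradient h (mk p.1 p.2)) (univ ×ˢ {0}ᶜ) :=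
    hs.gradient_contDiffOn.comp contDiff_mk.contDiffOn fun p hp => mk_ne_zero p.1 hp.2
  exact p1L.contDiff.comp_contDiffOn h1

/-- the derivative of `(v, y) ↦ zm h y v` -/
theorem zm2_hasFDerivAt {h : C2 → ℝ} (hs : SmoothSupp h) {y : ℂ} (hy : y ≠ 0) (v : ℂ) :
    ∃ D : ℂ × ℂ →L[ℝ] ℂ, HasFDerivAt (fun p : ℂ × ℂ => zm h p.2 p.1) D (v, y) ∧
      ∀ u u' : ℂ, D (u, u') = zmD h y v u + p1 (hess h (mk v y) (mk 0 u')) := by
  have h1 := (hs.hasFDerivAt_gradient (mk_ne_zero v hy)).comp (v, y) (lg_mk2 (v, y))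
  refine ⟨_, p1L.hasFDerivAt.comp (v, y) h1, fun u u' => ?_⟩
  show p1 (hess h (mk v y) (mk u 0 + mk 0 u')) = p1 (hess h (mk v y) (mk u 0)) +
    p1 (hess h (mk v y) (mk 0 u'))
  rw [map_add, p1_add]

theorem zmD_inner (h : C2 → ℝ) (y v a b : ℂ) :
    (inner ℝ (zmD h y v a) b : ℝ) = inner ℝ (hess h (mk v y) (mk a 0)) (mk b 0) := by
  rw [inner_mk_right, inner_zero_right, add_zero]
  rfl

theorem zmD_symm {h : C2 → ℝ} (hs : SmoothSupp h) {y : ℂ} (hy : y ≠ 0) (v a b : ℂ) :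
    (inner ℝ (zmD h y v a) b : ℝ) = inner ℝ a (zmD h y v b) := by
  rw [zmD_inner, hs.hess_symm (mk_ne_zero v hy), real_inner_comm, ← zmD_inner, real_inner_comm]

theorem zmD_pos {h : C2 → ℝ} (hs : SmoothSupp h) {y : ℂ} (hy : y ≠ 0) (v : ℂ) {u : ℂ} (hu : u ≠ 0) :
    (0 : ℝ) < inner ℝ (zmD h y v u) u := by
  rw [zmD_inner]
  have hw : mk v y ≠ 0 := mk_ne_zero v hy
  obtain ⟨c, x, hx, hxw⟩ := calc_decomp hw (mk u 0)
  rw [hx, calc_hess_decomp hs hw]
  refine hs.strict _ _ hw hxw ?_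
  intro h0
  rw [h0, add_zero, mk_smul] at hx
  have h2 := congrArg p2 hx
  rw [p2_mk, p2_mk] at h2
  have h3 : c = 0 := by
    rcases smul_eq_zero.1 h2.symm with h4 | h4
    · exact h4
    · exact absurd h4 hy
  have h1 := congrArg p1 hx
  rw [p1_mk, p1_mk, h3, zero_smul] at h1
  exact hu h1

theorem zmD_apply {h : C2 → ℝ} (hs : SmoothSupp h) {y : ℂ} (hy : y ≠ 0) (v u : ℂ) :
    (zmD h y v u).re = a11 (hess h (mk v y)) * u.re + a12 (hess h (mk v y)) * u.im ∧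
    (zmD h y v u).im = a12 (hess h (mk v y)) * u.re + a22 (hess h (mk v y)) * u.im := by
  have hu : u = u.re • (1 : ℂ) + u.im • Complex.I := by
    apply Complex.ext <;> simp
  have h1 : zmD h y v u = u.re • zmD h y v 1 + u.im • zmD h y v Complex.I := by
    conv_lhs => rw [hu]
    rw [map_add, map_smul, map_smul]
  have e11 : (zmD h y v 1).re = a11 (hess h (mk v y)) := by
    rw [← lg_one, zmD_inner]
    rfl
  have e12 : (zmD h y v 1).im = a12 (hess h (mk v y)) := by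
    rw [← lg_I, zmD_inner]
    rfl
  have e21 : (zmD h y v Complex.I).re = a12 (hess h (mk v y)) := by
    rw [← lg_one, zmD_symm hs hy, real_inner_comm, zmD_inner]
    rfl
  have e22 : (zmD h y v Complex.I).im = a22 (hess h (mk v y)) := by
    rw [← lg_I, zmD_inner]
    rfl
  rw [h1, Complex.add_re, Complex.add_im, Complex.smul_re, Complex.smul_re, Complex.smul_im,
    Complex.smul_im, smul_eq_mul, smul_eq_mul, smul_eq_mul, smul_eq_mul, e11, e12, e21, e22]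
  exact ⟨by ring, by ring⟩

theorem zmD_det {h : C2 → ℝ} (hs : SmoothSupp h) {y : ℂ} (hy : y ≠ 0) (v : ℂ) :
    (zmD h y v).det = a11 (hess h (mk v y)) * a22 (hess h (mk v y)) - a12 (hess h (mk v y)) ^ 2 := by
  obtain ⟨e1, e2⟩ := zmD_apply hs hy v 1
  obtain ⟨e3, e4⟩ := zmD_apply hs hy v Complex.I
  rw [Complex.one_re, Complex.one_im, mul_one, mul_zero, add_zero] at e1 e2
  rw [Complex.I_re, Complex.I_im, mul_zero, mul_one, zero_add] at e3 e4
  have h1 : (zmD h y v).det = LinearMap.det (zmD h y v : ℂ →ₗ[ℝ] ℂ) := rfl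
  rw [h1, ← LinearMap.det_toMatrix Complex.basisOneI, Matrix.det_fin_two]
  simp only [LinearMap.toMatrix_apply, Complex.coe_basisOneI, Complex.coe_basisOneI_repr,
    Matrix.cons_val_zero, Matrix.cons_val_one, ContinuousLinearMap.coe_coe]
  rw [e1, e2, e3, e4]
  ring

theorem det_pos {h : C2 → ℝ} (hs : SmoothSupp h) {y : ℂ} (hy : y ≠ 0) (v : ℂ) :
    0 < a11 (hess h (mk v y)) * a22 (hess h (mk v y)) - a12 (hess h (mk v y)) ^ 2 := by
  have h11 : 0 < a11 (hess h (mk v y)) := by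
    have h1 := zmD_pos hs hy v (one_ne_zero : (1 : ℂ) ≠ 0)
    rw [zmD_inner] at h1
    exact h1
  have hu : (⟨-a12 (hess h (mk v y)), a11 (hess h (mk v y))⟩ : ℂ) ≠ 0 := by
    intro h0
    have h1 := congrArg Complex.im h0
    exact h11.ne' h1
  have h1 := zmD_pos hs hy v hu
  obtain ⟨e1, e2⟩ := zmD_apply hs hy v ⟨-a12 (hess h (mk v y)), a11 (hess h (mk v y))⟩
  rw [inner_c, e1, e2] at h1
  have h2 : 0 < a11 (hess h (mk v y)) *
      (a11 (hess h (mk v y)) * a22 (hess h (mk v y)) - a12 (hess h (mk v y)) ^ 2) := by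
    refine lt_of_lt_of_eq h1 ?_
    ring
  exact (mul_pos_iff_of_pos_left h11).1 h2

end Pool.Agent.HAS.T
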