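import Pool.Agent.HAS.T.Leg1

/-!
# HAS-Leg2: `zm h y` is a bijection of `ℂ` onto the interior of the shadow
-/

set_option autoImplicit false

namespace Pool.Agent.HAS.T

open MeasureTheory Metric Set Filter Topology
open Pool.Agent.Helper85.Herm Pool.Agent.Helper85.Cap Pool.Agent.HVM

theorem zm_injective {h : C2 → ℝ} (hs : SmoothSupp h) {y : ℂ} (hy : y ≠ 0) :
    Function.Injective (zm h y) := by
  intro v v' hvv
  have hw := mk_ne_zero v hy
  have hw' := mk_ne_zero v' hy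
  obtain ⟨X, hX⟩ : ∃ X, X = gradient h (mk v y) := ⟨_, rfl⟩
  obtain ⟨X', hX'⟩ : ∃ X', X' = gradient h (mk v' y) := ⟨_, rfl⟩
  have h1 : inner ℝ X (mk v y) = h (mk v y) := by
    rw [hX]
    exact hs.gradient_inner hw
  have h1' : inner ℝ X' (mk v' y) = h (mk v' y) := by
    rw [hX']
    exact hs.gradient_inner hw'
  have h2 : X ∈ wulff h := by
    rw [hX]
    exact hs.gradient_mem hw
  have h2' : X' ∈ wulff h := by
    rw [hX']
    exact hs.gradient_mem hw'
  have hz : p1 X = p1 X' := by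
    rw [hX, hX']
    exact hvv
  have h3 := h2 (mk v' y)
  have h3' := h2' (mk v y)
  rw [← h1', inner_mk_right, inner_mk_right, hz] at h3
  rw [← h1, inner_mk_right, inner_mk_right, hz] at h3'
  have h4 : inner ℝ X (mk v' y) = h (mk v' y) := by
    rw [← h1', inner_mk_right, inner_mk_right, hz]
    linarith
  have h5 : X = X' := by
    rw [hX']
    exact hs.eq_gradient hw' h2 h4
  rw [hX, hX'] at h5
  obtain ⟨c, hc, h6⟩ := hs.gradient_inj hw hw' h5
  rw [mk_smul] at h6
  have h7 := congrArg p2 h6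
  rw [p2_mk, p2_mk] at h7
  have h8 : c = 1 := by
    have h8 : (c - 1) • y = 0 := by rw [sub_smul, one_smul, ← h7, sub_self]
    rcases smul_eq_zero.1 h8 with h | h
    · linarith
    · exact absurd h hy
  have h9 := congrArg p1 h6
  rw [p1_mk, p1_mk, h8, one_smul] at h9
  exact h9

private theorem zm_mem_sh1 {h : C2 → ℝ} (hs : SmoothSupp h) (K : Body) (hK : pts K = wulff h) {y : ℂ} (hy : y ≠ 0)
    (v : ℂ) : zm h y v ∈ sh1 K := by
  refine ⟨gradient h (mk v y), ?_, rfl⟩
  rw [hK]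
  exact hs.gradient_mem (mk_ne_zero v hy)

private theorem zmD_surj {h : C2 → ℝ} (hs : SmoothSupp h) {y : ℂ} (hy : y ≠ 0) (v : ℂ) :
    (zmD h y v).range = ⊤ := by
  have hinj : Function.Injective ((zmD h y v : ℂ →L[ℝ] ℂ) : ℂ →ₗ[ℝ] ℂ) := by
    rw [injective_iff_map_eq_zero]
    intro u hu
    by_contra hu0
    have h1 := zmD_pos hs hy v hu0
    have h2 : zmD h y v u = 0 := hu
    rw [h2, inner_zero_left] at h1
    exact lt_irrefl _ h1
  exact LinearMap.range_eq_top.2 (LinearMap.injective_iff_surjective.1 hinj)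

theorem zm_mem {h : C2 → ℝ} (hs : SmoothSupp h) (K : Body) (hK : pts K = wulff h) {y : ℂ} (hy : y ≠ 0)
    (v : ℂ) : zm h y v ∈ interior (sh1 K) := by
  rw [mem_interior_iff_mem_nhds]
  have h1 : HasStrictFDerivAt (zm h y) (zmD h y v) v :=
    (zm_contDiff hs hy).contDiffAt.hasStrictFDerivAt' (zm_hasFDerivAt hs hy v) (by norm_num)
  have h2 := h1.map_nhds_eq_of_surj (zmD_surj hs hy v)
  have h3 : range (zm h y) ∈ 𝓝 (zm h y v) := by
    rw [← h2]
    exact range_mem_map
  refine mem_of_superset h3 ?_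
  rintro _ ⟨u, rfl⟩
  exact zm_mem_sh1 hs K hK hy u

theorem zm_surj {h : C2 → ℝ} (hs : SmoothSupp h) (K : Body) (hK : pts K = wulff h) {y : ℂ} (hy : y ≠ 0)
    {z : ℂ} (hz : z ∈ interior (sh1 K)) : ∃ v, zm h y v = z := by
  obtain ⟨ε, hε, hball⟩ := (Metric.nhds_basis_closedBall (x := z)).mem_iff.1 (mem_interior_iff_mem_nhds.1 hz)
  obtain ⟨R, hR⟩ : ∃ R, ∀ x ∈ pts K, ‖p2 x‖ ≤ R :=
    (K.isCompact : IsCompact (pts K)).exists_bound_of_continuousOn continuous_p2.continuousOn
  obtain ⟨f, hf⟩ : ∃ f : ℂ → ℝ, ∀ v, f v = h (mk v y) - inner ℝ z v := ⟨_, fun v => rfl⟩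
  have hfd : ∀ v, HasFDerivAt f ((fderiv ℝ h (mk v y)).comp i1L - innerSL ℝ z) v := by
    intro v
    have h1 : HasFDerivAt (fun u => mk u y) i1L v := by
      have h2 : (fun u => mk u y) = fun u => i1L u + i2L y := by
        funext u
        exact mk_eq _ _
      rw [h2]
      exact i1L.hasFDerivAt.add_const _
    have h3 : HasFDerivAt (fun u => h (mk u y)) ((fderiv ℝ h (mk v y)).comp i1L) v :=
      (calc_da hs (mk_ne_zero v hy)).hasFDerivAt.comp v h1
    have h4 := h3.sub (innerSL ℝ z).hasFDerivAt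
    refine h4.congr_of_eventuallyEq (Eventually.of_forall fun u => ?_)
    exact hf u
  have hcont : Continuous f := continuous_iff_continuousAt.2 fun v => (hfd v).continuousAt
  have hlow : ∀ v, v ≠ 0 → ε * ‖v‖ - R * ‖y‖ ≤ f v := by
    intro v hv
    have hv' : 0 < ‖v‖ := norm_pos_iff.2 hv
    have h1 : z + (ε / ‖v‖) • v ∈ sh1 K := by
      refine hball ?_
      rw [mem_closedBall, dist_eq_norm, add_sub_cancel_left, norm_smul, Real.norm_of_nonneg (by positivity),
        div_mul_cancel₀ _ hv'.ne']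
    obtain ⟨x, hx, hxz⟩ := h1
    have h2 : inner ℝ x (mk v y) ≤ h (mk v y) := by
      have h3 := hx
      rw [hK] at h3
      exact h3 _
    rw [inner_mk_right, hxz, inner_add_left, real_inner_smul_left, real_inner_self_eq_norm_sq] at h2
    have h4 : ε / ‖v‖ * ‖v‖ ^ 2 = ε * ‖v‖ := by
      field_simp
    have h5 : -(R * ‖y‖) ≤ inner ℝ (p2 x) y := by
      have h6 := abs_real_inner_le_norm (p2 x) y
      have h7 := neg_abs_le (inner ℝ (p2 x) y)
      have h8 : ‖p2 x‖ * ‖y‖ ≤ R * ‖y‖ := mul_le_mul_of_nonneg_right (hR x hx) (norm_nonneg _)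
      linarith
    rw [h4] at h2
    rw [hf]
    linarith
  obtain ⟨v₀, hv₀⟩ := hcont.exists_forall_le' (0 : ℂ) (by
    have h1 : ∀ᶠ v : ℂ in cocompact ℂ, max 0 ((f 0 + R * ‖y‖) / ε) < ‖v‖ :=
      (tendsto_norm_cocompact_atTop (E := ℂ)).eventually (eventually_gt_atTop _)
    filter_upwards [h1] with v hv
    have h2 : 0 < ‖v‖ := (le_max_left _ _).trans_lt hv
    have h3 : (f 0 + R * ‖y‖) / ε < ‖v‖ := (le_max_right _ _).trans_lt hv
    rw [div_lt_iff₀ hε] at h3
    have h4 := hlow v (norm_pos_iff.1 h2)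
    linarith)
  refine ⟨v₀, ?_⟩
  have hmin : IsLocalMin f v₀ := Eventually.of_forall fun u => hv₀ u
  have h1 := hmin.hasFDerivAt_eq_zero (hfd v₀)
  refine ext_inner_right ℝ fun u => ?_
  have h2 := DFunLike.congr_fun h1 u
  rw [sub_apply, ContinuousLinearMap.comp_apply, i1L_apply, calc_fderiv, innerSL_apply_apply, zero_apply,
    inner_mk_right, inner_zero_right, add_zero] at h2
  exact sub_eq_zero.1 h2

end Pool.Agent.HAS.T
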