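import Pool.Agent.HAS.T.Leg2

/-!
# HAS-Leg3: the inverse map `Vf` (inverse function theorem)
-/

set_option autoImplicit false

namespace Pool.Agent.HAS.T

open MeasureTheory Metric Set Filter Topology
open Pool.Agent.Helper85.Herm Pool.Agent.Helper85.Cap Pool.Agent.HVM

theorem isOpen_dom (K : Body) : IsOpen (interior (sh1 K) ×ˢ ({0}ᶜ : Set ℂ)) :=
  isOpen_interior.prod isOpen_compl_singleton

theorem Vf_zm {h : C2 → ℝ} (hs : SmoothSupp h) {y : ℂ} (hy : y ≠ 0) (v : ℂ) :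
    Vf h (zm h y v, y) = v :=
  Function.leftInverse_invFun (zm_injective hs hy) v

theorem zm_Vf {h : C2 → ℝ} (hs : SmoothSupp h) (K : Body) (hK : pts K = wulff h) {y : ℂ} (hy : y ≠ 0)
    {z : ℂ} (hz : z ∈ interior (sh1 K)) : zm h y (Vf h (z, y)) = z :=
  Function.invFun_eq (zm_surj hs K hK hy hz)

private theorem leg_inj {h : C2 → ℝ} (hs : SmoothSupp h) {y : ℂ} (hy : y ≠ 0) (v : ℂ)
    {D : ℂ × ℂ →L[ℝ] ℂ}
    (hD : ∀ u u' : ℂ, D (u, u') = zmD h y v u + p1 (hess h (mk v y) (mk 0 u'))) :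
    Function.Injective ((D.prod (ContinuousLinearMap.snd ℝ ℂ ℂ) : ℂ × ℂ →L[ℝ] ℂ × ℂ) :
      ℂ × ℂ →ₗ[ℝ] ℂ × ℂ) := by
  rw [injective_iff_map_eq_zero]
  rintro ⟨u, u'⟩ h0
  have h1 : (D (u, u'), u') = ((0 : ℂ), (0 : ℂ)) := h0
  rw [Prod.mk.injEq] at h1
  obtain ⟨h2, h3⟩ := h1
  subst h3
  have h4 := hD u 0
  rw [h2, mk_zero, map_zero] at h4
  have h5 : p1 (0 : C2) = 0 := by
    rw [← p1L_apply, map_zero]
  rw [h5, add_zero] at h4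
  by_cases hu : u = 0
  · rw [hu]
    rfl
  · have h6 := zmD_pos hs hy v hu
    rw [← h4, inner_zero_left] at h6
    exact absurd h6 (lt_irrefl _)

private theorem leg_loc {h : C2 → ℝ} (hs : SmoothSupp h) {y : ℂ} (hy : y ≠ 0) (v : ℂ) :
    ContDiffAt ℝ 2 (Vf h) (zm h y v, y) := by
  obtain ⟨D, hD, hDe⟩ := zm2_hasFDerivAt hs hy v
  set Ψ : ℂ × ℂ → ℂ × ℂ := fun p => (zm h p.2 p.1, p.2) with hΨ
  have hopen : IsOpen ((univ : Set ℂ) ×ˢ ({0}ᶜ : Set ℂ)) := isOpen_univ.prod isOpen_compl_singleton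
  have hq : (v, y) ∈ (univ : Set ℂ) ×ˢ ({0}ᶜ : Set ℂ) := ⟨mem_univ _, hy⟩
  have hc1 : ContDiffAt ℝ 2 (fun p : ℂ × ℂ => zm h p.2 p.1) (v, y) :=
    (zm2_contDiffOn hs).contDiffAt (hopen.mem_nhds hq)
  have hc : ContDiffAt ℝ 2 Ψ (v, y) := hc1.prodMk contDiffAt_snd
  let e : (ℂ × ℂ) ≃L[ℝ] (ℂ × ℂ) :=
    (LinearEquiv.ofInjectiveEndo _ (leg_inj hs hy v hDe)).toContinuousLinearEquiv
  have he : (e : ℂ × ℂ →L[ℝ] ℂ × ℂ) = D.prod (ContinuousLinearMap.snd ℝ ℂ ℂ) := by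
    refine ContinuousLinearMap.ext fun x => ?_
    rfl
  have hd : HasFDerivAt Ψ (e : ℂ × ℂ →L[ℝ] ℂ × ℂ) (v, y) := by
    rw [he]
    exact hD.prodMk hasFDerivAt_snd
  have h2 : (2 : WithTop ℕ∞) ≠ 0 := by norm_num
  have hg := hc.to_localInverse hd h2
  have hst := hc.hasStrictFDerivAt' hd h2
  have hr : ∀ᶠ p in 𝓝 (Ψ (v, y)), Ψ (hc.localInverse hd h2 p) = p :=
    hst.eventually_right_inverse
  have hcont : Tendsto (hc.localInverse hd h2) (𝓝 (Ψ (v, y))) (𝓝 (v, y)) :=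
    hst.localInverse_tendsto
  have hev : ∀ᶠ p in 𝓝 (Ψ (v, y)), hc.localInverse hd h2 p ∈ (univ : Set ℂ) ×ˢ ({0}ᶜ : Set ℂ) :=
    hcont.eventually (hopen.mem_nhds hq)
  have heq : Vf h =ᶠ[𝓝 (Ψ (v, y))] fun p => (hc.localInverse hd h2 p).1 := by
    filter_upwards [hr, hev] with p h3 h4
    have h5 : (hc.localInverse hd h2 p).2 ≠ 0 := h4.2
    have h6 := Vf_zm hs h5 (hc.localInverse hd h2 p).1
    have h7 : (zm h (hc.localInverse hd h2 p).2 (hc.localInverse hd h2 p).1,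
      (hc.localInverse hd h2 p).2) = p := h3
    rw [h7] at h6
    exact h6
  exact (hg.fst).congr_of_eventuallyEq heq

theorem Vf_contDiffOn {h : C2 → ℝ} (hs : SmoothSupp h) (K : Body) (hK : pts K = wulff h) :
    ContDiffOn ℝ 2 (Vf h) (interior (sh1 K) ×ˢ {0}ᶜ) := by
  rintro ⟨z, y⟩ ⟨hz, hy⟩
  have h1 := leg_loc hs hy (Vf h (z, y))
  rw [zm_Vf hs K hK hy hz] at h1
  exact h1.contDiffWithinAt

theorem Vf_hasFDerivAt {h : C2 → ℝ} (hs : SmoothSupp h) (K : Body) (hK : pts K = wulff h) {y : ℂ}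
    (hy : y ≠ 0) {z : ℂ} (hz : z ∈ interior (sh1 K)) :
    ∃ D : ℂ × ℂ →L[ℝ] ℂ, HasFDerivAt (Vf h) D (z, y) ∧ ∀ u u' : ℂ,
      zmD h y (Vf h (z, y)) (D (u, u')) + p1 (hess h (mk (Vf h (z, y)) y) (mk 0 u')) = u := by
  have hmem : (z, y) ∈ interior (sh1 K) ×ˢ ({0}ᶜ : Set ℂ) := ⟨hz, hy⟩
  have hnh := (isOpen_dom K).mem_nhds hmem
  have h1 : ContDiffAt ℝ 2 (Vf h) (z, y) := (Vf_contDiffOn hs K hK).contDiffAt hnh
  have h2 : HasFDerivAt (Vf h) (fderiv ℝ (Vf h) (z, y)) (z, y) :=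
    (h1.differentiableAt (by norm_num)).hasFDerivAt
  refine ⟨fderiv ℝ (Vf h) (z, y), h2, fun u u' => ?_⟩
  obtain ⟨D2, hD2, hD2e⟩ := zm2_hasFDerivAt hs hy (Vf h (z, y))
  have h3 : HasFDerivAt (fun p : ℂ × ℂ => (Vf h p, p.2))
      ((fderiv ℝ (Vf h) (z, y)).prod (ContinuousLinearMap.snd ℝ ℂ ℂ)) (z, y) :=
    h2.prodMk hasFDerivAt_snd
  have h4 : HasFDerivAt ((fun p : ℂ × ℂ => zm h p.2 p.1) ∘ fun p : ℂ × ℂ => (Vf h p, p.2))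
      (D2 ∘L ((fderiv ℝ (Vf h) (z, y)).prod (ContinuousLinearMap.snd ℝ ℂ ℂ))) (z, y) :=
    HasFDerivAt.comp (z, y) hD2 h3
  have h5 : ((fun p : ℂ × ℂ => zm h p.2 p.1) ∘ fun p : ℂ × ℂ => (Vf h p, p.2)) =ᶠ[𝓝 (z, y)]
      fun p : ℂ × ℂ => p.1 := by
    filter_upwards [hnh] with p hp
    exact zm_Vf hs K hK hp.2 hp.1
  have h6 : HasFDerivAt (fun p : ℂ × ℂ => p.1)
      (D2 ∘L ((fderiv ℝ (Vf h) (z, y)).prod (ContinuousLinearMap.snd ℝ ℂ ℂ))) (z, y) :=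
    h4.congr_of_eventuallyEq h5.symm
  have h7 := h6.unique hasFDerivAt_fst
  have h8 := congrArg (fun T : ℂ × ℂ →L[ℝ] ℂ => T (u, u')) h7
  have h9 : D2 (fderiv ℝ (Vf h) (z, y) (u, u'), u') = u := h8
  rw [hD2e] at h9
  exact h9

end Pool.Agent.HAS.T
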