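import Pool.Agent.HAS.T.Leg3

/-!
# HAS-Leg4: the fibre support functions are the partial Legendre transform
-/

set_option autoImplicit false

namespace Pool.Agent.HAS.T

open MeasureTheory Metric Set Filter Topology
open Pool.Agent.Helper85.Herm Pool.Agent.Helper85.Cap Pool.Agent.HVM

theorem gf_zm {h : C2 → ℝ} (hs : SmoothSupp h) (K : Body) (hK : pts K = wulff h) (θ : ℝ) (v : ℂ) :
    gf K θ (zm h (ee θ) v) = inner ℝ (p2 (gradient h (mk v (ee θ)))) (ee θ) := by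
  have hw : mk v (ee θ) ≠ 0 := mk_ne_zero v (ee_ne θ)
  have hX : gradient h (mk v (ee θ)) ∈ wulff h := hs.gradient_mem hw
  have hXw : (inner ℝ (gradient h (mk v (ee θ))) (mk v (ee θ)) : ℝ) = h (mk v (ee θ)) :=
    hs.gradient_inner hw
  have hgr : IsGreatest ((fun x : ℂ => (inner ℝ x (ee θ) : ℝ)) '' fib K (zm h (ee θ) v))
      (inner ℝ (p2 (gradient h (mk v (ee θ)))) (ee θ)) := by
    constructor
    · refine ⟨p2 (gradient h (mk v (ee θ))), ?_, rfl⟩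
      show mk (p1 (gradient h (mk v (ee θ)))) (p2 (gradient h (mk v (ee θ)))) ∈ pts K
      rw [mk_p, hK]
      exact hX
    · rintro _ ⟨x, hx, rfl⟩
      have hx' : mk (p1 (gradient h (mk v (ee θ)))) x ∈ wulff h := by
        rw [← hK]
        exact hx
      have h1 := hx' (mk v (ee θ))
      rw [← hXw, inner_mk_right, inner_mk_right (gradient h (mk v (ee θ))), p1_mk, p2_mk] at h1
      simp only
      linarith
  exact hgr.csSup_eq

theorem Phi_eq {h : C2 → ℝ} (hs : SmoothSupp h) (K : Body) (hK : pts K = wulff h) {z : ℂ}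
    (hz : z ∈ interior (sh1 K)) (θ : ℝ) : Phi K (z, θ) = inner ℝ (Xt h (z, θ)) (ee θ) := by
  have h1 := gf_zm hs K hK θ (Vt h (z, θ))
  have h2 : zm h (ee θ) (Vt h (z, θ)) = z := zm_Vf hs K hK (ee_ne θ) hz
  rw [h2] at h1
  exact h1

theorem Phi_eq' {h : C2 → ℝ} (hs : SmoothSupp h) (K : Body) (hK : pts K = wulff h) {z : ℂ}
    (hz : z ∈ interior (sh1 K)) (θ : ℝ) :
    Phi K (z, θ) = h (mk (Vt h (z, θ)) (ee θ)) - inner ℝ z (Vt h (z, θ)) := by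
  have h2 : p1 (gradient h (mk (Vt h (z, θ)) (ee θ))) = z := zm_Vf hs K hK (ee_ne θ) hz
  rw [Phi_eq hs K hK hz, ← hs.gradient_inner (mk_ne_zero _ (ee_ne θ)), inner_mk_right, h2]
  show _ = (inner ℝ z (Vt h (z, θ)) : ℝ) +
    inner ℝ (p2 (gradient h (mk (Vt h (z, θ)) (ee θ)))) (ee θ) - inner ℝ z (Vt h (z, θ))
  rw [add_sub_cancel_left]
  rfl

theorem Vt_contDiffOn {h : C2 → ℝ} (hs : SmoothSupp h) (K : Body) (hK : pts K = wulff h) :
    ContDiffOn ℝ 2 (Vt h) (interior (sh1 K) ×ˢ univ) := by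
  have h1 : ContDiff ℝ 2 (fun p : ℂ × ℝ => (p.1, ee p.2)) :=
    contDiff_fst.prodMk (contDiff_ee.comp contDiff_snd)
  exact (Vf_contDiffOn hs K hK).comp h1.contDiffOn (fun p hp => ⟨hp.1, ee_ne p.2⟩)

theorem Xt_contDiffOn {h : C2 → ℝ} (hs : SmoothSupp h) (K : Body) (hK : pts K = wulff h) :
    ContDiffOn ℝ 2 (Xt h) (interior (sh1 K) ×ˢ univ) := by
  have h1 : ContDiff ℝ 2 (fun p : ℂ × ℝ => ee p.2) := contDiff_ee.comp contDiff_snd
  have h2 : ContDiffOn ℝ 2 (fun p : ℂ × ℝ => mk (Vt h p) (ee p.2)) (interior (sh1 K) ×ˢ univ) :=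
    contDiff_mk.comp_contDiffOn ((Vt_contDiffOn hs K hK).prodMk h1.contDiffOn)
  exact p2L.contDiff.comp_contDiffOn
    (hs.gradient_contDiffOn.comp h2 (fun p _ => mk_ne_zero _ (ee_ne p.2)))

theorem Phi_hasFDerivAt {h : C2 → ℝ} (hs : SmoothSupp h) (K : Body) (hK : pts K = wulff h) {z : ℂ}
    (hz : z ∈ interior (sh1 K)) (θ : ℝ) :
    HasFDerivAt (Phi K) ((-(innerSL ℝ (Vt h (z, θ)))).comp (ContinuousLinearMap.fst ℝ ℂ ℝ) +
      (inner ℝ (Xt h (z, θ)) (Complex.I * ee θ) : ℝ) • ContinuousLinearMap.snd ℝ ℂ ℝ) (z, θ) := by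
  have hw : mk (Vt h (z, θ)) (ee θ) ≠ 0 := mk_ne_zero _ (ee_ne θ)
  have hnh : interior (sh1 K) ×ˢ (univ : Set ℝ) ∈ 𝓝 (z, θ) :=
    (isOpen_interior.prod isOpen_univ).mem_nhds ⟨hz, mem_univ _⟩
  have hp1 : p1 (gradient h (mk (Vt h (z, θ)) (ee θ))) = z := zm_Vf hs K hK (ee_ne θ) hz
  obtain ⟨D, hD⟩ : ∃ D, HasFDerivAt (Vt h) D (z, θ) :=
    ⟨_, (((Vt_contDiffOn hs K hK).contDiffAt hnh).differentiableAt (by norm_num)).hasFDerivAt⟩
  have he : HasFDerivAt (fun p : ℂ × ℝ => ee p.2)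
      ((ContinuousLinearMap.snd ℝ ℂ ℝ).smulRight (Complex.I * ee θ)) (z, θ) := by
    have h3 := (hasDerivAt_ee θ).hasFDerivAt.comp (z, θ)
      (hasFDerivAt_snd (𝕜 := ℝ) (p := (z, θ)))
    refine h3.congr_fderiv ?_
    refine ContinuousLinearMap.ext fun p => ?_
    simp
  have hm : HasFDerivAt (fun p : ℂ × ℝ => mk (Vt h p) (ee p.2))
      (i1L ∘L D + i2L ∘L ((ContinuousLinearMap.snd ℝ ℂ ℝ).smulRight (Complex.I * ee θ)))
      (z, θ) := by
    have h4 := (i1L.hasFDerivAt.comp (z, θ) hD).add (i2L.hasFDerivAt.comp (z, θ) he)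
    have h5 : (fun p : ℂ × ℝ => mk (Vt h p) (ee p.2)) =
        (i1L ∘ Vt h) + (i2L ∘ fun p : ℂ × ℝ => ee p.2) := by
      funext p
      exact mk_eq _ _
    rw [h5]
    exact h4
  have hh : HasFDerivAt h (innerSL ℝ (gradient h (mk (Vt h (z, θ)) (ee θ))))
      (mk (Vt h (z, θ)) (ee θ)) := (hs.hasGradientAt hw).hasFDerivAt
  have h4 := HasFDerivAt.comp (z, θ) hh hm
  have h5 := (hasFDerivAt_fst (𝕜 := ℝ) (p := ((z, θ) : ℂ × ℝ))).inner ℝ hD
  have h6 := h4.sub h5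
  have h7 : Phi K =ᶠ[𝓝 (z, θ)]
      fun p => h (mk (Vt h p) (ee p.2)) - inner ℝ p.1 (Vt h p) := by
    filter_upwards [hnh] with p hp
    exact Phi_eq' hs K hK hp.1 p.2
  refine (h6.congr_of_eventuallyEq h7).congr_fderiv ?_
  refine ContinuousLinearMap.ext fun p => ?_
  have e1 : (inner ℝ (gradient h (mk (Vt h (z, θ)) (ee θ)))
      (mk (D p) 0 + mk 0 (p.2 • (Complex.I * ee θ))) : ℝ) =
      inner ℝ z (D p) + p.2 * inner ℝ (Xt h (z, θ)) (Complex.I * ee θ) := by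
    rw [mk_add, add_zero, zero_add, inner_mk_right, hp1, real_inner_smul_right]
    rfl
  have e2 : (inner ℝ p.1 (Vt h (z, θ)) : ℝ) = inner ℝ (Vt h (z, θ)) p.1 := real_inner_comm _ _
  show (inner ℝ (gradient h (mk (Vt h (z, θ)) (ee θ)))
      (mk (D p) 0 + mk 0 (p.2 • (Complex.I * ee θ))) : ℝ) -
      (inner ℝ z (D p) + inner ℝ p.1 (Vt h (z, θ))) =
      -(inner ℝ (Vt h (z, θ)) p.1) + inner ℝ (Xt h (z, θ)) (Complex.I * ee θ) * p.2
  rw [e1, e2]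
  ring

end Pool.Agent.HAS.T
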