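import Pool.Agent.HAS.T.Leg4

/-!
# HAS-Leg4b: regularity of the fibre support functions (imports Leg1-Leg4; sorry there is fine)

From the derivative of `Phi K` (`Phi_hasFDerivAt`), which is a `C²` function of `(z, θ)`.
-/

set_option autoImplicit false

namespace Pool.Agent.HAS.T

open MeasureTheory Metric Set Filter Topology
open Pool.Agent.Helper85.Herm Pool.Agent.Helper85.Cap Pool.Agent.HVM

private theorem lb_open (K : Body) : IsOpen (interior (sh1 K) ×ˢ (univ : Set ℝ)) :=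
  isOpen_interior.prod isOpen_univ

private theorem lb_smooth {h : C2 → ℝ} (hs : SmoothSupp h) (K : Body) (hK : pts K = wulff h) :
    ContDiffOn ℝ 3 (Phi K) (interior (sh1 K) ×ˢ (univ : Set ℝ)) := by
  have h3 : (3 : WithTop ℕ∞) = 2 + 1 := by norm_num
  rw [h3, contDiffOn_succ_iff_fderiv_of_isOpen (lb_open K)]
  refine ⟨?_, ?_, ?_⟩
  · rintro ⟨z, θ⟩ hp
    exact (Phi_hasFDerivAt hs K hK hp.1 θ).differentiableAt.differentiableWithinAt
  · intro h0
    exact absurd h0 (by simp)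
  · have h1 : ContDiffOn ℝ 2 (fun p : ℂ × ℝ =>
        (-(innerSL ℝ (Vt h p))).comp (ContinuousLinearMap.fst ℝ ℂ ℝ) +
          (inner ℝ (Xt h p) (Complex.I * ee p.2) : ℝ) • ContinuousLinearMap.snd ℝ ℂ ℝ)
        (interior (sh1 K) ×ˢ (univ : Set ℝ)) := by
      rw [contDiffOn_clm_apply]
      intro q
      have h2 : (fun p : ℂ × ℝ => ((-(innerSL ℝ (Vt h p))).comp (ContinuousLinearMap.fst ℝ ℂ ℝ) +
          (inner ℝ (Xt h p) (Complex.I * ee p.2) : ℝ) • ContinuousLinearMap.snd ℝ ℂ ℝ) q) =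
          fun p : ℂ × ℝ => -(inner ℝ (Vt h p) q.1 : ℝ) +
            (inner ℝ (Xt h p) (Complex.I * ee p.2) : ℝ) * q.2 := by
        funext p
        simp
      rw [h2]
      have hV := Vt_contDiffOn hs K hK
      have hX := Xt_contDiffOn hs K hK
      have he : ContDiffOn ℝ 2 (fun p : ℂ × ℝ => Complex.I * ee p.2)
          (interior (sh1 K) ×ˢ (univ : Set ℝ)) :=
        (contDiff_const.mul (contDiff_ee.comp contDiff_snd)).contDiffOn
      exact ((hV.inner ℝ contDiffOn_const).neg).add ((hX.inner ℝ he).mul contDiffOn_const)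
    refine h1.congr ?_
    rintro ⟨z, θ⟩ hp
    exact (Phi_hasFDerivAt hs K hK hp.1 θ).fderiv

theorem Phi_per {h : C2 → ℝ} (hs : SmoothSupp h) (K : Body) (hK : pts K = wulff h) :
    Per (interior (sh1 K)) (Phi K) := by
  refine ⟨lb_smooth hs K hK, ?_⟩
  intro z θ
  show gf K (θ + 2 * Real.pi) z = gf K θ z
  unfold gf
  rw [ee_periodic]

theorem gf_contDiffOn' {h : C2 → ℝ} (hs : SmoothSupp h) (K : Body) (hK : pts K = wulff h) (θ : ℝ) :
    ContDiffOn ℝ 2 (gf K θ) (interior (sh1 K)) := by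
  have h0 : gf K θ = Phi K ∘ fun z : ℂ => (z, θ) := rfl
  have h1 : ContDiffOn ℝ 2 (Phi K) (interior (sh1 K) ×ˢ (univ : Set ℝ)) :=
    (lb_smooth hs K hK).of_le (by norm_num)
  have h2 : ContDiffOn ℝ 2 (fun z : ℂ => (z, θ)) (interior (sh1 K)) :=
    (contDiff_id.prodMk contDiff_const).contDiffOn
  rw [h0]
  exact h1.comp h2 fun z hz => ⟨hz, mem_univ _⟩

/-- gradient of the fibre support function -/
theorem gradient_gf {h : C2 → ℝ} (hs : SmoothSupp h) (K : Body) (hK : pts K = wulff h) {z : ℂ}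
    (hz : z ∈ interior (sh1 K)) (θ : ℝ) : HasGradientAt (gf K θ) (-Vt h (z, θ)) z := by
  have h0 : gf K θ = Phi K ∘ fun z : ℂ => (z, θ) := rfl
  rw [hasGradientAt_iff_hasFDerivAt, h0]
  have h2 : HasFDerivAt (fun e : ℂ => (e, θ)) (ContinuousLinearMap.inl ℝ ℂ ℝ) z :=
    hasFDerivAt_prodMk_left z θ
  have h1 := HasFDerivAt.comp z (Phi_hasFDerivAt hs K hK hz θ) h2
  refine h1.congr_fderiv ?_
  ext y
  simp

end Pool.Agent.HAS.T
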