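import Pool.Agent.HAS.T.Leg4b

/-!
# HAS-Leg5: second derivatives of the fibre support functions
-/

set_option autoImplicit false

namespace Pool.Agent.HAS.T

open MeasureTheory Metric Set Filter Topology
open Pool.Agent.Helper85.Herm Pool.Agent.Helper85.Cap Pool.Agent.HVM

private theorem leg5_fderiv {h : C2 → ℝ} (hs : SmoothSupp h) (K : Body) (hK : pts K = wulff h) {z : ℂ}
    (hz : z ∈ interior (sh1 K)) (θ : ℝ) (u : ℂ) (t : ℝ) :
    fderiv ℝ (Phi K) (z, θ) (u, t) = -(inner ℝ (Vt h (z, θ)) u : ℝ) +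
      (inner ℝ (Xt h (z, θ)) (Complex.I * ee θ) : ℝ) * t := by
  rw [(Phi_hasFDerivAt hs K hK hz θ).fderiv]
  rfl

theorem dx_Phi {h : C2 → ℝ} (hs : SmoothSupp h) (K : Body) (hK : pts K = wulff h) {z : ℂ}
    (hz : z ∈ interior (sh1 K)) (θ : ℝ) : dx (Phi K) (z, θ) = -(Vt h (z, θ)).re ∧
      dy (Phi K) (z, θ) = -(Vt h (z, θ)).im := by
  constructor
  · unfold dx
    rw [leg5_fderiv hs K hK hz, inner_c, Complex.one_re, Complex.one_im]
    ring
  · unfold dy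
    rw [leg5_fderiv hs K hK hz, inner_c, Complex.I_re, Complex.I_im]
    ring

private theorem leg5_dt {h : C2 → ℝ} (hs : SmoothSupp h) (K : Body) (hK : pts K = wulff h) {z : ℂ}
    (hz : z ∈ interior (sh1 K)) (θ : ℝ) :
    dt (Phi K) (z, θ) = inner ℝ (Xt h (z, θ)) (Complex.I * ee θ) := by
  unfold dt
  rw [leg5_fderiv hs K hK hz, inner_zero_right]
  ring

private theorem leg5_der {h : C2 → ℝ} (hs : SmoothSupp h) (K : Body) (hK : pts K = wulff h) {z : ℂ}
    (hz : z ∈ interior (sh1 K)) (θ : ℝ) (M : C2 →L[ℝ] C2) (hM : M = hess h (mk (Vt h (z, θ)) (ee θ))) :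
    ∃ (D : ℂ × ℝ →L[ℝ] ℂ) (X : ℂ × ℝ →L[ℝ] ℂ) (Y : ℂ × ℝ →L[ℝ] ℂ), HasFDerivAt (Vt h) D (z, θ) ∧
      HasFDerivAt (Xt h) X (z, θ) ∧ HasFDerivAt (fun q : ℂ × ℝ => Complex.I * ee q.2) Y (z, θ) ∧
      (∀ (u : ℂ) (t : ℝ), zmD h (ee θ) (Vt h (z, θ)) (D (u, t)) + t • bb M (ee θ) = u) ∧
      (∀ (u : ℂ) (t : ℝ), X (u, t) = p2 (M (mk (D (u, t)) (t • (Complex.I * ee θ))))) ∧
      ∀ (u : ℂ) (t : ℝ), Y (u, t) = Complex.I * (t • (Complex.I * ee θ)) := by
  obtain ⟨D0, hD0, hD1⟩ := Vf_hasFDerivAt hs K hK (ee_ne θ) hz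
  obtain ⟨E, hE, hE1⟩ : ∃ E : ℂ × ℝ →L[ℝ] ℂ, HasFDerivAt (fun q : ℂ × ℝ => ee q.2) E (z, θ) ∧
      ∀ (u : ℂ) (t : ℝ), E (u, t) = t • (Complex.I * ee θ) := by
    have hs2 : HasFDerivAt (fun q : ℂ × ℝ => q.2) (ContinuousLinearMap.snd ℝ ℂ ℝ) (z, θ) := hasFDerivAt_snd
    refine ⟨_, HasFDerivAt.comp (z, θ) (g := ee) (f := fun q : ℂ × ℝ => q.2)
      (hasDerivAt_ee θ).hasFDerivAt hs2, ?_⟩
    intro u t
    simp
  have hpair : HasFDerivAt (fun q : ℂ × ℝ => (q.1, ee q.2)) ((ContinuousLinearMap.fst ℝ ℂ ℝ).prod E) (z, θ) :=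
    hasFDerivAt_fst.prodMk hE
  have hV : HasFDerivAt (Vt h) (D0.comp ((ContinuousLinearMap.fst ℝ ℂ ℝ).prod E)) (z, θ) :=
    HasFDerivAt.comp (z, θ) (g := Vf h) hD0 hpair
  have hmk : HasFDerivAt (fun q : ℂ × ℝ => mk (Vt h q) (ee q.2))
      (i1L.comp (D0.comp ((ContinuousLinearMap.fst ℝ ℂ ℝ).prod E)) + i2L.comp E) (z, θ) := by
    have e1 : (fun q : ℂ × ℝ => mk (Vt h q) (ee q.2)) = fun q => i1L (Vt h q) + i2L (ee q.2) :=
      funext fun q => mk_eq _ _
    rw [e1]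
    exact (i1L.hasFDerivAt.comp (z, θ) hV).add (i2L.hasFDerivAt.comp (z, θ) hE)
  have hg : HasFDerivAt (gradient h) M (mk (Vt h (z, θ)) (ee θ)) := by
    rw [hM]
    exact hs.hasFDerivAt_gradient (mk_ne_zero _ (ee_ne θ))
  have hX : HasFDerivAt (Xt h) (p2L.comp (M.comp
      (i1L.comp (D0.comp ((ContinuousLinearMap.fst ℝ ℂ ℝ).prod E)) + i2L.comp E))) (z, θ) :=
    HasFDerivAt.comp (z, θ) (g := p2L) p2L.hasFDerivAt
      (HasFDerivAt.comp (z, θ) (g := gradient h) (f := fun q : ℂ × ℝ => mk (Vt h q) (ee q.2)) hg hmk)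
  refine ⟨_, _, _, hV, hX, hE.const_mul Complex.I, ?_, ?_, ?_⟩
  · intro u t
    have h1 := hD1 u (t • (Complex.I * ee θ))
    have h2 : mk 0 (t • (Complex.I * ee θ)) = t • mk 0 (Complex.I * ee θ) := by
      rw [mk_smul, smul_zero]
    have h3 : p1 (M (mk 0 (t • (Complex.I * ee θ)))) = t • bb M (ee θ) := by
      rw [h2, map_smul, p1_smul]
      rfl
    rw [← h3, hM]
    have h4 : (D0.comp ((ContinuousLinearMap.fst ℝ ℂ ℝ).prod E)) (u, t) = D0 (u, t • (Complex.I * ee θ)) := by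
      rw [← hE1 u t]
      rfl
    rw [h4]
    exact h1
  · intro u t
    show p2 (M (i1L (D0 (u, E (u, t))) + i2L (E (u, t)))) = p2 (M (mk (D0 (u, E (u, t))) _))
    rw [← mk_eq, hE1]
  · intro u t
    show Complex.I * (E (u, t)) = _
    rw [hE1]

private theorem leg5_pair {h : C2 → ℝ} (hs : SmoothSupp h) {v : ℂ} {y : ℂ} (hy : y ≠ 0) (M : C2 →L[ℝ] C2)
    (hM : M = hess h (mk v y)) (a : ℂ) (t : ℝ) :
    (inner ℝ (p2 (M (mk a (t • (Complex.I * y))))) (Complex.I * y) : ℝ) =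
      a.re * (bb M y).re + a.im * (bb M y).im + t * kk M y := by
  have e1 : mk a (t • (Complex.I * y)) = mk a 0 + t • mk 0 (Complex.I * y) := by
    rw [mk_smul, mk_add, smul_zero, add_zero, zero_add]
  have e2 : ∀ x : C2, (inner ℝ (p2 x) (Complex.I * y) : ℝ) = inner ℝ x (mk 0 (Complex.I * y)) := by
    intro x
    rw [inner_mk_right, inner_zero_right, zero_add]
  have e3 : (inner ℝ (M (mk a 0)) (mk 0 (Complex.I * y)) : ℝ) = a.re * (bb M y).re + a.im * (bb M y).im := by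
    rw [hM, hs.hess_symm (mk_ne_zero v hy), ← hM, real_inner_comm, inner_mk_right, inner_zero_right,
      add_zero, inner_c]
    show (bb M y).re * a.re + (bb M y).im * a.im = _
    ring
  rw [e1, e2, map_add, map_smul, inner_add_left, real_inner_smul_left, e3]
  rfl

private theorem leg5_inner {h : C2 → ℝ} {z : ℂ} {θ : ℝ} {X Y : ℂ × ℝ →L[ℝ] ℂ}
    (hX : HasFDerivAt (Xt h) X (z, θ)) (hY : HasFDerivAt (fun q : ℂ × ℝ => Complex.I * ee q.2) Y (z, θ))
    (e : ℂ × ℝ) :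
    fderiv ℝ (fun q : ℂ × ℝ => (inner ℝ (Xt h q) (Complex.I * ee q.2) : ℝ)) (z, θ) e =
      inner ℝ (Xt h (z, θ)) (Y e) + inner ℝ (X e) (Complex.I * ee θ) := by
  rw [(hX.inner ℝ hY).fderiv]
  rfl

theorem Phi_second {h : C2 → ℝ} (hs : SmoothSupp h) (K : Body) (hK : pts K = wulff h) {z : ℂ}
    (hz : z ∈ interior (sh1 K)) (θ : ℝ) (M : C2 →L[ℝ] C2) (hM : M = hess h (mk (Vt h (z, θ)) (ee θ)))
    (δ : ℝ) (hδ : δ = a11 M * a22 M - a12 M ^ 2) :
    δ * (dx (dx (Phi K)) (z, θ) + dy (dy (Phi K)) (z, θ)) = -(a11 M + a22 M) ∧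
    δ * dx (dt (Phi K)) (z, θ) = a22 M * (bb M (ee θ)).re - a12 M * (bb M (ee θ)).im ∧
    δ * dy (dt (Phi K)) (z, θ) = a11 M * (bb M (ee θ)).im - a12 M * (bb M (ee θ)).re ∧
    Phi K (z, θ) + dt (dt (Phi K)) (z, θ) = kk M (ee θ) -
      (dx (dt (Phi K)) (z, θ) * (bb M (ee θ)).re + dy (dt (Phi K)) (z, θ) * (bb M (ee θ)).im) := by
  obtain ⟨D, X, Y, hV, hX, hY, hD1, hX1, hY1⟩ := leg5_der hs K hK hz θ M hM
  have hnhds : interior (sh1 K) ×ˢ (univ : Set ℝ) ∈ 𝓝 (z, θ) :=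
    (isOpen_interior.prod isOpen_univ).mem_nhds ⟨hz, mem_univ _⟩
  have ex : dx (Phi K) =ᶠ[𝓝 (z, θ)] fun q => -(Vt h q).re := by
    filter_upwards [hnhds] with q hq
    exact (dx_Phi hs K hK hq.1 q.2).1
  have ey : dy (Phi K) =ᶠ[𝓝 (z, θ)] fun q => -(Vt h q).im := by
    filter_upwards [hnhds] with q hq
    exact (dx_Phi hs K hK hq.1 q.2).2
  have et : dt (Phi K) =ᶠ[𝓝 (z, θ)] fun q => (inner ℝ (Xt h q) (Complex.I * ee q.2) : ℝ) := by
    filter_upwards [hnhds] with q hq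
    exact leg5_dt hs K hK hq.1 q.2
  have hVre : HasFDerivAt (fun q => -(Vt h q).re) (-(Complex.reCLM.comp D)) (z, θ) :=
    (HasFDerivAt.comp (z, θ) (g := Complex.reCLM) Complex.reCLM.hasFDerivAt hV).neg
  have hVim : HasFDerivAt (fun q => -(Vt h q).im) (-(Complex.imCLM.comp D)) (z, θ) :=
    (HasFDerivAt.comp (z, θ) (g := Complex.imCLM) Complex.imCLM.hasFDerivAt hV).neg
  have exx : dx (dx (Phi K)) (z, θ) = -(D (1, 0)).re := by
    show fderiv ℝ (dx (Phi K)) (z, θ) (1, 0) = _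
    rw [ex.fderiv_eq, hVre.fderiv]
    rfl
  have eyy : dy (dy (Phi K)) (z, θ) = -(D (Complex.I, 0)).im := by
    show fderiv ℝ (dy (Phi K)) (z, θ) (Complex.I, 0) = _
    rw [ey.fderiv_eq, hVim.fderiv]
    rfl
  have hne := ee_ne θ
  have ext : dx (dt (Phi K)) (z, θ) = (D (1, 0)).re * (bb M (ee θ)).re + (D (1, 0)).im * (bb M (ee θ)).im := by
    show fderiv ℝ (dt (Phi K)) (z, θ) (1, 0) = _
    rw [et.fderiv_eq, leg5_inner hX hY, hX1, hY1, leg5_pair hs hne M hM, zero_smul, mul_zero,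
      inner_zero_right]
    ring
  have eyt : dy (dt (Phi K)) (z, θ) =
      (D (Complex.I, 0)).re * (bb M (ee θ)).re + (D (Complex.I, 0)).im * (bb M (ee θ)).im := by
    show fderiv ℝ (dt (Phi K)) (z, θ) (Complex.I, 0) = _
    rw [et.fderiv_eq, leg5_inner hX hY, hX1, hY1, leg5_pair hs hne M hM, zero_smul, mul_zero,
      inner_zero_right]
    ring
  have ett : dt (dt (Phi K)) (z, θ) = -(Phi K (z, θ)) +
      ((D (0, 1)).re * (bb M (ee θ)).re + (D (0, 1)).im * (bb M (ee θ)).im + kk M (ee θ)) := by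
    show fderiv ℝ (dt (Phi K)) (z, θ) (0, 1) = _
    have e1 : Complex.I * ((1 : ℝ) • (Complex.I * ee θ)) = -ee θ := by
      rw [one_smul, ← mul_assoc, Complex.I_mul_I]
      ring
    rw [et.fderiv_eq, leg5_inner hX hY, hX1, hY1, leg5_pair hs hne M hM, e1, inner_neg_right,
      Phi_eq hs K hK hz]
    ring
  have hdet : 0 < δ := by
    rw [hδ, hM]
    exact det_pos hs hne _
  have hzD : ∀ u : ℂ, (zmD h (ee θ) (Vt h (z, θ)) u).re = a11 M * u.re + a12 M * u.im ∧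
      (zmD h (ee θ) (Vt h (z, θ)) u).im = a12 M * u.re + a22 M * u.im := by
    intro u
    rw [hM]
    exact zmD_apply hs hne _ u
  have hA := hD1 1 0
  have hB := hD1 Complex.I 0
  have hC := hD1 0 1
  rw [zero_smul, add_zero] at hA hB
  rw [one_smul] at hC
  have A1 := congrArg Complex.re hA
  have A2 := congrArg Complex.im hA
  have B1 := congrArg Complex.re hB
  have B2 := congrArg Complex.im hB
  have C1 := congrArg Complex.re hC
  have C2 := congrArg Complex.im hC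
  rw [Complex.add_re, (hzD _).1, Complex.zero_re] at C1
  rw [Complex.add_im, (hzD _).2, Complex.zero_im] at C2
  rw [(hzD _).1, Complex.one_re] at A1
  rw [(hzD _).2, Complex.one_im] at A2
  rw [(hzD _).1, Complex.I_re] at B1
  rw [(hzD _).2, Complex.I_im] at B2
  rw [exx, eyy, ext, eyt, ett]
  generalize (D (1, 0)).re = Ar at *
  generalize (D (1, 0)).im = Ai at *
  generalize (D (Complex.I, 0)).re = Br at *
  generalize (D (Complex.I, 0)).im = Bi at *
  generalize (D (0, 1)).re = Cr at *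
  generalize (D (0, 1)).im = Ci at *
  generalize (bb M (ee θ)).re = br at *
  generalize (bb M (ee θ)).im = bi at *
  generalize a11 M = α at *
  generalize a12 M = β at *
  generalize a22 M = γ at *
  have hAr : δ * Ar = γ := by rw [hδ]; linear_combination γ * A1 - β * A2
  have hAi : δ * Ai = -β := by rw [hδ]; linear_combination α * A2 - β * A1
  have hBr : δ * Br = -β := by rw [hδ]; linear_combination γ * B1 - β * B2
  have hBi : δ * Bi = α := by rw [hδ]; linear_combination α * B2 - β * B1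
  have hCr : δ * Cr = -(γ * br) + β * bi := by rw [hδ]; linear_combination γ * C1 - β * C2
  have hCi : δ * Ci = -(α * bi) + β * br := by rw [hδ]; linear_combination α * C2 - β * C1
  refine ⟨by linear_combination -hAr - hBi, by linear_combination br * hAr + bi * hAi,
    by linear_combination br * hBr + bi * hBi, ?_⟩
  have h1 : δ * (Cr + (Ar * br + Ai * bi)) = 0 := by linear_combination hCr + br * hAr + bi * hAi
  have h2 : δ * (Ci + (Br * br + Bi * bi)) = 0 := by linear_combination hCi + br * hBr + bi * hBi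
  have h3 := (mul_eq_zero.1 h1).resolve_left hdet.ne'
  have h4 := (mul_eq_zero.1 h2).resolve_left hdet.ne'
  linear_combination br * h3 + bi * h4

end Pool.Agent.HAS.T
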