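import Pool.Agent.HAS.T.TDefs

/-!
# HAS-Mp: `mk` preserves the measure

`mk` is a linear isometry from the Hilbert sum `ℂ ⊕ ℂ` onto `C2`.
-/

set_option autoImplicit false

namespace Pool.Agent.HAS.T

open MeasureTheory Metric Set Filter Topology
open Pool.Agent.Helper85.Herm Pool.Agent.Helper85.Cap Pool.Agent.HVM

/-- `mk` as a linear isometry -/
private noncomputable def mkIso : WithLp 2 (ℂ × ℂ) ≃ₗᵢ[ℝ] C2 where
  toFun q := mk q.fst q.snd
  invFun w := WithLp.toLp 2 (p1 w, p2 w)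
  left_inv q := by
    simp only [p1_mk, p2_mk]
    rfl
  right_inv w := mk_p w
  map_add' q q' := by
    rw [mk_add]
    rfl
  map_smul' c q := by
    rw [RingHom.id_apply, mk_smul]
    rfl
  norm_map' q := by
    have h1 : ‖mk q.fst q.snd‖ ^ 2 = ‖q‖ ^ 2 := by
      rw [norm_mk_sq, WithLp.prod_norm_sq_eq_of_L2]
    exact (pow_left_inj₀ (norm_nonneg _) (norm_nonneg _) two_ne_zero).1 h1

theorem mk_mp : MeasurePreserving (fun p : ℂ × ℂ => mk p.1 p.2) (volume.prod volume) volume :=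
  mkIso.measurePreserving.comp (WithLp.volume_preserving_toLp ℂ ℂ)

theorem lint_C2 (f : C2 → ENNReal) (hf : Measurable f) :
    ∫⁻ w, f w = ∫⁻ y : ℂ, ∫⁻ v : ℂ, f (mk v y) := by
  rw [← mk_mp.lintegral_comp hf]
  exact lintegral_prod_symm' _ (hf.comp mk_mp.measurable)

end Pool.Agent.HAS.T
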