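import Pool.Agent.HAS.T.Leg5
import Pool.Agent.HAS.T.AlgP

/-!
# HAS-NP: the density of `μ_{2,0}` in terms of the fibre support functions
-/

set_option autoImplicit false

namespace Pool.Agent.HAS.T

open MeasureTheory Metric Set Filter Topology
open Pool.Agent.Helper85.Herm Pool.Agent.Helper85.Cap Pool.Agent.HVM

theorem Vt_zm {h : C2 → ℝ} (hs : SmoothSupp h) (θ : ℝ) (v : ℂ) :
    Vt h (zm h (ee θ) v, θ) = v :=
  Vf_zm hs (ee_ne θ) v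

theorem t33_mk {h : C2 → ℝ} (hs : SmoothSupp h) (θ : ℝ) (v : ℂ) :
    t33 h (mk v (ee θ)) = (1 + ‖v‖ ^ 2) * (zmD h (ee θ) v).det := by
  have hw : mk v (ee θ) ≠ 0 := mk_ne_zero v (ee_ne θ)
  have h1 := alg_33 (norm_ee θ) (hs.pk hw)
  have h2 : t33 h (mk v (ee θ)) = inner ℝ (NT (hess h (mk v (ee θ)))
      (mk 0 (Complex.I * ee θ))) (mk 0 (Complex.I * ee θ)) := by
    unfold t33 TH
    rw [p2_mk, norm_ee, one_pow, div_one]
  rw [h2, h1, zmD_det hs (ee_ne θ), norm_mk_sq, norm_ee, one_pow, add_comm (‖v‖ ^ 2)]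

private theorem np_alg {p q r δ A B b1 b2 k L D V V1 V2 : ℝ} (hδ : δ = p * r - q ^ 2) (h0 : δ ≠ 0)
    (hL : δ * L = -(p + r)) (hA : δ * A = r * b1 - q * b2) (hB : δ * B = p * b2 - q * b1)
    (hD : D = k - (A * b1 + B * b2)) (hV : V = V1 ^ 2 + V2 ^ 2) :
    k * (p + r) - (b1 ^ 2 + b2 ^ 2) - 2 * (V2 * (r * b1 - q * b2) - V1 * (p * b2 - q * b1)) +
      δ * V = δ * (-D * L + ((A + -V2) ^ 2 + (B - -V1) ^ 2)) := by
  have e1 : b1 = p * A + q * B := by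
    apply mul_left_cancel₀ h0
    have h : δ * (p * A + q * B) = p * (δ * A) + q * (δ * B) := by ring
    rw [h, hA, hB, hδ]
    ring
  have e2 : b2 = q * A + r * B := by
    apply mul_left_cancel₀ h0
    have h : δ * (q * A + r * B) = q * (δ * A) + r * (δ * B) := by ring
    rw [h, hA, hB, hδ]
    ring
  have h3 : δ * (-D * L + ((A + -V2) ^ 2 + (B - -V1) ^ 2)) =
      -D * (δ * L) + (δ * (A ^ 2 + B ^ 2) - 2 * (V2 * (δ * A) - V1 * (δ * B)) +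
        δ * (V1 ^ 2 + V2 ^ 2)) := by ring
  rw [h3, hL, hA, hB, hD, hV]
  have h4 : (A * b1 + B * b2) * (p + r) - δ * (A ^ 2 + B ^ 2) = b1 ^ 2 + b2 ^ 2 := by
    rw [e1, e2, hδ]
    ring
  linear_combination h4

theorem tP_mk {h : C2 → ℝ} (hs : SmoothSupp h) (K : Body) (hK : pts K = wulff h) (θ : ℝ) (v : ℂ) :
    tP h (mk v (ee θ)) =
      (1 + ‖v‖ ^ 2) * (zmD h (ee θ) v).det * Nf (Phi K) (zm h (ee θ) v, θ) := by
  have hw : mk v (ee θ) ≠ 0 := mk_ne_zero v (ee_ne θ)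
  have h1 := alg_P (norm_ee θ) (hs.pk hw)
  have hz := zm_mem hs K hK (ee_ne θ) v
  have hv := Vt_zm hs θ v
  obtain ⟨hx, hy⟩ := dx_Phi hs K hK hz θ
  obtain ⟨g1, g2, g3, g4⟩ := Phi_second hs K hK hz θ (hess h (mk v (ee θ))) (by rw [hv]) _ rfl
  rw [hv] at hx hy
  have h2 : tP h (mk v (ee θ)) = inner ℝ (NT (hess h (mk v (ee θ))) (Iq (mk v (ee θ))))
      (Iq (mk v (ee θ))) + inner ℝ (NT (hess h (mk v (ee θ))) (Kq (mk v (ee θ))))
      (Kq (mk v (ee θ))) := rfl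
  have hb : ‖bb (hess h (mk v (ee θ))) (ee θ)‖ ^ 2 =
      (bb (hess h (mk v (ee θ))) (ee θ)).re ^ 2 + (bb (hess h (mk v (ee θ))) (ee θ)).im ^ 2 := by
    rw [Complex.sq_norm, Complex.normSq_apply]
    ring
  have hvn : ‖v‖ ^ 2 = v.re ^ 2 + v.im ^ 2 := by
    rw [Complex.sq_norm, Complex.normSq_apply]
    ring
  have h3 := np_alg rfl (det_pos hs (ee_ne θ) v).ne' g1 g2 g3 g4 hvn
  rw [h2, h1, zmD_det hs (ee_ne θ), norm_mk_sq, norm_ee, one_pow, add_comm (‖v‖ ^ 2) 1, mul_assoc,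
    hb, h3]
  unfold Nf
  rw [hx, hy]

theorem Nf_nonneg {h : C2 → ℝ} (hs : SmoothSupp h) (K : Body) (hK : pts K = wulff h) {z : ℂ}
    (hz : z ∈ interior (sh1 K)) (θ : ℝ) : 0 ≤ Nf (Phi K) (z, θ) := by
  have hv : zm h (ee θ) (Vf h (z, ee θ)) = z := zm_Vf hs K hK (ee_ne θ) hz
  have hw : mk (Vf h (z, ee θ)) (ee θ) ≠ 0 := mk_ne_zero _ (ee_ne θ)
  have h1 := tP_mk hs K hK θ (Vf h (z, ee θ))
  rw [hv, zmD_det hs (ee_ne θ)] at h1
  have h2 : 0 ≤ tP h (mk (Vf h (z, ee θ)) (ee θ)) :=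
    add_nonneg (NT_psd (hs.pk hw) _) (NT_psd (hs.pk hw) _)
  have h3 : 0 < (1 + ‖Vf h (z, ee θ)‖ ^ 2) * (a11 (hess h (mk (Vf h (z, ee θ)) (ee θ))) *
      a22 (hess h (mk (Vf h (z, ee θ)) (ee θ))) -
        a12 (hess h (mk (Vf h (z, ee θ)) (ee θ))) ^ 2) :=
    mul_pos (by positivity) (det_pos hs (ee_ne θ) _)
  rw [h1] at h2
  exact (mul_nonneg_iff_of_pos_left h3).1 h2

end Pool.Agent.HAS.T
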