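import Pool.Agent.HAS.T.Swp

/-!
# HAS-Shd: the shadow inequality for all bodies
-/

set_option autoImplicit false

namespace Pool.Agent.HAS.T

open MeasureTheory Metric Set Filter Topology
open Pool.Agent.Helper85.Herm Pool.Agent.Helper85.Cap Pool.Agent.HVM

theorem shadows_smooth {h : C2 → ℝ} (hs : SmoothSupp h) (K : Body) (hK : pts K = wulff h) :
    V2 K - F K ≤ (volume (sh1 K)).toReal + (volume (sh2 K)).toReal ∧
    (volume (sh1 K)).toReal + (volume (sh2 K)).toReal ≤ V2 K := by
  obtain ⟨h1, h2⟩ := sph_shadow hs K hK
  rw [area_sh1 hs K hK, area_sh2 hs K hK] at h1 h2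
  have hpi := Real.pi_pos
  constructor
  · have : 0 ≤ 2 * Real.pi * ((volume (sh1 K)).toReal + (volume (sh2 K)).toReal - (V2 K - F K)) := by
      linarith
    by_contra hcon
    push Not at hcon
    have h3 : 2 * Real.pi * ((volume (sh1 K)).toReal + (volume (sh2 K)).toReal - (V2 K - F K)) < 0 :=
      mul_neg_of_pos_of_neg (by positivity) (by linarith)
    linarith
  · have : 0 ≤ 2 * Real.pi * (V2 K - ((volume (sh1 K)).toReal + (volume (sh2 K)).toReal)) := by
      linarith
    by_contra hcon
    push Not at hcon
    have h3 : 2 * Real.pi * (V2 K - ((volume (sh1 K)).toReal + (volume (sh2 K)).toReal)) < 0 :=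
      mul_neg_of_pos_of_neg (by positivity) (by linarith)
    linarith

private theorem vol_image (S : Set ℂ) :
    volume ((fun z : ℂ => (z.re, z.im)) '' S) = volume S := by
  have h1 : (fun z : ℂ => (z.re, z.im)) = Complex.measurableEquivRealProd := by
    funext z
    rfl
  rw [h1, MeasurableEquiv.image_eq_preimage_symm]
  exact (Complex.volume_preserving_equiv_real_prod.symm
    Complex.measurableEquivRealProd).measure_preimage_equiv S

private theorem in1 (a : ℂ) : (inner ℝ a (1 : ℂ) : ℝ) = a.re := by
  rw [inner_c]
  simp

private theorem inI (a : ℂ) : (inner ℝ a Complex.I : ℝ) = a.im := by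
  rw [inner_c]
  simp

theorem sh1_ar (K : Body) : (volume (sh1 K)).toReal = I1_ar K (mk 1 0, mk Complex.I 0) := by
  have h1 : I1_P (mk 1 0, mk Complex.I 0) '' pts K = (fun z : ℂ => (z.re, z.im)) '' sh1 K := by
    unfold sh1
    rw [Set.image_image]
    refine Set.image_congr fun x _ => ?_
    rw [I1_P_apply]
    simp only [inner_mk_right, in1, inI, inner_zero_right, add_zero]
  unfold I1_ar
  rw [h1, vol_image]

theorem sh2_ar (K : Body) : (volume (sh2 K)).toReal = I1_ar K (mk 0 1, mk 0 Complex.I) := by
  have h1 : I1_P (mk 0 1, mk 0 Complex.I) '' pts K = (fun z : ℂ => (z.re, z.im)) '' sh2 K := by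
    unfold sh2
    rw [Set.image_image]
    refine Set.image_congr fun x _ => ?_
    rw [I1_P_apply]
    simp only [inner_mk_right, in1, inI, inner_zero_right, zero_add]
  unfold I1_ar
  rw [h1, vol_image]

theorem sh_continuous : Continuous (fun K : Body => (volume (sh1 K)).toReal + (volume (sh2 K)).toReal) := by
  have h1 := I1_ar_comp (T := Body) (fun K => K) (fun _ => mk 1 0) (fun _ => mk Complex.I 0)
    continuous_id continuous_const continuous_const
  have h2 := I1_ar_comp (T := Body) (fun K => K) (fun _ => mk 0 1) (fun _ => mk 0 Complex.I)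
    continuous_id continuous_const continuous_const
  have h3 := h1.add h2
  refine h3.congr fun K => ?_
  rw [sh1_ar, sh2_ar]
  rfl

theorem sh_translation (K L : Body) (v : C2) (hL : pts L = (fun x => x + v) '' pts K) :
    (volume (sh1 L)).toReal = (volume (sh1 K)).toReal ∧
      (volume (sh2 L)).toReal = (volume (sh2 K)).toReal := by
  have h1 : sh1 L = (fun z => z + p1 v) '' sh1 K := by
    unfold sh1
    rw [hL, Set.image_image, Set.image_image]
    exact Set.image_congr fun x _ => p1_add _ _
  have h2 : sh2 L = (fun z => z + p2 v) '' sh2 K := by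
    unfold sh2
    rw [hL, Set.image_image, Set.image_image]
    exact Set.image_congr fun x _ => p2_add _ _
  rw [h1, h2, Set.image_add_right, Set.image_add_right, measure_preimage_add_right,
    measure_preimage_add_right]
  exact ⟨rfl, rfl⟩

theorem shadows' (K : Body) :
    V2 K - F K ≤ (volume (sh1 K)).toReal + (volume (sh2 K)).toReal ∧
    (volume (sh1 K)).toReal + (volume (sh2 K)).toReal ≤ V2 K := by
  have hF : Continuous F := muab_continuous 1 0
  have h1 : 0 ≤ (volume (sh1 K)).toReal + (volume (sh2 K)).toReal - (V2 K - F K) := by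
    refine ext_of_ball
      (fun K => (volume (sh1 K)).toReal + (volume (sh2 K)).toReal - (V2 K - F K))
      (sh_continuous.sub (ext_V2_cont.sub hF)) (fun K L v hL => ?_) (fun K r hr hK => ?_) K
    · have e1 := sh_translation K L v hL
      have e2 := ext_V2_translation K L v hL
      have e3 : F L = F K := muab_translation 1 0 K L v hL
      simp only [e1.1, e1.2, e2, e3]
    · refine ext_of_smooth
        (fun K => (volume (sh1 K)).toReal + (volume (sh2 K)).toReal - (V2 K - F K))
        (sh_continuous.sub (ext_V2_cont.sub hF)) (fun g L hg hL => ?_) K r hr hK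
      have e1 := (shadows_smooth hg L hL).1
      linarith
  have h2 : 0 ≤ V2 K - ((volume (sh1 K)).toReal + (volume (sh2 K)).toReal) := by
    refine ext_of_ball
      (fun K => V2 K - ((volume (sh1 K)).toReal + (volume (sh2 K)).toReal))
      (ext_V2_cont.sub sh_continuous) (fun K L v hL => ?_) (fun K r hr hK => ?_) K
    · have e1 := sh_translation K L v hL
      have e2 := ext_V2_translation K L v hL
      simp only [e1.1, e1.2, e2]
    · refine ext_of_smooth
        (fun K => V2 K - ((volume (sh1 K)).toReal + (volume (sh2 K)).toReal))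
        (ext_V2_cont.sub sh_continuous) (fun g L hg hL => ?_) K r hr hK
      have e1 := (shadows_smooth hg L hL).2
      linarith
  constructor
  · linarith
  · linarith

end Pool.Agent.HAS.T
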