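import Pool.Agent.HAS.T.Crd

/-!
# HAS block D: definitions of the T-calculus

Points of `ℂ²` on the dual side are `w = mk v y`; `T = TH h w` is the Newton tensor of the Hessian `hess h w`.
-/

set_option autoImplicit false

namespace Pool.Agent.HAS.T

open MeasureTheory Metric Set
open Pool.Agent.Helper85.Herm Pool.Agent.Helper85.Cap Pool.Agent.HVM

/-! ### Components of the Newton tensor -/

/-- `⟨T e₃, e₃⟩`, `e₃ = (0, i y / |y|)` -/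
noncomputable def t33 (h : C2 → ℝ) (w : C2) : ℝ :=
  inner ℝ (TH h w (mk 0 (Complex.I * p2 w))) (mk 0 (Complex.I * p2 w)) / ‖p2 w‖ ^ 2

/-- `⟨T τ, τ⟩`, `τ = (i v / |v|, 0)` -/
noncomputable def ttt (h : C2 → ℝ) (w : C2) : ℝ :=
  inner ℝ (TH h w (mk (Complex.I * p1 w) 0)) (mk (Complex.I * p1 w) 0) / ‖p1 w‖ ^ 2

/-- the density of `μ_{2,0}` -/
noncomputable def tP (h : C2 → ℝ) (w : C2) : ℝ :=
  inner ℝ (TH h w (Iq w)) (Iq w) + inner ℝ (TH h w (Kq w)) (Kq w)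

/-! ### Entries of the Hessian at `w = mk v y` -/

/-- entries of the restriction of `M` to `ℂ × 0` -/
noncomputable def a11 (M : C2 →L[ℝ] C2) : ℝ := inner ℝ (M (mk 1 0)) (mk 1 0)

/-- entries of the restriction of `M` to `ℂ × 0` -/
noncomputable def a12 (M : C2 →L[ℝ] C2) : ℝ := inner ℝ (M (mk 1 0)) (mk Complex.I 0)

/-- entries of the restriction of `M` to `ℂ × 0` -/
noncomputable def a22 (M : C2 →L[ℝ] C2) : ℝ := inner ℝ (M (mk Complex.I 0)) (mk Complex.I 0)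

/-- the component of `M (0, i y)` in `ℂ × 0` -/
noncomputable def bb (M : C2 →L[ℝ] C2) (y : ℂ) : ℂ := p1 (M (mk 0 (Complex.I * y)))

/-- `⟨M (0, i y), (0, i y)⟩` -/
noncomputable def kk (M : C2 →L[ℝ] C2) (y : ℂ) : ℝ :=
  inner ℝ (M (mk 0 (Complex.I * y))) (mk 0 (Complex.I * y))

/-! ### The partial Legendre transform -/

/-- the map `v ↦ z` for fixed `y` -/
noncomputable def zm (h : C2 → ℝ) (y v : ℂ) : ℂ := p1 (gradient h (mk v y))

/-- the derivative of `zm h y` at `v` -/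
noncomputable def zmD (h : C2 → ℝ) (y v : ℂ) : ℂ →L[ℝ] ℂ := p1L ∘L hess h (mk v y) ∘L i1L

/-- the inverse map: `Vf h (z, y)` is the `v` with `zm h y v = z` -/
noncomputable def Vf (h : C2 → ℝ) (p : ℂ × ℂ) : ℂ := Function.invFun (zm h p.2) p.1

/-- the family of the fibre support functions as a function of `(z, θ)` -/
noncomputable def Phi (K : Body) (p : ℂ × ℝ) : ℝ := gf K p.2 p.1

/-- `v` as a function of `(z, θ)` -/
noncomputable def Vt (h : C2 → ℝ) (p : ℂ × ℝ) : ℂ := Vf h (p.1, ee p.2)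

/-- `x` as a function of `(z, θ)` -/
noncomputable def Xt (h : C2 → ℝ) (p : ℂ × ℝ) : ℂ := p2 (gradient h (mk (Vt h p) (ee p.2)))

/-! ### Partial derivatives of functions of `(z, θ)` -/

/-- derivative in the direction of the real part of `z` -/
noncomputable def dx (Φ : ℂ × ℝ → ℝ) (p : ℂ × ℝ) : ℝ := fderiv ℝ Φ p (1, 0)

/-- derivative in the direction of the imaginary part of `z` -/
noncomputable def dy (Φ : ℂ × ℝ → ℝ) (p : ℂ × ℝ) : ℝ := fderiv ℝ Φ p (Complex.I, 0)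

/-- derivative in the direction of `θ` -/
noncomputable def dt (Φ : ℂ × ℝ → ℝ) (p : ℂ × ℝ) : ℝ := fderiv ℝ Φ p (0, 1)

/-- the integrand `N = -(g + g'') Δ g + |∇ g' - i ∇ g|²` -/
noncomputable def Nf (Φ : ℂ × ℝ → ℝ) (p : ℂ × ℝ) : ℝ :=
  -(Φ p + dt (dt Φ) p) * (dx (dx Φ) p + dy (dy Φ) p) +
    ((dx (dt Φ) p + dy Φ p) ^ 2 + (dy (dt Φ) p - dx Φ p) ^ 2)

/-! ### Functions of `(z, θ)` which are periodic in `θ` -/

/-- `Φ` is `C³` on `Ω × ℝ` and `2π`-periodic in `θ` -/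
structure Per (Ω : Set ℂ) (Φ : ℂ × ℝ → ℝ) : Prop where
  smooth : ContDiffOn ℝ 3 Φ (Ω ×ˢ (univ : Set ℝ))
  per : ∀ (z : ℂ) (θ : ℝ), Φ (z, θ + 2 * Real.pi) = Φ (z, θ)

/-- the mean over `θ` -/
noncomputable def mean (Φ : ℂ × ℝ → ℝ) (z : ℂ) : ℝ :=
  (2 * Real.pi)⁻¹ * ∫ θ in (0 : ℝ)..(2 * Real.pi), Φ (z, θ)

/-- the coefficient of `cos θ` -/
noncomputable def c1 (Φ : ℂ × ℝ → ℝ) (z : ℂ) : ℝ :=
  Real.pi⁻¹ * ∫ θ in (0 : ℝ)..(2 * Real.pi), Real.cos θ * Φ (z, θ)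

/-- the coefficient of `sin θ` -/
noncomputable def c2 (Φ : ℂ × ℝ → ℝ) (z : ℂ) : ℝ :=
  Real.pi⁻¹ * ∫ θ in (0 : ℝ)..(2 * Real.pi), Real.sin θ * Φ (z, θ)

/-- `Φ` without its Fourier modes `±1` -/
noncomputable def hat (Φ : ℂ × ℝ → ℝ) (p : ℂ × ℝ) : ℝ :=
  Φ p - (c1 Φ p.1 * Real.cos p.2 + c2 Φ p.1 * Real.sin p.2)

/-! ### The vector field of the edge estimate -/

/-- a smooth version of `|y|` -/
noncomputable def ys (σ : ℝ) (w : C2) : ℝ := Real.sqrt (‖p2 w‖ ^ 2 + σ ^ 2 * ‖w‖ ^ 2)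

/-- the factor `Q` -/
noncomputable def Qs (σ : ℝ) (w : C2) : ℝ := (ys σ w * (‖w‖ + ys σ w))⁻¹

/-- the vector field `U = Q (|y|² v, -|v|² y)` -/
noncomputable def Us (σ : ℝ) (w : C2) : C2 :=
  Qs σ w • mk ((‖p2 w‖ ^ 2 : ℝ) • p1 w) (-((‖p1 w‖ ^ 2 : ℝ) • p2 w))

end Pool.Agent.HAS.T
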