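import Pool.Agent.HAS.T.IsoS
import Pool.Agent.HAS.T.Sae

/-!
# HAS-V2i: `V2` is invariant under linear isometries (smooth case, then approximation)
-/

set_option autoImplicit false

namespace Pool.Agent.HAS.T

open MeasureTheory Metric Set Filter Topology
open Pool.Agent.Helper85.Herm Pool.Agent.Helper85.Cap Pool.Agent.HVM

private theorem smooth_case (g : C2 ≃ₗᵢ[ℝ] C2) {h : C2 → ℝ} (hs : SmoothSupp h) (K : Body)
    (hK : pts K = wulff h) : V2 (gB g K) = V2 K := by
  have hs' : SmoothSupp (fun w => h (g.symm w)) := smoothSupp_comp hs g.symm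
  have hK' : pts (gB g K) = wulff (fun w => h (g.symm w)) := by
    rw [pts_gB, hK, wulff_comp h g.symm, LinearIsometryEquiv.symm_symm]
  have h1 := V2_smooth hs K hK
  have h2 := V2_smooth hs' (gB g K) hK'
  have h3 : Sph (fun n => s2 (hess (fun w => h (g.symm w)) n)) =
      Sph (fun n => s2 (hess h (g.symm n))) := by
    unfold Sph
    refine integral_congr_ae (ae_of_all _ fun n => ?_)
    have hn : (n : C2) ≠ 0 := by
      intro h0
      have h4 : ‖(n : C2)‖ = 1 := by
        have h5 := n.2
        rw [mem_sphere_zero_iff_norm] at h5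
        exact h5
      rw [h0, norm_zero] at h4
      exact zero_ne_one h4
    exact s2_conj g.symm (hess h (g.symm n)) (hess (fun w => h (g.symm w)) n)
      (fun x => hess_comp hs g.symm hn x)
  have h4 : Sph (fun n => s2 (hess h (g.symm n))) = Sph (fun n => s2 (hess h n)) := by
    refine sph_isom g.symm (fun w => s2 (hess h w)) (-2) ?_
    intro c w hc hw
    show s2 (hess h (c • w)) = c ^ (-2 : ℤ) * s2 (hess h w)
    rw [hs.hess_smul c hc w hw, s2_smul, inv_pow, zpow_neg]
    rfl
  rw [h3, h4, ← h1] at h2
  have h5 : (2 * Real.pi) ≠ 0 := by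
    have := Real.pi_pos
    positivity
  exact mul_left_cancel₀ h5 h2

private theorem gen_case (g : C2 ≃ₗᵢ[ℝ] C2) (K : Body) : V2 (gB g K) = V2 K := by
  have hc1 : Continuous (fun K : Body => V2 (gB g K)) := ext_V2_cont.comp (gB_continuous g)
  have htr : ∀ (K L : Body) (v : C2), pts L = (fun x => x + v) '' pts K →
      V2 (gB g L) = V2 (gB g K) := by
    intro K L v hL
    refine ext_V2_translation (gB g K) (gB g L) (g v) ?_
    rw [pts_gB, hL, image_image, pts_gB, image_image]
    refine image_congr fun x _ => ?_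
    exact map_add g x v
  refine le_antisymm ?_ ?_
  · have h1 : 0 ≤ V2 K - V2 (gB g K) := by
      refine ext_of_ball (fun K => V2 K - V2 (gB g K)) (ext_V2_cont.sub hc1) ?_ ?_ K
      · intro K L v hL
        simp only [ext_V2_translation K L v hL, htr K L v hL]
      · intro K r hr hK
        refine ext_of_smooth (fun K => V2 K - V2 (gB g K)) (ext_V2_cont.sub hc1) ?_ K r hr hK
        intro h L hs hL
        show 0 ≤ V2 L - V2 (gB g L)
        rw [smooth_case g hs L hL, sub_self]
    linarith
  · have h1 : 0 ≤ V2 (gB g K) - V2 K := by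
      refine ext_of_ball (fun K => V2 (gB g K) - V2 K) (hc1.sub ext_V2_cont) ?_ ?_ K
      · intro K L v hL
        simp only [ext_V2_translation K L v hL, htr K L v hL]
      · intro K r hr hK
        refine ext_of_smooth (fun K => V2 (gB g K) - V2 K) (hc1.sub ext_V2_cont) ?_ K r hr hK
        intro h L hs hL
        show 0 ≤ V2 (gB g L) - V2 L
        rw [smooth_case g hs L hL, sub_self]
    linarith

theorem V2_isom' (g : C2 ≃ₗᵢ[ℝ] C2) (K L : Body) (hL : pts L = g '' pts K) : V2 L = V2 K := by
  have h1 : L = gB g K := SetLike.coe_injective hL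
  rw [h1]
  exact gen_case g K

end Pool.Agent.HAS.T
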